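import Pool.Agent.Work.MP_f3d170_co_helper44.Interface

/-! Block FIN (helper99): many circuits. -/

set_option autoImplicit false

open Set Matroid Nat
open Pool.Agent.Work.MP_f3d170_co_h45
open Pool.Agent.Work.MP_f3d170_co_helper60
open Pool.Agent.Work.MP_f3d170_co_helper60b

namespace Pool.Agent.Work.MP_f3d170_co_helper44

namespace TFIN
open Classical

variable {n s Λ : ℕ}

/-- finsets against sets -/
lemma card_filter_le (P : Set (Fin n) → Prop) (k : ℕ) :
    (((Finset.univ : Finset (Fin n)).powersetCard k).filter (fun S : Finset (Fin n) => P (S : Set (Fin n)))).card ≤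
      {X : Set (Fin n) | P X}.ncard := by
  rw [← Set.ncard_coe_finset]
  refine Set.ncard_le_ncard_of_injOn (fun S : Finset (Fin n) => (S : Set (Fin n))) ?_ ?_
    (Set.toFinite _)
  · intro S hS
    rw [Finset.mem_coe, Finset.mem_filter] at hS
    exact hS.2
  · intro S _ S' _ h
    exact Finset.coe_injective h

lemma exists_basis {M : Matroid (Fin n)} (hE : M.E = Set.univ) (X : Set (Fin n)) :
    ∃ J ⊆ X, M.Indep J ∧ J.ncard = rk M X ∧ X ⊆ M.closure J := by
  obtain ⟨J, hJ⟩ := M.exists_isBasis X (by rw [hE]; exact Set.subset_univ _)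
  refine ⟨J, hJ.subset, hJ.indep, ?_, hJ.subset_closure⟩
  rw [← indep_iff_rk.1 hJ.indep]
  apply le_antisymm (rk_mono M hJ.subset)
  exact rk_le_of_subset_closure hJ.subset_closure

lemma not_large {M : Matroid (Fin n)} {S : Set (Fin n)}
    (hno : ¬ ∃ X ⊆ S, X ∈ Rm (trunc M s) s (Lg Λ M s)) {I X : Set (Fin n)} (hI : M.Indep I)
    (hIs : I.ncard = s) (hX : X ⊆ S) (hXc : X.ncard = s + 1) (hXI : X ⊆ M.closure I) :
    bn M s (M.closure I) < Λ := by
  by_contra h
  push Not at h
  exact hno ⟨X, hX, hXc, Or.inl ⟨M.closure I,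
    ⟨closure_isHyp (by rw [indep_iff_rk.1 hI, hIs]), h⟩, hXI⟩⟩

lemma rk_ge {M : Matroid (Fin n)} {S : Set (Fin n)} (hS : S.ncard = s + 2)
    (hno : ¬ ∃ X ⊆ S, X ∈ Rm (trunc M s) s (Lg Λ M s)) : s ≤ rk M S := by
  obtain ⟨X, hX, hXc⟩ := Set.exists_subset_card_eq (s := S) (n := s + 1) (by omega)
  by_contra hcon
  push Not at hcon
  refine hno ⟨X, hX, hXc, Or.inr ?_⟩
  intro T hT hTs hTi
  have h1 := indep_iff_rk.1 (trunc_indep.1 hTi).1
  have h2 := rk_mono M (hT.trans hX)
  omega

/-- the pairs of type (b) -/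
lemma pairs {M : Matroid (Fin n)} (hE : M.E = Set.univ) {S : Finset (Fin n)}
    (hS : S.card = s + 2) (hr : rk M (S : Set (Fin n)) = s + 1)
    (hC : ¬ M.IsCircuit (S : Set (Fin n)))
    (hno : ¬ ∃ X ⊆ (S : Set (Fin n)), X ∈ Rm (trunc M s) s (Lg Λ M s)) :
    s + 1 ≤ ((S ×ˢ S).filter (fun p => p.1 ≠ p.2 ∧
      M.Indep ((((S.erase p.1).erase p.2 : Finset (Fin n))) : Set (Fin n)) ∧
      p.1 ∈ M.closure ((((S.erase p.1).erase p.2 : Finset (Fin n))) : Set (Fin n)) ∧
      bn M s (M.closure ((((S.erase p.1).erase p.2 : Finset (Fin n))) : Set (Fin n))) < Λ)).card := by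
  set K := S.filter (fun x => M.Indep ((S.erase x : Finset (Fin n)) : Set (Fin n))) with hK
  have hKS : K ⊆ S := Finset.filter_subset _ _
  have hScoe : (S : Set (Fin n)).ncard = s + 2 := by rw [Set.ncard_coe_finset, hS]
  -- K is nonempty
  have hK1 : 1 ≤ K.card := by
    obtain ⟨J, hJ, hJi, hJc, -⟩ := exists_basis hE (S : Set (Fin n))
    rw [hr] at hJc
    obtain ⟨J', rfl⟩ : ∃ J' : Finset (Fin n), (J' : Set (Fin n)) = J :=
      ⟨J.toFinset, by simp⟩
    rw [Finset.coe_subset] at hJ
    rw [Set.ncard_coe_finset] at hJc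
    have h1 : (S \ J').card = 1 := by
      rw [Finset.card_sdiff_of_subset hJ]; omega
    obtain ⟨x, hx⟩ := Finset.card_eq_one.1 h1
    have hxS : x ∈ S \ J' := by rw [hx]; simp
    rw [Finset.mem_sdiff] at hxS
    have h2 : S.erase x = J' := by
      symm
      apply Finset.eq_of_subset_of_card_le
      · intro y hy
        rw [Finset.mem_erase]
        refine ⟨?_, hJ hy⟩
        rintro rfl
        exact hxS.2 hy
      · rw [Finset.card_erase_of_mem hxS.1]; omega
    rw [Nat.one_le_iff_ne_zero, Finset.card_ne_zero]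
    refine ⟨x, ?_⟩
    rw [hK, Finset.mem_filter, h2]
    exact ⟨hxS.1, hJi⟩
  -- K is not S
  have hK2 : K.card ≤ s + 1 := by
    by_contra hcon
    push Not at hcon
    have h1 : K = S := Finset.eq_of_subset_of_card_le hKS (by omega)
    apply hC
    rw [isCircuit_iff_dep_forall_sdiff_singleton_indep]
    constructor
    · rw [← not_indep_iff (by rw [hE]; exact Set.subset_univ _), indep_iff_rk, hScoe, hr]
      omega
    · intro x hx
      rw [Finset.mem_coe, ← h1, hK, Finset.mem_filter] at hx
      have := hx.2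
      rwa [Finset.coe_erase] at this
  have hsub : K ×ˢ (S \ K) ⊆ (S ×ˢ S).filter (fun p => p.1 ≠ p.2 ∧
      M.Indep ((((S.erase p.1).erase p.2 : Finset (Fin n))) : Set (Fin n)) ∧
      p.1 ∈ M.closure ((((S.erase p.1).erase p.2 : Finset (Fin n))) : Set (Fin n)) ∧
      bn M s (M.closure ((((S.erase p.1).erase p.2 : Finset (Fin n))) : Set (Fin n))) < Λ) := by
    rintro ⟨x, z⟩ hp
    rw [Finset.mem_product, Finset.mem_sdiff] at hp
    obtain ⟨hx, hz, hzK⟩ := hp
    simp only at hx hz hzK
    have hxS : x ∈ S := hKS hx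
    have hxz : x ≠ z := by rintro rfl; exact hzK hx
    have hxi : M.Indep ((S.erase x : Finset (Fin n)) : Set (Fin n)) := by
      rw [hK, Finset.mem_filter] at hx
      exact hx.2
    have hI : M.Indep ((((S.erase x).erase z : Finset (Fin n))) : Set (Fin n)) :=
      hxi.subset (Finset.coe_subset.2 (Finset.erase_subset _ _))
    have hIc : ((S.erase x).erase z).card = s := by
      rw [Finset.card_erase_of_mem (Finset.mem_erase.2 ⟨hxz.symm, hz⟩),
        Finset.card_erase_of_mem hxS, hS]
      omega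
    have hIc' : ((((S.erase x).erase z : Finset (Fin n))) : Set (Fin n)).ncard = s := by
      rw [Set.ncard_coe_finset, hIc]
    have hzc : ((S.erase z : Finset (Fin n)) : Set (Fin n)).ncard = s + 1 := by
      rw [Set.ncard_coe_finset, Finset.card_erase_of_mem hz, hS]
      omega
    have hle : (((S.erase x).erase z : Finset (Fin n)) : Set (Fin n)) ⊆
        ((S.erase z : Finset (Fin n)) : Set (Fin n)) := by
      rw [Finset.coe_subset]
      intro y hy
      rw [Finset.mem_erase, Finset.mem_erase] at hy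
      rw [Finset.mem_erase]
      exact ⟨hy.1, hy.2.2⟩
    have hrz : rk M ((S.erase z : Finset (Fin n)) : Set (Fin n)) ≤ s := by
      by_contra hcon
      push Not at hcon
      have h1 := rk_le_ncard M ((S.erase z : Finset (Fin n)) : Set (Fin n))
      apply hzK
      rw [hK, Finset.mem_filter, indep_iff_rk]
      exact ⟨hz, by omega⟩
    have hcl : M.closure (((S.erase x).erase z : Finset (Fin n)) : Set (Fin n)) =
        M.closure ((S.erase z : Finset (Fin n)) : Set (Fin n)) :=
      closure_eq_of_rk hle (by rw [indep_iff_rk.1 hI, hIc']; exact hrz)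
    have hsubz : ((S.erase z : Finset (Fin n)) : Set (Fin n)) ⊆
        M.closure (((S.erase x).erase z : Finset (Fin n)) : Set (Fin n)) := by
      rw [hcl]
      exact M.subset_closure _ (by rw [hE]; exact Set.subset_univ _)
    rw [Finset.mem_filter, Finset.mem_product]
    refine ⟨⟨hxS, hz⟩, hxz, hI, ?_, ?_⟩
    · exact hsubz (Finset.mem_coe.2 (Finset.mem_erase.2 ⟨hxz, hxS⟩))
    · exact not_large hno hI hIc' (Finset.coe_subset.2 (Finset.erase_subset z S)) hzc hsubz
  refine le_trans ?_ (Finset.card_le_card hsub)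
  rw [Finset.card_product, Finset.card_sdiff_of_subset hKS, hS]
  obtain ⟨c, hc⟩ : ∃ c, K.card = c + 1 := ⟨K.card - 1, by omega⟩
  obtain ⟨b, hb⟩ : ∃ b, s + 2 - K.card = b + 1 := ⟨s + 1 - K.card, by omega⟩
  rw [hb, hc]
  have : s + 2 = (c + 1) + (b + 1) := by omega
  nlinarith

/-- sets of type (a) -/
lemma typeA {M : Matroid (Fin n)} (hE : M.E = Set.univ) {S : Finset (Fin n)}
    (hS : S.card = s + 2) (hr : rk M (S : Set (Fin n)) = s)
    (hno : ¬ ∃ X ⊆ (S : Set (Fin n)), X ∈ Rm (trunc M s) s (Lg Λ M s)) :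
    ∃ (I : Finset (Fin n)) (x z : Fin n), I.card = s ∧ M.Indep (I : Set (Fin n)) ∧
      bn M s (M.closure (I : Set (Fin n))) < Λ ∧
      x ∈ M.closure (I : Set (Fin n)) \ I ∧ z ∈ M.closure (I : Set (Fin n)) \ I ∧
      S = insert x (insert z I) := by
  obtain ⟨J, hJ, hJi, hJc, hJcl⟩ := exists_basis hE (S : Set (Fin n))
  rw [hr] at hJc
  obtain ⟨I, rfl⟩ : ∃ J' : Finset (Fin n), (J' : Set (Fin n)) = J :=
    ⟨J.toFinset, by simp⟩
  rw [Finset.coe_subset] at hJ
  have hIc := hJc
  rw [Set.ncard_coe_finset] at hIc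
  have h1 : (S \ I).card = 2 := by
    rw [Finset.card_sdiff_of_subset hJ]; omega
  obtain ⟨x, z, hxz, hxzS⟩ := Finset.card_eq_two.1 h1
  have hx : x ∈ S \ I := by rw [hxzS]; simp
  have hz : z ∈ S \ I := by rw [hxzS]; simp
  have hSeq : S = insert x (insert z I) := by
    have h2 : S = (S \ I) ∪ I := (Finset.sdiff_union_of_subset hJ).symm
    rw [hxzS] at h2
    rw [h2]
    ext y
    simp only [Finset.mem_union, Finset.mem_insert, Finset.mem_singleton]
    tauto
  rw [Finset.mem_sdiff] at hx hz
  refine ⟨I, x, z, hIc, hJi, ?_, ⟨hJcl hx.1, fun h => hx.2 h⟩, ⟨hJcl hz.1, fun h => hz.2 h⟩,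
    hSeq⟩
  refine not_large (X := ((insert x I : Finset (Fin n)) : Set (Fin n))) hno hJi hJc ?_ ?_ ?_
  · rw [Finset.coe_subset]
    exact Finset.insert_subset hx.1 hJ
  · rw [Set.ncard_coe_finset, Finset.card_insert_of_notMem hx.2, hIc]
  · intro y hy
    rw [Finset.mem_coe, Finset.mem_insert] at hy
    rcases hy with rfl | hy
    · exact hJcl hx.1
    · exact hJcl (hJ hy)

end TFIN

open Classical in
open TFIN in
theorem stmt_FIN : Stmt_FIN := by
  intro n s Λ e M he
  obtain ⟨M, hE, hMr⟩ := M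
  simp only at he ⊢
  have hru : rk M Set.univ = s + 1 := by
    rw [← M.eRk_univ_eq, ← coe_rk] at hMr
    exact_mod_cast hMr
  set R := Rm (trunc M s) s (Lg Λ M s) with hR
  set U := (Finset.univ : Finset (Fin n)).powersetCard (s + 2) with hU
  set A0 := U.filter (fun S : Finset (Fin n) => M.IsCircuit (S : Set (Fin n))) with hA0
  set A1 := U.filter (fun S : Finset (Fin n) => ∃ X ⊆ (S : Set (Fin n)), X ∈ R) with hA1
  set A2 := U.filter (fun S : Finset (Fin n) => (¬ ∃ X ⊆ (S : Set (Fin n)), X ∈ R) ∧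
    rk M (S : Set (Fin n)) = s) with hA2
  set A3 := U.filter (fun S : Finset (Fin n) => (¬ ∃ X ⊆ (S : Set (Fin n)), X ∈ R) ∧
    rk M (S : Set (Fin n)) = s + 1 ∧ ¬ M.IsCircuit (S : Set (Fin n))) with hA3
  have hcardU : U.card = n.choose (s + 2) := by
    rw [hU, Finset.card_powersetCard, Finset.card_univ, Fintype.card_fin]
  have hmemU : ∀ S, S ∈ U ↔ S.card = s + 2 := by
    intro S
    rw [hU, Finset.mem_powersetCard]
    exact ⟨fun h => h.2, fun h => ⟨Finset.subset_univ _, h⟩⟩
  have hcover : U ⊆ A0 ∪ (A1 ∪ (A2 ∪ A3)) := by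
    intro S hS
    simp only [Finset.mem_union, hA0, hA1, hA2, hA3, Finset.mem_filter]
    by_cases h0 : M.IsCircuit (S : Set (Fin n))
    · exact Or.inl ⟨hS, h0⟩
    by_cases h1 : ∃ X ⊆ (S : Set (Fin n)), X ∈ R
    · exact Or.inr (Or.inl ⟨hS, h1⟩)
    have h2 : (S : Set (Fin n)).ncard = s + 2 := by
      rw [Set.ncard_coe_finset]; exact (hmemU S).1 hS
    have h3 := rk_ge h2 h1
    have h4 := rk_mono M (Set.subset_univ (S : Set (Fin n)))
    rw [hru] at h4
    rcases (show rk M (S : Set (Fin n)) = s ∨ rk M (S : Set (Fin n)) = s + 1 by omega) with h5 | h5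
    · exact Or.inr (Or.inr (Or.inl ⟨hS, h1, h5⟩))
    · exact Or.inr (Or.inr (Or.inr ⟨hS, h1, h5, h0⟩))
  have hsum : n.choose (s + 2) ≤ A0.card + (A1.card + (A2.card + A3.card)) := by
    rw [← hcardU]
    refine (Finset.card_le_card hcover).trans ((Finset.card_union_le _ _).trans
      (Nat.add_le_add_left ((Finset.card_union_le _ _).trans
        (Nat.add_le_add_left (Finset.card_union_le _ _) _)) _))
  have h0 : A0.card ≤ numCircuits M := by
    have := card_filter_le (n := n) (fun X => M.IsCircuit X) (s + 2)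
    unfold numCircuits
    convert this
  have h1 : A1.card ≤ (n - (s + 1)) * R.ncard := by
    set R' := ((Finset.univ : Finset (Fin n)).powersetCard (s + 1)).filter
      (fun X : Finset (Fin n) => (X : Set (Fin n)) ∈ R) with hR'
    have hR'c : R'.card ≤ R.ncard := by
      have := card_filter_le (n := n) (fun X => X ∈ R) (s + 1)
      rw [Set.ofPred_mem_eq] at this
      convert this
    have hsub : A1 ⊆ R'.biUnion (fun X => (Finset.univ \ X).image (fun a => insert a X)) := by
      intro S hS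
      rw [hA1, Finset.mem_filter] at hS
      obtain ⟨hSU, X, hXS, hXR⟩ := hS
      obtain ⟨X', rfl⟩ : ∃ J' : Finset (Fin n), (J' : Set (Fin n)) = X :=
        ⟨X.toFinset, by simp⟩
      rw [Finset.coe_subset] at hXS
      have hXc : X'.card = s + 1 := by
        have := hXR.1
        rwa [Set.ncard_coe_finset] at this
      have h1 : (S \ X').card = 1 := by
        rw [Finset.card_sdiff_of_subset hXS, (hmemU S).1 hSU, hXc]
        omega
      obtain ⟨a, ha⟩ := Finset.card_eq_one.1 h1
      have ha' : a ∈ S \ X' := by rw [ha]; simp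
      rw [Finset.mem_sdiff] at ha'
      rw [Finset.mem_biUnion]
      refine ⟨X', ?_, ?_⟩
      · rw [hR', Finset.mem_filter, Finset.mem_powersetCard]
        exact ⟨⟨Finset.subset_univ _, hXc⟩, hXR⟩
      · rw [Finset.mem_image]
        refine ⟨a, Finset.mem_sdiff.2 ⟨Finset.mem_univ _, ha'.2⟩, ?_⟩
        apply Finset.eq_of_subset_of_card_le
        · exact Finset.insert_subset ha'.1 hXS
        · rw [Finset.card_insert_of_notMem ha'.2, (hmemU S).1 hSU, hXc]
    refine (Finset.card_le_card hsub).trans ?_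
    refine (Finset.card_biUnion_le_card_mul _ _ (n - (s + 1)) ?_).trans ?_
    · intro X hX
      rw [hR', Finset.mem_filter, Finset.mem_powersetCard] at hX
      refine Finset.card_image_le.trans ?_
      rw [Finset.card_sdiff_of_subset (Finset.subset_univ _), Finset.card_univ, Fintype.card_fin,
        hX.1.2]
    · rw [mul_comm]
      exact Nat.mul_le_mul_left _ hR'c
  -- the good independent sets
  set J := ((Finset.univ : Finset (Fin n)).powersetCard s).filter
    (fun I : Finset (Fin n) => M.Indep (I : Set (Fin n)) ∧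
      bn M s (M.closure (I : Set (Fin n))) < Λ) with hJ
  have hJc : J.card ≤ n.choose s := by
    refine (Finset.card_le_card (Finset.filter_subset _ _)).trans ?_
    rw [Finset.card_powersetCard, Finset.card_univ, Fintype.card_fin]
  have hJe : ∀ I ∈ J, ((M.closure (I : Set (Fin n)) \ (I : Set (Fin n))).toFinset).card ≤ e := by
    intro I hI
    rw [hJ, Finset.mem_filter, Finset.mem_powersetCard] at hI
    rw [← Set.ncard_eq_toFinset_card']
    exact he I hI.2.1 (by rw [Set.ncard_coe_finset]; exact hI.1.2) hI.2.2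
  have h2 : A2.card ≤ n.choose s * e ^ 2 := by
    have hsub : A2 ⊆ J.biUnion (fun I =>
        (((M.closure (I : Set (Fin n)) \ (I : Set (Fin n))).toFinset) ×ˢ
          ((M.closure (I : Set (Fin n)) \ (I : Set (Fin n))).toFinset)).image
            (fun p => insert p.1 (insert p.2 I))) := by
      intro S hS
      rw [hA2, Finset.mem_filter] at hS
      obtain ⟨I, x, z, hI1, hI2, hI3, hx, hz, hSe⟩ := typeA hE ((hmemU S).1 hS.1) hS.2.2 hS.2.1
      rw [Finset.mem_biUnion]
      refine ⟨I, ?_, ?_⟩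
      · rw [hJ, Finset.mem_filter, Finset.mem_powersetCard]
        exact ⟨⟨Finset.subset_univ _, hI1⟩, hI2, hI3⟩
      · rw [Finset.mem_image]
        refine ⟨(x, z), ?_, hSe.symm⟩
        rw [Finset.mem_product, Set.mem_toFinset, Set.mem_toFinset]
        exact ⟨hx, hz⟩
    refine (Finset.card_le_card hsub).trans ?_
    refine (Finset.card_biUnion_le_card_mul _ _ (e ^ 2) ?_).trans (Nat.mul_le_mul_right _ hJc)
    intro I hI
    refine Finset.card_image_le.trans ?_
    rw [Finset.card_product, sq]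
    exact Nat.mul_le_mul (hJe I hI) (hJe I hI)
  have h3 : (s + 1) * A3.card ≤ n.choose s * (e * (n - s)) := by
    set Q : Finset (Fin n) → Finset (Fin n × Fin n) := fun S => (S ×ˢ S).filter (fun p =>
      p.1 ≠ p.2 ∧ M.Indep ((((S.erase p.1).erase p.2 : Finset (Fin n))) : Set (Fin n)) ∧
      p.1 ∈ M.closure ((((S.erase p.1).erase p.2 : Finset (Fin n))) : Set (Fin n)) ∧
      bn M s (M.closure ((((S.erase p.1).erase p.2 : Finset (Fin n))) : Set (Fin n))) < Λ) with hQ
    have hlow : (s + 1) * A3.card ≤ (A3.sigma Q).card := by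
      rw [Finset.card_sigma, mul_comm, ← smul_eq_mul]
      apply Finset.card_nsmul_le_sum
      intro S hS
      rw [hA3, Finset.mem_filter] at hS
      exact pairs hE ((hmemU S).1 hS.1) hS.2.2.1 hS.2.2.2 hS.2.1
    refine hlow.trans ?_
    have hup : (A3.sigma Q).card ≤ (J.sigma (fun I =>
        ((M.closure (I : Set (Fin n)) \ (I : Set (Fin n))).toFinset) ×ˢ
          (Finset.univ \ I))).card := by
      refine Finset.card_le_card_of_injOn (fun t => ⟨(t.1.erase t.2.1).erase t.2.2, t.2⟩) ?_ ?_
      · rintro ⟨S, x, z⟩ ht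
        rw [Finset.mem_coe, Finset.mem_sigma] at ht
        obtain ⟨hS, hq⟩ := ht
        simp only at hS hq
        rw [hQ, Finset.mem_filter, Finset.mem_product] at hq
        obtain ⟨⟨hx, hz⟩, hxz, hI, hxI, hb⟩ := hq
        simp only at hx hz hxz hI hxI hb
        rw [hA3, Finset.mem_filter] at hS
        have hSc := (hmemU S).1 hS.1
        rw [Finset.mem_coe, Finset.mem_sigma]
        simp only
        rw [Finset.mem_product, Set.mem_toFinset, Finset.mem_sdiff]
        refine ⟨?_, ⟨hxI, ?_⟩, Finset.mem_univ _, ?_⟩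
        · rw [hJ, Finset.mem_filter, Finset.mem_powersetCard]
          refine ⟨⟨Finset.subset_univ _, ?_⟩, hI, hb⟩
          rw [Finset.card_erase_of_mem (Finset.mem_erase.2 ⟨hxz.symm, hz⟩),
            Finset.card_erase_of_mem hx, hSc]
          omega
        · simp
        · simp
      · rintro ⟨S, x, z⟩ ht ⟨S', x', z'⟩ ht' h
        rw [Finset.mem_coe, Finset.mem_sigma] at ht ht'
        simp only at ht ht' h
        replace ht := ht.2
        replace ht' := ht'.2
        rw [hQ, Finset.mem_filter, Finset.mem_product] at ht ht'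
        rw [Sigma.mk.injEq] at h
        obtain ⟨h1, h2⟩ := h
        have h3 := eq_of_heq h2
        rw [Prod.mk.injEq] at h3
        obtain ⟨rfl, rfl⟩ := h3
        have h4 : S = insert x (insert z ((S.erase x).erase z)) := by
          rw [Finset.insert_erase (Finset.mem_erase.2 ⟨ht.2.1.symm, ht.1.2⟩),
            Finset.insert_erase ht.1.1]
        have h5 : S' = insert x (insert z ((S'.erase x).erase z)) := by
          rw [Finset.insert_erase (Finset.mem_erase.2 ⟨ht'.2.1.symm, ht'.1.2⟩),
            Finset.insert_erase ht'.1.1]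
        have h6 : S = S' := by rw [h4, h5, h1]
        subst h6
        rfl
    refine hup.trans ?_
    rw [Finset.card_sigma]
    refine (Finset.sum_le_card_nsmul _ _ (e * (n - s)) ?_).trans ?_
    · intro I hI
      rw [Finset.card_product]
      refine Nat.mul_le_mul (hJe I hI) ?_
      rw [Finset.card_sdiff_of_subset (Finset.subset_univ _), Finset.card_univ, Fintype.card_fin]
      rw [hJ, Finset.mem_filter, Finset.mem_powersetCard] at hI
      rw [hI.1.2]
    · rw [smul_eq_mul]
      exact Nat.mul_le_mul_right _ hJc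
  calc (s + 1) * n.choose (s + 2) ≤ (s + 1) * (A0.card + (A1.card + (A2.card + A3.card))) :=
        Nat.mul_le_mul_left _ hsum
    _ = (s + 1) * A0.card + (s + 1) * A1.card + ((s + 1) * A2.card + (s + 1) * A3.card) := by ring
    _ ≤ (s + 1) * numCircuits M + (s + 1) * ((n - (s + 1)) * R.ncard) +
        ((s + 1) * (n.choose s * e ^ 2) + n.choose s * (e * (n - s))) := by gcongr
    _ = _ := by ring

end Pool.Agent.Work.MP_f3d170_co_helper44
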