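import Mathlib
import Pool.Agent.Work.MP_f3d170_co_h45.Defs
import Pool.Agent.Work.MP_f3d170_co_h45.Final
import Pool.Agent.Work.MP_f3d170_co_helper60.Assemble
import Pool.Agent.Work.MP_f3d170_co_helper60b.Final

/-!
# MP_f3d170_co, near-linear threshold: interface

`rk`, `IsHyp M s P` (flat of rank `s`), `trunc`, `Gen`, `HasGen`, `star`, `Rec`, `IsPart`,
`RankMatroid`, `numCircuits`, `numBases` are those of helper45/helper60.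
Everything in this file is a definition; the statements `Stmt_...` are the blocks.
-/

set_option autoImplicit false

open Set Matroid Nat
open Pool.Agent.Work.MP_f3d170_co_h45
open Pool.Agent.Work.MP_f3d170_co_helper60
open Pool.Agent.Work.MP_f3d170_co_helper60b

namespace Pool.Agent.Work.MP_f3d170_co_helper44

variable {n : ℕ}

/-! ## Definitions -/

/-- The number of independent `j`-subsets of `G`. -/
noncomputable def bn (M : Matroid (Fin n)) (j : ℕ) (G : Set (Fin n)) : ℕ :=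
  {I : Set (Fin n) | M.Indep I ∧ I.ncard = j ∧ I ⊆ G}.ncard

/-- The large flats of rank `j`: those with at least `Λ` bases. -/
def Lg (Λ : ℕ) (M : Matroid (Fin n)) (j : ℕ) : Set (Set (Fin n)) :=
  {G | IsHyp M j G ∧ Λ ≤ bn M j G}

/-- The `(s+1)`-sets contained in a member of `𝓖` or without `T`-independent `s`-subset. -/
def Rm (T : Matroid (Fin n)) (s : ℕ) (𝓖 : Set (Set (Fin n))) : Set (Set (Fin n)) :=
  {X | X.ncard = s + 1 ∧ ((∃ G ∈ 𝓖, X ⊆ G) ∨ ∀ S ⊆ X, S.ncard = s → ¬ T.Indep S)}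

/-- The blocks of the flats of rank `s` which are not in `𝓖`. -/
def Bk (M : Matroid (Fin n)) (s : ℕ) (𝓖 : Set (Set (Fin n))) : Set (Set (Fin n)) :=
  {A | ∃ P, IsHyp M s P ∧ P ∉ 𝓖 ∧ HasGen M s P ∧ A = star M s P}

/-- The flats of rank `s` which cost nothing: the large ones and those contained in two large
flats of rank `s + 1`. -/
def Coh (Λ : ℕ) (M : Matroid (Fin n)) (s : ℕ) : Set (Set (Fin n)) :=
  {P | P ∈ Lg Λ M s ∨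
    ∃ G ∈ Lg Λ M (s + 1), ∃ G' ∈ Lg Λ M (s + 1), G ≠ G' ∧ P ⊆ G ∧ P ⊆ G'}

/-- The other flats of rank `s` which contain an `(s+1)`-circuit. -/
def NC (Λ : ℕ) (M : Matroid (Fin n)) (s : ℕ) : Set (Set (Fin n)) :=
  {P | IsHyp M s P ∧ HasGen M s P ∧ P ∉ Coh Λ M s}

/-- Members of `NC` all of whose large covers have at most `n/2` elements. -/
def NCn (Λ : ℕ) (M : Matroid (Fin n)) (s : ℕ) : Set (Set (Fin n)) :=
  {P | P ∈ NC Λ M s ∧ ∀ G ∈ Lg Λ M (s + 1), P ⊆ G → 2 * G.ncard ≤ n}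

/-- Members of `NC` with a large cover with more than `n/2` elements (a giant). -/
def NCg (Λ : ℕ) (M : Matroid (Fin n)) (s : ℕ) : Set (Set (Fin n)) :=
  {P | P ∈ NC Λ M s ∧ ∃ G ∈ Lg Λ M (s + 1), P ⊆ G ∧ n < 2 * G.ncard}

/-- The `i`-sets contained in a giant large flat of rank `j`. -/
def Gi (Λ : ℕ) (M : Matroid (Fin n)) (j i : ℕ) : Set (Set (Fin n)) :=
  {Y | Y.ncard = i ∧ ∃ G ∈ Lg Λ M j, n < 2 * G.ncard ∧ Y ⊆ G}

/-- One-step closure under the circuits with at most `c` elements. -/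
def cl1 (T : Matroid (Fin n)) (c : ℕ) (A : Set (Fin n)) : Set (Fin n) :=
  A ∪ {z | ∃ S ⊆ A, T.Indep S ∧ S.ncard < c ∧ ¬ T.Indep (insert z S)}

/-- The elements `w ∈ I` for which some `x ∉ I` makes `I - w + x` a circuit. -/
def QQ (M : Matroid (Fin n)) (I : Set (Fin n)) : Set (Fin n) :=
  {w | w ∈ I ∧ ∃ x, x ∉ I ∧ M.IsCircuit (insert x (I \ {w}))}

/-- The matroids with ground set `Fin n` and rank at most `s`. -/
def LowU (n s : ℕ) : Set (Matroid (Fin n)) := {T | T.E = Set.univ ∧ T.eRank ≤ s}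

/-! ## Counting families of sets -/

/-- CNT: `∑_{i ≤ a} C(N,i) ≤ (3B)^a` if `N ≤ aB`. -/
def Stmt_CNT : Prop := ∀ (α : Type) (U : Set α) (a B : ℕ), U.Finite → 1 ≤ B → U.ncard ≤ a * B →
  {𝒮 : Set α | 𝒮 ⊆ U ∧ 𝒮.ncard ≤ a}.ncard ≤ (3 * B) ^ a

/-- CODE: a partition-like family is coded by a small family of `(s+1)`-sets. -/
def Stmt_CODE : Prop := ∀ n s : ℕ, 2 ≤ s →
  ∃ code : Set (Set (Fin n)) → Set (Set (Fin n)),
    (∀ 𝒲, IsPart s 𝒲 → (∀ Y ∈ code 𝒲, Y.ncard = s + 1) ∧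
      (s + 1) * (code 𝒲).ncard ≤ n.choose s ∧
      ((∀ P ∈ 𝒲, P.ncard ≤ s + 2) → (code 𝒲).ncard ≤ 2 * 𝒲.ncard)) ∧
    ∀ 𝒲 𝒲', IsPart s 𝒲 → IsPart s 𝒲' → code 𝒲 = code 𝒲' → 𝒲 = 𝒲'

/-! ## Encoding a matroid -/

/-- E1. -/
def Stmt_E1 : Prop := ∀ (n s : ℕ) (M : Matroid (Fin n)) (𝓖 : Set (Set (Fin n))),
  M.E = Set.univ → IsPart s (Bk M s 𝓖)

/-- E2: the truncation to rank `s + 1` is determined. -/
def Stmt_E2 : Prop := ∀ (n s Λ : ℕ) (M M' : Matroid (Fin n)), M.E = Set.univ → M'.E = Set.univ →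
  trunc M s = trunc M' s → Lg Λ M s = Lg Λ M' s → Lg Λ M (s + 1) = Lg Λ M' (s + 1) →
  Bk M s (Coh Λ M s) = Bk M' s (Coh Λ M' s) → trunc M (s + 1) = trunc M' (s + 1)

/-- E3: a matroid of rank `s + 1` is determined. -/
def Stmt_E3 : Prop := ∀ (n s : ℕ) (𝓖 : Set (Set (Fin n))) (M M' : Matroid (Fin n)),
  M.E = Set.univ → M'.E = Set.univ → M.eRank = (s + 1 : ℕ) → M'.eRank = (s + 1 : ℕ) →
  (∀ P ∈ 𝓖, IsHyp M s P) → (∀ P ∈ 𝓖, IsHyp M' s P) →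
  trunc M s = trunc M' s → Bk M s 𝓖 = Bk M' s 𝓖 → M = M'

/-- E4: restructuring, every set `𝒞` of matroids with room at least `n g`. -/
def Stmt_E4 : Prop := ∀ (n s g : ℕ) (𝓖 : Matroid (Fin n) → Set (Set (Fin n)))
    (𝒞 : Set (Matroid (Fin n))), s + 1 ≤ n →
  (∀ M ∈ 𝒞, M.E = Set.univ ∧ M.eRank = (s + 1 : ℕ)) → (∀ M ∈ 𝒞, ∀ P ∈ 𝓖 M, IsHyp M s P) →
  (∀ M ∈ 𝒞, n * g ≤ (Rm (trunc M s) s (𝓖 M)).ncard) →
  𝒞.ncard * 2 ^ g ≤
    ((fun M => (trunc M s, 𝓖 M)) '' 𝒞).ncard * (Nat.card (RankMatroid n (s + 1)) + 1)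

/-! ## Lists of large flats -/

/-- CLA: a flat with few bases is the one-step closure of a basis and `s₀` elements. -/
def Stmt_CLA : Prop := ∀ (n j c s₀ : ℕ) (M : Matroid (Fin n)) (G I : Set (Fin n)),
  M.E = Set.univ → 1 ≤ j → IsHyp M j G → M.Indep I → I.ncard = j → I ⊆ G →
  (∃ f : Fin s₀ → Fin n, G = cl1 M c (I ∪ Set.range f)) ∨ (c + 1) ^ s₀ ≤ s₀ ! * bn M j G

/-- LIST: codes for the sets of large flats of rank `j`. -/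
def Stmt_LIST : Prop := ∀ n j c s₀ Λ : ℕ, 1 ≤ j → 1 ≤ Λ →
  ∃ (cd1 : Matroid (Fin n) → Set (Set (Fin n) × (Fin s₀ → Fin n)))
    (cd2 : Matroid (Fin n) → Set (Set (Fin n) × Set (Fin n))),
    (∀ M, M.E = Set.univ → (∀ p ∈ cd1 M, p.1.ncard = j) ∧ (∀ p ∈ cd2 M, p.1.ncard = j) ∧
      Λ * (cd1 M).ncard ≤ n.choose j ∧ (c + 1) ^ s₀ * (cd2 M).ncard ≤ s₀ ! * n.choose j) ∧
    ∀ M M', M.E = Set.univ → M'.E = Set.univ → trunc M c = trunc M' c → cd1 M = cd1 M' →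
      cd2 M = cd2 M' → Lg Λ M j = Lg Λ M' j

/-- The cost of the lists of rank `j`. -/
def LK (n Λ Λs j : ℕ) : ℕ :=
  (3 * (Λ * n ^ 30)) ^ (n.choose j / Λ + 1) * (3 * (Λs * 2 ^ n)) ^ (n.choose j / Λs + 1)

/-- LC: the number of values of `(f, Lg Λ · j)` if `f` determines the truncation to rank `c`. -/
def Stmt_LC : Prop := ∀ (n j c Λ Λs : ℕ) (β : Type) (f : Matroid (Fin n) → β)
    (𝒞 : Set (Matroid (Fin n))), 1 ≤ n → 1 ≤ j → 1 ≤ Λ → 1 ≤ Λs →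
  30 ! * Λs ≤ (c + 1) ^ 30 → (∀ M ∈ 𝒞, M.E = Set.univ) →
  (∀ M ∈ 𝒞, ∀ M' ∈ 𝒞, f M = f M' → trunc M c = trunc M' c) →
  ((fun M => (f M, Lg Λ M j)) '' 𝒞).ncard ≤ (f '' 𝒞).ncard * LK n Λ Λs j

/-- STEP: one level. -/
def Stmt_STEP : Prop := ∀ (n s c Λ Λs a B : ℕ) (𝒞 : Set (Matroid (Fin n))),
  1 ≤ n → 2 ≤ s → c ≤ s → 1 ≤ Λ → 1 ≤ Λs → 30 ! * Λs ≤ (c + 1) ^ 30 → 1 ≤ B →
  n.choose (s + 1) ≤ a * B → (∀ M ∈ 𝒞, M.E = Set.univ) →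
  (∀ M ∈ 𝒞, ∀ P ∈ NC Λ M s, (star M s P).ncard ≤ s + 2) →
  (∀ M ∈ 𝒞, 2 * (NC Λ M s).ncard ≤ a) →
  ((fun M => (trunc M (s + 1), Lg Λ M (s + 1))) '' 𝒞).ncard ≤
    ((fun M => (trunc M s, Lg Λ M s)) '' 𝒞).ncard * (LK n Λ Λs (s + 1) * (3 * B) ^ a)

/-! ## The number of matroids of lower rank, crude bound -/

/-- LOW. -/
def Stmt_LOW : Prop := ∀ n s : ℕ,
  (LowU n (s + 1)).ncard ≤ (LowU n s).ncard * {𝒲 : Set (Set (Fin n)) | IsPart s 𝒲}.ncard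

/-- CRUDE. -/
def Stmt_CRUDE : Prop := ∀ n s L E : ℕ, 2 ≤ s → 4 * s ≤ n → n < 2 ^ L →
  2 * n.choose (s - 1) ≤ s * E → (LowU n s).ncard ≤ 2 ^ ((L + 4) * (E + 2 * n + 2))

/-! ## Structure -/

/-- N1: blocks of non-large flats are small. -/
def Stmt_N1 : Prop := ∀ (n s Λ : ℕ) (M : Matroid (Fin n)) (P : Set (Fin n)), M.E = Set.univ →
  IsHyp M s P → HasGen M s P → bn M s P < Λ → Λ ≤ (s + 3).choose 3 →
  (star M s P).ncard ≤ s + 2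

/-- P38: non-large flats have at most `3n/8` elements. -/
def Stmt_P38 : Prop := ∀ (n s j Λ ρ : ℕ) (M : Matroid (Fin n)) (P : Set (Fin n)),
  M.E = Set.univ → 8 * (s + 1) ≤ n → 8 * ρ ≤ s + 1 → Λ ≤ 2 ^ ρ → j ≤ s → IsHyp M j P →
  bn M j P < Λ → 8 * (Rm (trunc M s) s ∅).ncard < n.choose (s + 1) → 8 * P.ncard ≤ 3 * n

/-- PAIRS. -/
def Stmt_PAIRS : Prop := ∀ (n s : ℕ) (M : Matroid (Fin n)) (G F D B : Set (Fin n)) (y : Fin n),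
  M.E = Set.univ → IsHyp M (s + 1) G → IsHyp M s F → F ⊆ G → D ⊆ F → D.ncard = s + 1 →
  M.IsCircuit D → y ∈ G → y ∉ F → M.Indep B → B ⊆ G \ F → B.Nonempty →
  G \ F ⊆ M.closure B → 20 * B.ncard ≤ s →
  (∀ W ⊆ D, 2 * W.ncard ≤ s + 1 → ¬ (G \ F ⊆ M.closure (insert y W))) →
  (s + 1) ^ 2 ≤ 5 * {T : Set (Fin n) | M.Indep T ∧ T.ncard = s + 1 ∧ T ⊆ G ∧ T \ F = B}.ncard

/-- MULT. -/
def Stmt_MULT : Prop := ∀ (n s Λ ρ m : ℕ) (M : Matroid (Fin n)) (G F D : Set (Fin n))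
    (y : Fin n), M.E = Set.univ → IsHyp M (s + 1) G → IsHyp M s F → F ⊆ G → D ⊆ F →
  D.ncard = s + 1 → M.IsCircuit D → y ∈ G → y ∉ F → bn M (s + 1) G < Λ → Λ ≤ 2 ^ ρ →
  20 * ρ ≤ s → 5 * Λ ≤ (s + 1) ^ 2 * m.choose 2 → 5 ≤ s →
  s + 1 ≤ 2 * {x | x ∈ D ∧ (QQ M (insert y (D \ {x}))).ncard ≤ ρ + m}.ncard

/-- NCN. -/
def Stmt_NCN : Prop := ∀ (n s Λ q : ℕ) (M : Matroid (Fin n)), M.E = Set.univ →
  (∀ P ∈ NC Λ M s, 8 * P.ncard ≤ 3 * n) →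
  (∀ (F D : Set (Fin n)) (y : Fin n), IsHyp M s F → D ⊆ F → D.ncard = s + 1 →
    M.IsCircuit D → y ∉ F → bn M (s + 1) (M.closure (insert y F)) < Λ →
    s + 1 ≤ 2 * {x | x ∈ D ∧ (QQ M (insert y (D \ {x}))).ncard ≤ q}.ncard) →
  (s + 1) * n * (NCn Λ M s).ncard ≤ 4 * q * n.choose (s + 1)

/-- NCG. -/
def Stmt_NCG : Prop := ∀ (n s Λ : ℕ) (M : Matroid (Fin n)), M.E = Set.univ →
  (∀ P ∈ NC Λ M s, 8 * P.ncard ≤ 3 * n) →
  n * (NCg Λ M s).ncard ≤ 8 * (Gi Λ M (s + 1) (s + 1)).ncard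

/-- GX. -/
def Stmt_GX : Prop := ∀ (n s j Λ : ℕ) (M : Matroid (Fin n)), M.E = Set.univ → 1 ≤ j → j ≤ s →
  6 * (s + 1) ≤ n →
  4 * (Gi Λ M j j).ncard * n.choose (s + 1) ≤
    25 * (Rm (trunc M s) s (Lg Λ M s)).ncard * n.choose j

/-- FLAT: the closure of an independent `s`-set is small. -/
def Stmt_FLAT : Prop := ∀ (n s Λ a κ : ℕ) (M : Matroid (Fin n)) (I : Set (Fin n)),
  M.E = Set.univ → κ * (Rm (trunc M s) s ∅).ncard < n.choose (s + 1) →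
  (∀ τ, 2 ^ τ < Λ → τ ! * Λ ≤ a ^ τ ∨ (τ + 2 ≤ s + 1 ∧
    n.choose (s + 1) ≤ κ * (a.choose (τ + 2) * (n - a).choose (s + 1 - (τ + 2))))) →
  M.Indep I → I.ncard = s → bn M s (M.closure I) < Λ → (M.closure I \ I).ncard < 2 * a

/-- FIN: many circuits. -/
def Stmt_FIN : Prop := ∀ (n s Λ e : ℕ) (M : RankMatroid n (s + 1)),
  (∀ I, M.1.Indep I → I.ncard = s → bn M.1 s (M.1.closure I) < Λ →
    (M.1.closure I \ I).ncard ≤ e) →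
  (s + 1) * n.choose (s + 2) ≤ (s + 1) * numCircuits M.1 +
    (s + 1) * (n - (s + 1)) * (Rm (trunc M.1 s) s (Lg Λ M.1 s)).ncard +
    n.choose s * ((s + 1) * e ^ 2 + e * (n - s))

end Pool.Agent.Work.MP_f3d170_co_helper44
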