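import Mathlib
import Pool.Agent.Work.MP_f3d170_co_helper44.Interface

/-!
# MP_f3d170_co, near-linear threshold: numerical interface
-/

set_option autoImplicit false

open Nat

namespace Pool.Agent.Work.MP_f3d170_co_helper44

/-- `h = 6(k+1)`. -/
def pH (k : ℕ) : ℕ := 6 * (k + 1)

/-- `L`, `n < 2^L`. -/
def pL (n : ℕ) : ℕ := Nat.log 2 n + 1

/-- `Λ`: a flat of rank `< r` is large if it has at least `Λ` bases. -/
def pLam (k r n : ℕ) : ℕ := 10 ^ 4 * pH k * r ^ 2 * pL n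

/-- `Λs`. -/
def pLs (r : ℕ) : ℕ := (r / 2 + 1) ^ 30 / 30 !

/-- `m`. -/
def pm (k n : ℕ) : ℕ := 9 * 10 ^ 5 * pH k * pL n

/-- `Q = 16 q h + 100`, `q = 3 L + m`. -/
def pQ (k n : ℕ) : ℕ := 16 * (3 * pL n + pm k n) * pH k + 100

/-- `a`: closures of independent `(r-1)`-sets have fewer than `2a` additional elements. -/
def pa (k r n : ℕ) : ℕ := n / (16 * pH k * r)

/-- Bound for the number of code sets of level `j`, `v = |Rm|`. -/
def ac (k r n v j : ℕ) : ℕ := pQ k n * v * n.choose j / (n * n.choose r) + 1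

/-- The range of the parameters. -/
def Rg (k C r n : ℕ) : Prop :=
  C ≤ r ∧ C * r * Nat.log 2 r ^ 3 ≤ n ∧ n ≤ (2 * r * (k + 1)) ^ 24

/-- Bound for the number of values of `(trunc M (r-1), Lg Λ M (r-1))` for the matroids with
`|Rm| = v`. -/
def sideB (k r n v : ℕ) : ℕ :=
  2 ^ ((pL n + 4) * (2 * n.choose (r / 2) / (r / 2 + 1) + 1 + 2 * n + 2)) *
    (∏ j ∈ Finset.Icc (r / 2 + 1) (r - 1), LK n (pLam k r n) (pLs r) j) *
    ∏ j ∈ Finset.Icc (r / 2 + 2) (r - 1), (3 * n ^ 3) ^ ac k r n v j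

/-- The simple numerical facts. -/
structure NumA (k r n : ℕ) : Prop where
  h8 : 8 * r ≤ n
  hk : 3 * (k + 1) * r ≤ n
  hr : 12 ≤ r
  lam3 : pLam k r n ≤ (r / 2 + 4).choose 3
  lam2 : pLam k r n ≤ 2 ^ (3 * pL n)
  h60 : 60 * pL n ≤ r / 2 + 1
  lamm : 5 * pLam k r n ≤ (r / 2 + 2) ^ 2 * (pm k n).choose 2
  hLs : 1 ≤ pLs r
  hn2 : (r + 1) * pH k ≤ n ^ 2

/-- NUMA. -/
def Stmt_NUMA : Prop := ∀ k, 1 ≤ k → ∃ C, ∀ r n, Rg k C r n → NumA k r n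

/-- NUMF: first pass. -/
def Stmt_NUMF : Prop := ∀ k, 1 ≤ k → ∃ C, ∀ r n, Rg k C r n →
  2 * pH k * n ! * 2 ^ ((pL n + 4) * (2 * n.choose (r - 2) / (r - 1) + 1 + 2 * n + 2)) ≤
    2 ^ (n.choose r / (8 * n))

/-- NUMS: second pass. -/
def Stmt_NUMS : Prop := ∀ k, 1 ≤ k → ∃ C, ∀ r n, Rg k C r n → ∀ v,
  n.choose r ≤ (r + 1) * pH k * v → v ≤ n.choose r →
  2 * pH k * n ! * (n.choose r + 1) * sideB k r n v ≤ 2 ^ (v / n)

/-- NUML: numerical hypothesis of FLAT. -/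
def Stmt_NUML : Prop := ∀ k, 1 ≤ k → ∃ C, ∀ r n, Rg k C r n → ∀ τ, 2 ^ τ < pLam k r n →
  τ ! * pLam k r n ≤ pa k r n ^ τ ∨ (τ + 2 ≤ r ∧
    n.choose r ≤ ((r + 1) * pH k) *
      ((pa k r n).choose (τ + 2) * (n - pa k r n).choose (r - (τ + 2))))

/-- NUMC: the circuits. -/
def Stmt_NUMC : Prop := ∀ k, 1 ≤ k → ∃ C, ∀ r n, Rg k C r n → ∀ v,
  (r + 1) * pH k * v < n.choose r →
  3 * (k + 1) * (r * (n - r) * v +
      n.choose (r - 1) * (r * (2 * pa k r n) ^ 2 + 2 * pa k r n * (n - (r - 1)))) ≤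
    r * n.choose (r + 1)

end Pool.Agent.Work.MP_f3d170_co_helper44
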