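import Mathlib
import Pool.Agent.Work.MP_f3d170_co_helper44.Interface2

/-!
# MP_f3d170_co, numerical basics (helper13)
-/

set_option autoImplicit false

open Nat

namespace Pool.Agent.Work.MP_f3d170_co_helper44.h13

/-- `P r n` holds in the range, for a large constant. -/
def Ev (k : ℕ) (P : ℕ → ℕ → Prop) : Prop := ∃ C, ∀ r n, Rg k C r n → P r n

lemma Rg_mono {k C C' r n : ℕ} (h : Rg k C r n) (hC : C' ≤ C) : Rg k C' r n := by
  obtain ⟨h1, h2, h3⟩ := h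
  refine ⟨hC.trans h1, le_trans ?_ h2, h3⟩
  gcongr

lemma Ev_and {k : ℕ} {P Q : ℕ → ℕ → Prop} (hP : Ev k P) (hQ : Ev k Q) :
    Ev k (fun r n => P r n ∧ Q r n) := by
  obtain ⟨C, hC⟩ := hP
  obtain ⟨D, hD⟩ := hQ
  exact ⟨max C D, fun r n h =>
    ⟨hC r n (Rg_mono h (le_max_left _ _)), hD r n (Rg_mono h (le_max_right _ _))⟩⟩

lemma Ev_imp {k : ℕ} {P Q : ℕ → ℕ → Prop} (hP : Ev k P) (h : ∀ r n, P r n → Q r n) : Ev k Q := by
  obtain ⟨C, hC⟩ := hP
  exact ⟨C, fun r n hr => h r n (hC r n hr)⟩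

lemma ev_r (k D : ℕ) : Ev k (fun r _ => D ≤ r) := ⟨D, fun _ _ h => h.1⟩

lemma ev_up (k : ℕ) : Ev k (fun r n => n ≤ (2 * r * (k + 1)) ^ 24) := ⟨0, fun _ _ h => h.2.2⟩

lemma log_poly (D p : ℕ) : ∃ N, ∀ l, N ≤ l → D * l ^ p ≤ 2 ^ l := by
  have h := tendsto_pow_const_div_const_pow_of_one_lt p (by norm_num : (1 : ℝ) < 2)
  have h2 : ∀ᶠ n : ℕ in Filter.atTop, (n : ℝ) ^ p / 2 ^ n < 1 / ((D : ℝ) + 1) :=
    h.eventually (eventually_lt_nhds (by positivity))
  obtain ⟨N, hN⟩ := Filter.eventually_atTop.1 h2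
  refine ⟨N, fun l hl => ?_⟩
  have h3 := hN l hl
  rw [div_lt_div_iff₀ (by positivity) (by positivity)] at h3
  have h4 : (D : ℝ) * (l : ℝ) ^ p ≤ (2 : ℝ) ^ l := by
    have : 0 ≤ (l : ℝ) ^ p := by positivity
    nlinarith
  exact_mod_cast h4

lemma L_le {k r n : ℕ} (hr : 2 ≤ r) (hn : n ≤ (2 * r * (k + 1)) ^ 24) :
    pL n ≤ 24 * (k + 4) * Nat.log 2 r := by
  set l := Nat.log 2 r with hl
  have hl1 : 1 ≤ l := by
    rw [hl]
    exact (Nat.le_log_iff_pow_le (by norm_num) (by omega)).2 (by simpa using hr)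
  have h1 : r < 2 ^ (l + 1) := Nat.lt_pow_succ_log_self (by norm_num) r
  have h2 : k + 1 < 2 ^ (k + 1) := Nat.lt_two_pow_self
  have h3 : 2 * r * (k + 1) < 2 ^ (l + 3 + k) := by
    calc 2 * r * (k + 1) < 2 * 2 ^ (l + 1) * 2 ^ (k + 1) := by
          have : 2 * r < 2 * 2 ^ (l + 1) := by omega
          exact Nat.mul_lt_mul_of_lt_of_le this h2.le (by positivity)
      _ = 2 ^ (l + 3 + k) := by ring
  have h4 : n < 2 ^ (24 * (l + 3 + k)) := by
    calc n ≤ (2 * r * (k + 1)) ^ 24 := hn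
      _ < (2 ^ (l + 3 + k)) ^ 24 := Nat.pow_lt_pow_left h3 (by norm_num)
      _ = _ := by rw [← pow_mul]; ring_nf
  have h5 : pL n ≤ 24 * (l + 3 + k) := by
    unfold pL
    by_cases hn0 : n = 0
    · subst hn0
      simp
      omega
    · have := Nat.log_lt_of_lt_pow hn0 h4
      omega
  calc pL n ≤ 24 * (l + 3 + k) := h5
    _ ≤ 24 * ((k + 4) * l) := by
        apply Nat.mul_le_mul_left
        nlinarith
    _ = _ := by ring

lemma ev_poly (k D p : ℕ) : Ev k (fun r n => D * pL n ^ p ≤ r) := by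
  obtain ⟨N, hN⟩ := log_poly (D * (24 * (k + 4)) ^ p) p
  refine ⟨max 2 (2 ^ N), fun r n h => ?_⟩
  have hr2 : 2 ≤ r := (le_max_left _ _).trans h.1
  have hrN : 2 ^ N ≤ r := (le_max_right _ _).trans h.1
  have h1 := L_le hr2 h.2.2
  have h2 : N ≤ Nat.log 2 r := (Nat.le_log_iff_pow_le (by norm_num) (by omega)).2 hrN
  calc D * pL n ^ p ≤ D * (24 * (k + 4) * Nat.log 2 r) ^ p := by gcongr
    _ = D * (24 * (k + 4)) ^ p * Nat.log 2 r ^ p := by rw [mul_pow]; ring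
    _ ≤ 2 ^ Nat.log 2 r := hN _ h2
    _ ≤ r := Nat.pow_log_le_self 2 (by omega)

lemma ev_lin (k D : ℕ) : Ev k (fun r n => D * r * pL n ^ 3 ≤ n) := by
  refine ⟨max 2 (D * (24 * (k + 4)) ^ 3), fun r n h => ?_⟩
  have hr2 : 2 ≤ r := (le_max_left _ _).trans h.1
  have h1 := L_le hr2 h.2.2
  calc D * r * pL n ^ 3 ≤ D * r * (24 * (k + 4) * Nat.log 2 r) ^ 3 := by gcongr
    _ = (D * (24 * (k + 4)) ^ 3) * r * Nat.log 2 r ^ 3 := by ring
    _ ≤ (max 2 (D * (24 * (k + 4)) ^ 3)) * r * Nat.log 2 r ^ 3 := by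
        gcongr
        exact le_max_right _ _
    _ ≤ n := h.2.1

lemma lt_L (n : ℕ) : n < 2 ^ pL n := Nat.lt_pow_succ_log_self (by norm_num) n

lemma one_le_L (n : ℕ) : 1 ≤ pL n := by unfold pL; omega

/-! ### Binomial coefficients -/

lemma choose_double {n j : ℕ} (h : 3 * j + 2 ≤ n) : 2 * n.choose j ≤ n.choose (j + 1) := by
  have h1 := Nat.choose_succ_right_eq n j
  have h2 : 2 * (j + 1) ≤ n - j := by omega
  have h3 : n.choose j * (2 * (j + 1)) ≤ n.choose (j + 1) * (j + 1) := by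
    rw [h1]
    exact Nat.mul_le_mul_left _ h2
  have h4 : (2 * n.choose j) * (j + 1) ≤ n.choose (j + 1) * (j + 1) := by
    calc (2 * n.choose j) * (j + 1) = n.choose j * (2 * (j + 1)) := by ring
      _ ≤ _ := h3
  exact Nat.le_of_mul_le_mul_right h4 (by omega)

lemma choose_pow {n i j : ℕ} (hij : i ≤ j) (h : 3 * j ≤ n) :
    2 ^ (j - i) * n.choose i ≤ n.choose j := by
  obtain ⟨d, rfl⟩ := Nat.exists_eq_add_of_le hij
  rw [Nat.add_sub_cancel_left]
  induction d with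
  | zero => simp
  | succ d ih =>
    have h1 := ih (by omega) (by omega)
    have h2 := choose_double (n := n) (j := i + d) (by omega)
    calc 2 ^ (d + 1) * n.choose i = 2 * (2 ^ d * n.choose i) := by ring
      _ ≤ 2 * n.choose (i + d) := by gcongr
      _ ≤ n.choose (i + (d + 1)) := h2

lemma choose_mono' {n i j : ℕ} (hij : i ≤ j) (h : 3 * j ≤ n) : n.choose i ≤ n.choose j := by
  have h1 := choose_pow hij h
  have h2 : 1 ≤ 2 ^ (j - i) := Nat.one_le_two_pow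
  nlinarith [Nat.zero_le (n.choose i)]

lemma choose_sum {n m : ℕ} (h : 3 * m ≤ n) :
    ∑ j ∈ Finset.range (m + 1), n.choose j ≤ 2 * n.choose m := by
  induction m with
  | zero => simp
  | succ m ih =>
    rw [Finset.sum_range_succ]
    have h1 := ih (by omega)
    have h2 := choose_double (n := n) (j := m) (by omega)
    omega

lemma choose_sum_Icc {n a m : ℕ} (h : 3 * m ≤ n) :
    ∑ j ∈ Finset.Icc a m, n.choose j ≤ 2 * n.choose m := by
  refine le_trans (Finset.sum_le_sum_of_subset ?_) (choose_sum h)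
  intro x hx
  rw [Finset.mem_Icc] at hx
  rw [Finset.mem_range]
  omega

/-- `N_{r-1} n ≤ 2 r N_r`. -/
lemma choose_pred {n r : ℕ} (hr : 1 ≤ r) (h : 2 * r ≤ n) :
    n.choose (r - 1) * n ≤ 2 * r * n.choose r := by
  obtain ⟨s, rfl⟩ : ∃ s, r = s + 1 := ⟨r - 1, by omega⟩
  have h1 := Nat.choose_succ_right_eq n s
  have h2 : n ≤ 2 * (n - s) := by omega
  calc n.choose (s + 1 - 1) * n = n.choose s * n := by simp
    _ ≤ n.choose s * (2 * (n - s)) := Nat.mul_le_mul_left _ h2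
    _ = 2 * (n.choose s * (n - s)) := by ring
    _ = 2 * (n.choose (s + 1) * (s + 1)) := by rw [← h1]
    _ = _ := by ring

/-- `n^5 ≤ 3840 N_r`. -/
lemma choose_five {n r : ℕ} (hr : 5 ≤ r) (h : 3 * r ≤ n) : n ^ 5 ≤ 3840 * n.choose r := by
  have h1 : (n + 1 - 5) ^ 5 ≤ n.descFactorial 5 := Nat.pow_sub_le_descFactorial n 5
  rw [Nat.descFactorial_eq_factorial_mul_choose] at h1
  have h2 : n ≤ 2 * (n + 1 - 5) := by omega
  have h3 : n.choose 5 ≤ n.choose r := choose_mono' hr h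
  have h5 : (5 ! : ℕ) = 120 := by decide
  rw [h5] at h1
  calc n ^ 5 ≤ (2 * (n + 1 - 5)) ^ 5 := Nat.pow_le_pow_left h2 5
    _ = 32 * (n + 1 - 5) ^ 5 := by ring
    _ ≤ 32 * (120 * n.choose 5) := Nat.mul_le_mul_left _ h1
    _ ≤ 32 * (120 * n.choose r) := by gcongr
    _ = _ := by ring

end Pool.Agent.Work.MP_f3d170_co_helper44.h13
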