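import Mathlib
import Pool.Agent.Work.MP_f3d170_co_helper44.TNUMB13

/-!
# MP_f3d170_co, block NUMF (helper13)
-/

set_option autoImplicit false

open Nat

namespace Pool.Agent.Work.MP_f3d170_co_helper44

open h13

lemma fact_le_pow_L (n : ℕ) : n ! ≤ 2 ^ (n * pL n) := by
  calc n ! ≤ n ^ n := Nat.factorial_le_pow n
    _ ≤ (2 ^ pL n) ^ n := Nat.pow_le_pow_left (lt_L n).le n
    _ = 2 ^ (n * pL n) := by rw [← pow_mul, mul_comm]

lemma numf_core {h n r L N X Y Z : ℕ} (hr : 5 ≤ r) (hL : 1 ≤ L)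
    (hh : 2 * h ≤ n) (hn : 1658880 * r * L ≤ n) (hN : n ^ 5 ≤ 3840 * N)
    (hY : Y * n ≤ 2 * r * N) (hZ : Z * n ≤ 2 * (r - 1) * Y) (hX : (r - 1) * X ≤ 2 * Z) :
    (2 * h + n * L + (L + 4) * (X + 1 + 2 * n + 2)) * (8 * n) ≤ N := by
  have hn1 : 1 ≤ n := by
    have : 1 ≤ 1658880 * r * L := Nat.one_le_iff_ne_zero.2 (by positivity)
    omega
  have ha : X * n ^ 2 ≤ 8 * r * N := by
    have h1 : (r - 1) * (X * n ^ 2) ≤ (r - 1) * (8 * r * N) := by
      calc (r - 1) * (X * n ^ 2) = ((r - 1) * X) * n ^ 2 := by ring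
        _ ≤ (2 * Z) * n ^ 2 := Nat.mul_le_mul_right _ hX
        _ = 2 * (Z * n) * n := by ring
        _ ≤ 2 * (2 * (r - 1) * Y) * n := by gcongr
        _ = 4 * (r - 1) * (Y * n) := by ring
        _ ≤ 4 * (r - 1) * (2 * r * N) := by gcongr
        _ = _ := by ring
    exact Nat.le_of_mul_le_mul_left h1 (by omega)
  have hb : 16 * n * ((L + 4) * X) ≤ N := by
    have h1 : n * (16 * n * ((L + 4) * X)) ≤ n * N := by
      calc n * (16 * n * ((L + 4) * X)) = 16 * (L + 4) * (X * n ^ 2) := by ring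
        _ ≤ 16 * (L + 4) * (8 * r * N) := by gcongr
        _ ≤ 16 * (5 * L) * (8 * r * N) := by gcongr; omega
        _ = (640 * r * L) * N := by ring
        _ ≤ (1658880 * r * L) * N := by gcongr; norm_num
        _ ≤ n * N := Nat.mul_le_mul_right _ hn
    exact Nat.le_of_mul_le_mul_left h1 hn1
  have hc : 16 * n * (2 * h + n * L + (L + 4) * (1 + 2 * n + 2)) ≤ N := by
    have h1 : 2 * h + n * L + (L + 4) * (1 + 2 * n + 2) ≤ 27 * n * L := by
      have e1 : (L + 4) ≤ 5 * L := by omega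
      have e2 : 1 + 2 * n + 2 ≤ 5 * n := by omega
      have e3 : (L + 4) * (1 + 2 * n + 2) ≤ 5 * L * (5 * n) := Nat.mul_le_mul e1 e2
      have e4 : n ≤ n * L := Nat.le_mul_of_pos_right _ hL
      nlinarith
    have h2 : 3840 * (16 * n * (27 * n * L)) ≤ n ^ 5 := by
      have e1 : 1658880 * L ≤ n := by
        calc 1658880 * L = 1658880 * 1 * L := by ring
          _ ≤ 1658880 * r * L := by gcongr; omega
          _ ≤ n := hn
      have e2 : n * 1 ≤ n * n ^ 2 := Nat.mul_le_mul_left _ (Nat.one_le_pow _ _ hn1)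
      calc 3840 * (16 * n * (27 * n * L)) = n ^ 2 * (1658880 * L) := by ring
        _ ≤ n ^ 2 * n := Nat.mul_le_mul_left _ e1
        _ = n ^ 2 * (n * 1) := by ring
        _ ≤ n ^ 2 * (n * n ^ 2) := Nat.mul_le_mul_left _ e2
        _ = n ^ 5 := by ring
    have h3 : 3840 * (16 * n * (27 * n * L)) ≤ 3840 * N := h2.trans hN
    have h4 : 16 * n * (27 * n * L) ≤ N := by omega
    exact (Nat.mul_le_mul_left _ h1).trans h4
  have hd : 2 * ((2 * h + n * L + (L + 4) * (X + 1 + 2 * n + 2)) * (8 * n)) =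
      16 * n * ((L + 4) * X) + 16 * n * (2 * h + n * L + (L + 4) * (1 + 2 * n + 2)) := by ring
  omega

/-- NUMF: first pass. -/
theorem stmt_NUMF : Stmt_NUMF := by
  intro k _
  have E : Ev k (fun r n => 5 ≤ r ∧ 1658880 * r * pL n ^ 3 ≤ n ∧ 2 * pH k ≤ r) :=
    Ev_and (ev_r k 5) (Ev_and (ev_lin k _) (ev_r k _))
  obtain ⟨C, hC⟩ := E
  refine ⟨C, fun r n hR => ?_⟩
  obtain ⟨hr, hn3, hh⟩ := hC r n hR
  have hL := one_le_L n
  set L := pL n with hLdef
  have hn : 1658880 * r * L ≤ n := by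
    refine le_trans ?_ hn3
    have : L ^ 1 ≤ L ^ 3 := Nat.pow_le_pow_right hL (by norm_num)
    rw [pow_one] at this
    exact Nat.mul_le_mul_left _ this
  have hrn : 1658880 * r ≤ n := le_trans (Nat.le_mul_of_pos_right _ hL) hn
  have h3r : 3 * r ≤ n := by omega
  have hN := choose_five hr h3r
  have hY := choose_pred (n := n) (r := r) (by omega) (by omega)
  have hZ := choose_pred (n := n) (r := r - 1) (by omega) (by omega)
  have hX := Nat.mul_div_le (2 * n.choose (r - 2)) (r - 1)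
  have hr2 : r - 1 - 1 = r - 2 := by omega
  rw [hr2] at hZ
  have key := numf_core (h := pH k) (n := n) (r := r) (L := L) hr hL (by omega) hn hN hY hZ hX
  have hle := (Nat.le_div_iff_mul_le (by omega : 0 < 8 * n)).2 key
  calc 2 * pH k * n ! * 2 ^ ((L + 4) * (2 * n.choose (r - 2) / (r - 1) + 1 + 2 * n + 2))
      ≤ 2 ^ (2 * pH k) * 2 ^ (n * L) *
        2 ^ ((L + 4) * (2 * n.choose (r - 2) / (r - 1) + 1 + 2 * n + 2)) := by
        have e1 : 2 * pH k ≤ 2 ^ (2 * pH k) := Nat.lt_two_pow_self.le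
        have e2 : n ! ≤ 2 ^ (n * L) := fact_le_pow_L n
        gcongr
    _ = 2 ^ (2 * pH k + n * L +
        (L + 4) * (2 * n.choose (r - 2) / (r - 1) + 1 + 2 * n + 2)) := by
        rw [← pow_add, ← pow_add]
    _ ≤ 2 ^ (n.choose r / (8 * n)) := Nat.pow_le_pow_right (by norm_num) hle

end Pool.Agent.Work.MP_f3d170_co_helper44
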