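import Pool.Agent.Work.MP_f3d170_co_helper44.Interface

set_option autoImplicit false

open Set

namespace Pool.Agent.Work.MP_f3d170_co_helper44

lemma cnt_exp (B : ℕ) (hB : 1 ≤ B) : (1 + 1 / (B : ℝ)) ^ B ≤ 3 := by
  have hB' : (0 : ℝ) < B := by exact_mod_cast hB
  have h1 : 1 + 1 / (B : ℝ) ≤ Real.exp (1 / (B : ℝ)) := by
    rw [add_comm]
    exact Real.add_one_le_exp _
  have h2 : (1 + 1 / (B : ℝ)) ^ B ≤ (Real.exp (1 / (B : ℝ))) ^ B :=
    pow_le_pow_left₀ (by positivity) h1 B
  have h3 : (Real.exp (1 / (B : ℝ))) ^ B = Real.exp 1 := by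
    rw [← Real.exp_nat_mul]
    congr 1
    field_simp
  have h4 : Real.exp 1 < 3 := Real.exp_one_lt_three
  rw [h3] at h2
  exact h2.trans h4.le

theorem stmt_CNT : Stmt_CNT := by
  intro α U a B hU hB hcard
  classical
  have hB' : (0 : ℝ) < B := by exact_mod_cast hB
  set F := hU.toFinset with hF
  have hFc : F.card = U.ncard := (Set.ncard_eq_toFinset_card U hU).symm
  have hset : {𝒮 : Set α | 𝒮 ⊆ U ∧ 𝒮.ncard ≤ a} =
      (fun S : Finset α => (S : Set α)) '' ((F.powerset.filter (fun S => S.card ≤ a) : Finset (Finset α)) : Set (Finset α)) := by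
    ext 𝒮
    constructor
    · rintro ⟨h1, h2⟩
      have hfin : 𝒮.Finite := hU.subset h1
      refine ⟨hfin.toFinset, ?_, by simp⟩
      simp only [Finset.coe_filter, Finset.mem_powerset, Set.mem_setOf_eq]
      refine ⟨?_, ?_⟩
      · intro x hx
        rw [hF]
        simp only [Set.Finite.mem_toFinset] at hx ⊢
        exact h1 hx
      · rw [← Set.ncard_eq_toFinset_card 𝒮 hfin]
        exact h2
    · rintro ⟨S, hS, rfl⟩
      simp only [Finset.coe_filter, Finset.mem_powerset, Set.mem_setOf_eq] at hS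
      refine ⟨?_, ?_⟩
      · intro x hx
        have := hS.1 (Finset.mem_coe.1 hx)
        rw [hF] at this
        simpa using this
      · rw [Set.ncard_coe_finset]
        exact hS.2
  rw [hset, Set.ncard_image_of_injective _ Finset.coe_injective, Set.ncard_coe_finset]
  have hx0 : (0 : ℝ) ≤ 1 / (B : ℝ) := by positivity
  have hx1 : 1 / (B : ℝ) ≤ 1 := by
    rw [div_le_one hB']
    exact_mod_cast hB
  have key : ((F.powerset.filter (fun S => S.card ≤ a)).card : ℝ) * (1 / (B : ℝ)) ^ a ≤ 3 ^ a := by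
    calc ((F.powerset.filter (fun S => S.card ≤ a)).card : ℝ) * (1 / (B : ℝ)) ^ a
        = ∑ S ∈ F.powerset.filter (fun S => S.card ≤ a), (1 / (B : ℝ)) ^ a := by
          rw [Finset.sum_const, nsmul_eq_mul]
      _ ≤ ∑ S ∈ F.powerset.filter (fun S => S.card ≤ a), (1 / (B : ℝ)) ^ S.card := by
          apply Finset.sum_le_sum
          intro S hS
          exact pow_le_pow_of_le_one hx0 hx1 (Finset.mem_filter.1 hS).2
      _ ≤ ∑ S ∈ F.powerset, (1 / (B : ℝ)) ^ S.card := by
          apply Finset.sum_le_sum_of_subset_of_nonneg (Finset.filter_subset _ _)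
          intro S _ _
          positivity
      _ = ∑ S ∈ F.powerset, (1 / (B : ℝ)) ^ S.card * 1 ^ (F.card - S.card) := by
          simp
      _ = (1 / (B : ℝ) + 1) ^ F.card := Finset.sum_pow_mul_eq_add_pow _ _ F
      _ ≤ (1 / (B : ℝ) + 1) ^ (a * B) := by
          apply pow_le_pow_right₀ (by linarith)
          rw [hFc]
          exact hcard
      _ = ((1 + 1 / (B : ℝ)) ^ B) ^ a := by
          rw [mul_comm a B, pow_mul, add_comm]
      _ ≤ 3 ^ a := pow_le_pow_left₀ (by positivity) (cnt_exp B hB) a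
  have key2 : ((F.powerset.filter (fun S => S.card ≤ a)).card : ℝ) ≤ (3 * (B : ℝ)) ^ a := by
    rw [mul_pow]
    have h5 : (0 : ℝ) < (B : ℝ) ^ a := by positivity
    rw [one_div, inv_pow, mul_inv_le_iff₀ h5] at key
    exact key
  exact_mod_cast key2

end Pool.Agent.Work.MP_f3d170_co_helper44
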