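import Mathlib
import Pool.Agent.Work.MP_f3d170_co_helper44.Interface2

set_option autoImplicit false

open Set Matroid Nat
open Pool.Agent.Work.MP_f3d170_co_h45
open Pool.Agent.Work.MP_f3d170_co_helper60
open Pool.Agent.Work.MP_f3d170_co_helper60b

namespace Pool.Agent.Work.MP_f3d170_co_helper44

variable {n : ℕ}

/-! ### Small facts -/

lemma ncard_level (n j : ℕ) : {X : Set (Fin n) | X.ncard = j}.ncard = n.choose j := by
  classical
  have h1 : {X : Set (Fin n) | X.ncard = j} =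
      ((fun s : Finset (Fin n) => (s : Set (Fin n))) '' (Finset.powersetCard j Finset.univ : Finset (Finset (Fin n)))) := by
    ext X
    simp only [Set.mem_setOf_eq, Set.mem_image, Finset.mem_coe, Finset.mem_powersetCard,
      Finset.subset_univ, true_and]
    constructor
    · intro h
      refine ⟨X.toFinset, ?_, by simp⟩
      rw [← h, Set.ncard_eq_toFinset_card']
    · rintro ⟨s, hs, rfl⟩
      rw [Set.ncard_coe_finset, hs]
  rw [h1, Set.ncard_image_of_injective _ Finset.coe_injective, Set.ncard_coe_finset,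
    Finset.card_powersetCard, Finset.card_univ, Fintype.card_fin]

lemma trunc_E (M : Matroid (Fin n)) (s : ℕ) : (trunc M s).E = M.E := rfl

lemma trunc_trunc44 (M : Matroid (Fin n)) {c s : ℕ} (h : c ≤ s) :
    trunc (trunc M s) c = trunc M c := by
  refine Matroid.ext_indep (by rw [trunc_E, trunc_E, trunc_E]) ?_
  intro I _
  rw [trunc_indep, trunc_indep, trunc_indep]
  constructor
  · rintro ⟨⟨h1, h2⟩, h3⟩; exact ⟨h1, h3⟩
  · rintro ⟨h1, h2⟩; exact ⟨⟨h1, h2.trans h⟩, h2⟩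

lemma lowU_finite (n s : ℕ) : (LowU n s).Finite := Set.toFinite _

lemma trunc_mem_lowU {M : Matroid (Fin n)} (hE : M.E = Set.univ) (s : ℕ) :
    trunc M s ∈ LowU n s := ⟨by rw [trunc_E, hE], trunc_eRank M⟩

lemma rm_mono (T : Matroid (Fin n)) (s : ℕ) (𝓖 : Set (Set (Fin n))) :
    (Rm T s ∅).ncard ≤ (Rm T s 𝓖).ncard := by
  refine Set.ncard_le_ncard ?_ (Set.toFinite _)
  rintro X ⟨h1, h2⟩
  refine ⟨h1, Or.inr ?_⟩
  rcases h2 with ⟨G, hG, _⟩ | h2
  · exact absurd hG (Set.notMem_empty _)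
  · exact h2

lemma rm_le (T : Matroid (Fin n)) (s : ℕ) (𝓖 : Set (Set (Fin n))) :
    (Rm T s 𝓖).ncard ≤ n.choose (s + 1) := by
  rw [← ncard_level]
  exact Set.ncard_le_ncard (fun X hX => hX.1) (Set.toFinite _)

/-! ### SIDE -/

/-- The number of values of `(trunc, Lg)`. -/
theorem side_bound (hLC : Stmt_LC) (hSTEP : Stmt_STEP) {c Λ Λs B : ℕ} (A : ℕ → ℕ)
    (𝒞 : Set (Matroid (Fin n))) (hn : 1 ≤ n) (hc : 1 ≤ c) (hΛ : 1 ≤ Λ) (hΛs : 1 ≤ Λs)
    (hs : 30 ! * Λs ≤ (c + 1) ^ 30) (hB : 1 ≤ B) (hE : ∀ M ∈ 𝒞, M.E = Set.univ) (d : ℕ)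
    (hA : ∀ j, c + 2 ≤ j → j ≤ c + 1 + d → n.choose j ≤ A j * B)
    (hN : ∀ M ∈ 𝒞, ∀ s, c + 1 ≤ s → s + 1 ≤ c + 1 + d →
      (∀ P ∈ NC Λ M s, (star M s P).ncard ≤ s + 2) ∧ 2 * (NC Λ M s).ncard ≤ A (s + 1)) :
    ((fun M => (trunc M (c + 1 + d), Lg Λ M (c + 1 + d))) '' 𝒞).ncard ≤
      (LowU n (c + 1)).ncard * (∏ j ∈ Finset.Icc (c + 1) (c + 1 + d), LK n Λ Λs j) *
        ∏ j ∈ Finset.Icc (c + 2) (c + 1 + d), (3 * B) ^ A j := by
  induction d with
  | zero =>
    have h1 := hLC n (c + 1) c Λ Λs (Matroid (Fin n)) (fun M => trunc M (c + 1)) 𝒞 hn (by omega)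
      hΛ hΛs hs hE (by
        intro M _ M' _ h
        have h' : trunc M (c + 1) = trunc M' (c + 1) := h
        rw [← trunc_trunc44 M (Nat.le_succ c), ← trunc_trunc44 M' (Nat.le_succ c)]
        show trunc (trunc M (c + 1)) c = trunc (trunc M' (c + 1)) c
        rw [h'])
    have h2 : ((fun M => trunc M (c + 1)) '' 𝒞).ncard ≤ (LowU n (c + 1)).ncard := by
      refine Set.ncard_le_ncard ?_ (lowU_finite _ _)
      rintro _ ⟨M, hM, rfl⟩
      exact trunc_mem_lowU (hE M hM) _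
    have e1 : Finset.Icc (c + 2) (c + 1 + 0) = ∅ := by
      apply Finset.Icc_eq_empty; omega
    have e2 : Finset.Icc (c + 1) (c + 1 + 0) = {c + 1} := by simp
    rw [e1, e2, Finset.prod_empty, Finset.prod_singleton, mul_one]
    exact h1.trans (Nat.mul_le_mul_right _ h2)
  | succ d ih =>
    have ih' := ih (fun j h1 h2 => hA j h1 (by omega))
      (fun M hM s h1 h2 => hN M hM s h1 (by omega))
    have h1 := hSTEP n (c + 1 + d) c Λ Λs (A (c + 1 + d + 1)) B 𝒞 hn (by omega) (by omega) hΛ hΛs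
      hs hB (hA _ (by omega) (by omega)) hE (fun M hM => (hN M hM _ (by omega) (by omega)).1)
      (fun M hM => (hN M hM _ (by omega) (by omega)).2)
    have e1 : ∏ j ∈ Finset.Icc (c + 1) (c + 1 + (d + 1)), LK n Λ Λs j =
        (∏ j ∈ Finset.Icc (c + 1) (c + 1 + d), LK n Λ Λs j) * LK n Λ Λs (c + 1 + d + 1) := by
      rw [← add_assoc, ← Finset.prod_Icc_succ_top (by omega)]
    have e2 : ∏ j ∈ Finset.Icc (c + 2) (c + 1 + (d + 1)), (3 * B) ^ A j =
        (∏ j ∈ Finset.Icc (c + 2) (c + 1 + d), (3 * B) ^ A j) *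
          (3 * B) ^ A (c + 1 + d + 1) := by
      rw [← add_assoc, ← Finset.prod_Icc_succ_top (by omega)]
    rw [e1, e2]
    refine h1.trans ((Nat.mul_le_mul_right _ ih').trans (le_of_eq ?_))
    ring

/-! ### The bound for `NC` -/

lemma choose3_mono {a b : ℕ} (h : a ≤ b) : a.choose 3 ≤ b.choose 3 := Nat.choose_le_choose 3 h

lemma nc_le (Λ : ℕ) (M : Matroid (Fin n)) (s : ℕ) :
    (NC Λ M s).ncard ≤ (NCn Λ M s).ncard + (NCg Λ M s).ncard := by
  refine le_trans (Set.ncard_le_ncard ?_ (Set.toFinite _)) (Set.ncard_union_le _ _)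
  intro P hP
  by_cases h : ∀ G ∈ Lg Λ M (s + 1), P ⊆ G → 2 * G.ncard ≤ n
  · exact Or.inl ⟨hP, h⟩
  · push Not at h
    obtain ⟨G, h1, h2, h3⟩ := h
    exact Or.inr ⟨hP, G, h1, h2, h3⟩

/-- The arithmetic of the bound for `NC`. -/
lemma nc_arith {n N Nj j r h q v x y g : ℕ} (hn : 1 ≤ n) (hN : 1 ≤ N) (hj : 1 ≤ j)
    (hjr : r + 1 ≤ 2 * j) (h1 : j * n * x ≤ 4 * q * Nj) (h2 : n * y ≤ 8 * g)
    (h3 : 4 * g * N ≤ 25 * v * Nj) (hv : N ≤ (r + 1) * h * v) :
    2 * (x + y) ≤ (16 * q * h + 100) * v * Nj / (n * N) := by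
  rw [Nat.le_div_iff_mul_le (by positivity)]
  have h4 : j * (n * N * x) ≤ j * (8 * q * h * v * Nj) := by
    calc j * (n * N * x) = (j * n * x) * N := by ring
      _ ≤ (4 * q * Nj) * N := Nat.mul_le_mul_right _ h1
      _ ≤ (4 * q * Nj) * ((r + 1) * h * v) := Nat.mul_le_mul_left _ hv
      _ ≤ (4 * q * Nj) * ((2 * j) * h * v) := by gcongr
      _ = j * (8 * q * h * v * Nj) := by ring
  have h5 := Nat.le_of_mul_le_mul_left h4 (by omega)
  have h6 : n * N * y ≤ 50 * v * Nj := by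
    have : n * N * y ≤ 8 * g * N := by
      calc n * N * y = (n * y) * N := by ring
        _ ≤ _ := Nat.mul_le_mul_right _ h2
    nlinarith
  nlinarith

theorem nc_bound (hN1 : Stmt_N1) (hP38 : Stmt_P38) (hMULT : Stmt_MULT) (hNCN : Stmt_NCN)
    (hNCG : Stmt_NCG) (hGX : Stmt_GX) {k s' : ℕ} (hA : NumA k (s' + 1) n) (M : Matroid (Fin n))
    (hE : M.E = Set.univ)
    (h8 : 8 * (Rm (trunc M s') s' ∅).ncard < n.choose (s' + 1))
    (hv : n.choose (s' + 1) ≤ (s' + 1 + 1) * pH k *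
      (Rm (trunc M s') s' (Lg (pLam k (s' + 1) n) M s')).ncard) (s : ℕ)
    (hs1 : (s' + 1) / 2 + 1 ≤ s) (hs2 : s + 1 ≤ s') :
    (∀ P ∈ NC (pLam k (s' + 1) n) M s, (star M s P).ncard ≤ s + 2) ∧
      2 * (NC (pLam k (s' + 1) n) M s).ncard ≤
        ac k (s' + 1) n (Rm (trunc M s') s' (Lg (pLam k (s' + 1) n) M s')).ncard (s + 1) := by
  set Λ := pLam k (s' + 1) n with hΛ
  have a1 := hA.h8
  have a2 := hA.hr
  have a3 := hA.lam3
  have a4 := hA.lam2
  have a5 := hA.h60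
  have a6 := hA.lamm
  have hnl : ∀ P ∈ NC Λ M s, IsHyp M s P ∧ HasGen M s P ∧ bn M s P < Λ := by
    rintro P ⟨h1, h2, h3⟩
    refine ⟨h1, h2, ?_⟩
    by_contra hcon
    exact h3 (Or.inl ⟨h1, not_lt.1 hcon⟩)
  have h38 : ∀ P ∈ NC Λ M s, 8 * P.ncard ≤ 3 * n := by
    intro P hP
    obtain ⟨h1, h2, h3⟩ := hnl P hP
    exact hP38 n s' s Λ (3 * pL n) M P hE a1 (by omega) a4 (by omega) h1 h3 h8
  refine ⟨?_, ?_⟩
  · intro P hP
    obtain ⟨h1, h2, h3⟩ := hnl P hP
    exact hN1 n s Λ M P hE h1 h2 h3 (a3.trans (choose3_mono (by omega)))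
  · have hx := hNCN n s Λ (3 * pL n + pm k n) M hE h38 (by
      intro F D y hF hDF hDc hD hy hb
      have hFG : F ⊆ M.closure (insert y F) :=
        (Set.subset_insert _ _).trans (M.subset_closure _ (by rw [hE]; exact Set.subset_univ _))
      have hyG : y ∈ M.closure (insert y F) :=
        M.subset_closure _ (by rw [hE]; exact Set.subset_univ _) (Set.mem_insert _ _)
      have hG : IsHyp M (s + 1) (M.closure (insert y F)) := by
        apply closure_isHyp
        have hyF : y ∉ M.closure F := by rw [hF.1]; exact hy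
        have hyE : y ∈ M.E \ M.closure F := ⟨by rw [hE]; trivial, hyF⟩
        have h1 : M.eRk (insert y F) = M.eRk F + 1 := Matroid.eRk_insert_eq_add_one hyE
        have h2 : M.eRk F = (s : ℕ) := by rw [← coe_rk, hF.2]
        rw [h2, ← coe_rk] at h1
        exact_mod_cast h1
      refine hMULT n s Λ (3 * pL n) (pm k n) M _ F D y hE hG hF hFG hDF hDc hD hyG hy hb a4
        (by omega) ?_ (by omega)
      refine a6.trans (Nat.mul_le_mul_right _ (Nat.pow_le_pow_left (by omega) 2)))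
    have hy := hNCG n s Λ M hE h38
    have hg := hGX n s' (s + 1) Λ M hE (by omega) hs2 (by omega)
    have hle := nc_le Λ M s
    have hN : 1 ≤ n.choose (s' + 1) := Nat.choose_pos (by omega)
    have h9 := nc_arith (n := n) (N := n.choose (s' + 1)) (Nj := n.choose (s + 1)) (j := s + 1)
      (r := s' + 1) (h := pH k) (q := 3 * pL n + pm k n) (by omega) hN (by omega) (by omega)
      hx hy hg hv
    unfold ac pQ
    omega

end Pool.Agent.Work.MP_f3d170_co_helper44
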