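import Mathlib
import Pool.Agent.Work.MP_f3d170_co_helper44.Assembly

set_option autoImplicit false

open Set Matroid Nat
open Pool.Agent.Work.MP_f3d170_co_h45
open Pool.Agent.Work.MP_f3d170_co_helper60
open Pool.Agent.Work.MP_f3d170_co_helper60b

namespace Pool.Agent.Work.MP_f3d170_co_helper44

variable {n : ℕ}

/-! ### First pass -/

/-- The matroids with many sets of rank at most `s - 1`. -/
def At0 (n s : ℕ) : Set (Matroid (Fin n)) :=
  {M | (M.E = Set.univ ∧ M.eRank = (s + 1 : ℕ)) ∧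
    n.choose (s + 1) ≤ 8 * (Rm (trunc M s) s ∅).ncard}

theorem at0_rare (hE4 : Stmt_E4) (hCR : Stmt_CRUDE) {k s : ℕ} (hA : NumA k (s + 1) n)
    (hF : 2 * pH k * n ! *
      2 ^ ((pL n + 4) * (2 * n.choose (s + 1 - 2) / (s + 1 - 1) + 1 + 2 * n + 2)) ≤
        2 ^ (n.choose (s + 1) / (8 * n))) :
    pH k * n ! * (At0 n s).ncard ≤ Nat.card (RankMatroid n (s + 1)) := by
  have a1 := hA.h8
  have a2 := hA.hr
  set m := Nat.card (RankMatroid n (s + 1)) with hm
  have hm1 : 1 ≤ m := by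
    have : Nonempty (RankMatroid n (s + 1)) := nonempty_rankMatroid (by omega)
    exact Nat.card_pos
  set g := n.choose (s + 1) / (8 * n) with hg
  have hng : ∀ M ∈ At0 n s, n * g ≤ (Rm (trunc M s) s ((fun _ => ∅ :
      Matroid (Fin n) → Set (Set (Fin n))) M)).ncard := by
    intro M hM
    have h1 : 8 * n * g ≤ n.choose (s + 1) := Nat.mul_div_le _ _
    have h2 := hM.2
    show n * g ≤ (Rm (trunc M s) s ∅).ncard
    nlinarith
  have h1 := hE4 n s g (fun _ => ∅) (At0 n s) (by omega) (fun M hM => hM.1)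
    (fun M _ P hP => absurd hP (Set.notMem_empty _)) hng
  have h2 : ((fun M => (trunc M s, (∅ : Set (Set (Fin n))))) '' (At0 n s)).ncard ≤
      (LowU n s).ncard := by
    refine Set.ncard_le_ncard_of_injOn (fun p => p.1) ?_ ?_ (lowU_finite _ _)
    · rintro _ ⟨M, hM, rfl⟩
      exact trunc_mem_lowU hM.1.1 s
    · rintro _ ⟨M, hM, rfl⟩ _ ⟨M', hM', rfl⟩ h
      simp only at h ⊢
      rw [h]
  have h3 : (LowU n s).ncard ≤ 2 ^ ((pL n + 4) * (2 * n.choose (s + 1 - 2) / (s + 1 - 1) + 1 +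
      2 * n + 2)) := by
    have hL : n < 2 ^ pL n := Nat.lt_pow_succ_log_self (by norm_num) n
    have := hCR n s (pL n) (2 * n.choose (s + 1 - 2) / (s + 1 - 1) + 1) (by omega) (by omega) hL
      (by
        have e1 : s + 1 - 2 = s - 1 := by omega
        have e2 : s + 1 - 1 = s := by omega
        rw [e1, e2]
        have := Nat.lt_mul_div_succ (2 * n.choose (s - 1)) (by omega : 0 < s)
        omega)
    exact this
  set X := 2 ^ ((pL n + 4) * (2 * n.choose (s + 1 - 2) / (s + 1 - 1) + 1 + 2 * n + 2)) with hX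
  have h4 : (pH k * n ! * (At0 n s).ncard) * 2 ^ g ≤ m * 2 ^ g := by
    calc (pH k * n ! * (At0 n s).ncard) * 2 ^ g
        = pH k * n ! * ((At0 n s).ncard * 2 ^ g) := by ring
      _ ≤ pH k * n ! * (((fun M => (trunc M s, (∅ : Set (Set (Fin n))))) '' (At0 n s)).ncard *
          (m + 1)) := Nat.mul_le_mul_left _ h1
      _ ≤ pH k * n ! * (X * (m + 1)) :=
          Nat.mul_le_mul_left _ (Nat.mul_le_mul_right _ (h2.trans h3))
      _ ≤ pH k * n ! * (X * (2 * m)) := by gcongr; omega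
      _ = m * (2 * pH k * n ! * X) := by ring
      _ ≤ m * 2 ^ g := Nat.mul_le_mul_left _ hF
  exact Nat.le_of_mul_le_mul_right h4 (by positivity)

/-! ### Second pass -/

/-- The matroids with few sets of rank at most `s - 1` and with `|Rm| = v`. -/
def At1 (k n s v : ℕ) : Set (Matroid (Fin n)) :=
  {M | (M.E = Set.univ ∧ M.eRank = (s + 1 : ℕ)) ∧
    8 * (Rm (trunc M s) s ∅).ncard < n.choose (s + 1) ∧
    (Rm (trunc M s) s (Lg (pLam k (s + 1) n) M s)).ncard = v}

lemma pLs_spec (r : ℕ) : 30 ! * pLs r ≤ (r / 2 + 1) ^ 30 := by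
  unfold pLs
  exact Nat.mul_div_le _ _

lemma level_ac {k s v j : ℕ} (hA : NumA k (s + 1) n)
    (hv1 : n.choose (s + 1) ≤ (s + 1 + 1) * pH k * v) (hNr : 1 ≤ n.choose (s + 1)) :
    n.choose j ≤ ac k (s + 1) n v j * n ^ 3 := by
  have a1 := hA.h8
  have h3 := hA.hn2
  have h4 : 1 ≤ pQ k n := by unfold pQ; omega
  have h2 : n.choose j * (n * n.choose (s + 1)) ≤
      (pQ k n * v * n.choose j) * n ^ 3 := by
    calc n.choose j * (n * n.choose (s + 1))
        ≤ n.choose j * (n * ((s + 1 + 1) * pH k * v)) :=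
          Nat.mul_le_mul_left _ (Nat.mul_le_mul_left _ hv1)
      _ ≤ n.choose j * (n * (n ^ 2 * v)) :=
          Nat.mul_le_mul_left _ (Nat.mul_le_mul_left _ (Nat.mul_le_mul_right _ h3))
      _ = (1 * v * n.choose j) * n ^ 3 := by ring
      _ ≤ _ := by
          refine Nat.mul_le_mul_right _ (Nat.mul_le_mul_right _ (Nat.mul_le_mul_right _ h4))
  have hpos : 0 < n * n.choose (s + 1) := Nat.mul_pos (by omega) hNr
  have h5 := Nat.lt_mul_div_succ (pQ k n * v * n.choose j) hpos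
  have h6 : n.choose j * (n * n.choose (s + 1)) ≤
      (ac k (s + 1) n v j * n ^ 3) * (n * n.choose (s + 1)) := by
    unfold ac
    calc n.choose j * (n * n.choose (s + 1)) ≤ (pQ k n * v * n.choose j) * n ^ 3 := h2
      _ ≤ ((n * n.choose (s + 1)) *
          (pQ k n * v * n.choose j / (n * n.choose (s + 1)) + 1)) * n ^ 3 :=
          Nat.mul_le_mul_right _ h5.le
      _ = _ := by ring
  exact Nat.le_of_mul_le_mul_right h6 hpos

lemma lowU_half (hCR : Stmt_CRUDE) {r : ℕ} (h8 : 8 * r ≤ n) (hr : 12 ≤ r) :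
    (LowU n (r / 2 + 1)).ncard ≤ 2 ^ ((pL n + 4) *
      (2 * n.choose (r / 2) / (r / 2 + 1) + 1 + 2 * n + 2)) := by
  have hL : n < 2 ^ pL n := Nat.lt_pow_succ_log_self (by norm_num) n
  refine hCR n (r / 2 + 1) (pL n) (2 * n.choose (r / 2) / (r / 2 + 1) + 1) (by omega)
    (by omega) hL ?_
  rw [Nat.add_sub_cancel]
  have := Nat.lt_mul_div_succ (2 * n.choose (r / 2)) (by omega : 0 < r / 2 + 1)
  omega

/-- SIDE for the class `At1`. -/
theorem at1_side (hCR : Stmt_CRUDE) (hLC : Stmt_LC) (hSTEP : Stmt_STEP)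
    (hN1 : Stmt_N1) (hP38 : Stmt_P38) (hMULT : Stmt_MULT) (hNCN : Stmt_NCN)
    (hNCG : Stmt_NCG) (hGX : Stmt_GX) {k s v : ℕ} (hA : NumA k (s + 1) n)
    (hv1 : n.choose (s + 1) ≤ (s + 1 + 1) * pH k * v) :
    ((fun M => (trunc M s, Lg (pLam k (s + 1) n) M s)) '' (At1 k n s v)).ncard ≤
      sideB k (s + 1) n v := by
  have a1 := hA.h8
  have a2 := hA.hr
  have hΛ1 : 1 ≤ pLam k (s + 1) n := by
    unfold pLam pH pL
    exact Nat.succ_le_of_lt (by positivity)
  have hNr : 1 ≤ n.choose (s + 1) := Nat.choose_pos (by omega)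
  have hNC : ∀ M ∈ At1 k n s v, ∀ s₁, (s + 1) / 2 + 1 ≤ s₁ → s₁ + 1 ≤ s →
      (∀ P ∈ NC (pLam k (s + 1) n) M s₁, (star M s₁ P).ncard ≤ s₁ + 2) ∧
        2 * (NC (pLam k (s + 1) n) M s₁).ncard ≤ ac k (s + 1) n v (s₁ + 1) := by
    intro M hM s₁ hs₁ hs₂
    have hv' := hM.2.2
    have := nc_bound hN1 hP38 hMULT hNCN hNCG hGX hA M hM.1.1 hM.2.1
      (by rw [hv']; exact hv1) s₁ hs₁ hs₂
    rw [hv'] at this
    exact this
  have hac : ∀ j, n.choose j ≤ ac k (s + 1) n v j * n ^ 3 := fun j => level_ac hA hv1 hNr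
  have hlow := lowU_half hCR (n := n) (r := s + 1) a1 a2
  have hspec := pLs_spec (s + 1)
  have hLs := hA.hLs
  unfold sideB
  rw [show s + 1 - 1 = s by omega]
  generalize ac k (s + 1) n v = A at hNC hac ⊢
  generalize pLam k (s + 1) n = Λ at hNC hΛ1 ⊢
  generalize pLs (s + 1) = Λs at hspec hLs ⊢
  obtain ⟨d, hd⟩ : ∃ d, s = (s + 1) / 2 + 1 + d := ⟨s - ((s + 1) / 2 + 1), by omega⟩
  have hside := side_bound hLC hSTEP (n := n) (c := (s + 1) / 2) (Λ := Λ) (Λs := Λs)
    (B := n ^ 3) A (At1 k n s v) (by omega) (by omega) hΛ1 hLs hspec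
    (Nat.one_le_pow _ _ (by omega)) (fun M hM => hM.1.1) d (fun j _ _ => hac j)
    (fun M hM s₁ h1 h2 => hNC M hM s₁ h1 (by omega))
  rw [← hd] at hside
  refine hside.trans ?_
  exact Nat.mul_le_mul_right _ (Nat.mul_le_mul_right _ hlow)

theorem at1_rare (hE4 : Stmt_E4) {k s v : ℕ} (hA : NumA k (s + 1) n)
    (hside : ((fun M => (trunc M s, Lg (pLam k (s + 1) n) M s)) '' (At1 k n s v)).ncard ≤
      sideB k (s + 1) n v)
    (hS : 2 * pH k * n ! * (n.choose (s + 1) + 1) * sideB k (s + 1) n v ≤ 2 ^ (v / n)) :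
    pH k * n ! * (n.choose (s + 1) + 1) * (At1 k n s v).ncard ≤
      Nat.card (RankMatroid n (s + 1)) := by
  have a1 := hA.h8
  have a2 := hA.hr
  have hm1 : 1 ≤ Nat.card (RankMatroid n (s + 1)) := by
    have : Nonempty (RankMatroid n (s + 1)) := nonempty_rankMatroid (by omega)
    exact Nat.card_pos
  have h1 := hE4 n s (v / n) (fun M => Lg (pLam k (s + 1) n) M s) (At1 k n s v) (by omega)
    (fun M hM => hM.1) (fun M _ P hP => hP.1) (by
      intro M hM
      rw [hM.2.2]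
      exact Nat.mul_div_le _ _)
  generalize sideB k (s + 1) n v = X at hS hside
  generalize ((fun M => (trunc M s, Lg (pLam k (s + 1) n) M s)) '' (At1 k n s v)).ncard = Y
    at h1 hside
  generalize (At1 k n s v).ncard = Z at h1 ⊢
  generalize Nat.card (RankMatroid n (s + 1)) = m at h1 hm1 ⊢
  generalize n.choose (s + 1) = N at hS ⊢
  have hW : 0 < 2 ^ (v / n) := by positivity
  generalize 2 ^ (v / n) = W at h1 hS hW
  have h4 : (pH k * n ! * (N + 1) * Z) * W ≤ m * W := by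
    calc (pH k * n ! * (N + 1) * Z) * W
        = pH k * n ! * (N + 1) * (Z * W) := by ring
      _ ≤ pH k * n ! * (N + 1) * (Y * (m + 1)) := Nat.mul_le_mul_left _ h1
      _ ≤ pH k * n ! * (N + 1) * (X * (m + 1)) :=
          Nat.mul_le_mul_left _ (Nat.mul_le_mul_right _ hside)
      _ ≤ pH k * n ! * (N + 1) * (X * (2 * m)) := by
          refine Nat.mul_le_mul_left _ (Nat.mul_le_mul_left _ (by omega))
      _ = m * (2 * pH k * n ! * (N + 1) * X) := by ring
      _ ≤ m * W := Nat.mul_le_mul_left _ hS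
  exact Nat.le_of_mul_le_mul_right h4 hW

/-- The atypical matroids. -/
def AtS (k n s : ℕ) : Set (Matroid (Fin n)) :=
  {M | (M.E = Set.univ ∧ M.eRank = (s + 1 : ℕ)) ∧
    n.choose (s + 1) ≤ (s + 1 + 1) * pH k *
      (Rm (trunc M s) s (Lg (pLam k (s + 1) n) M s)).ncard}

/-- The atypical matroids are rare. -/
theorem atS_rare {k s : ℕ}
    (h0 : pH k * n ! * (At0 n s).ncard ≤ Nat.card (RankMatroid n (s + 1)))
    (h1 : ∀ v, n.choose (s + 1) ≤ (s + 1 + 1) * pH k * v → v ≤ n.choose (s + 1) →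
      pH k * n ! * (n.choose (s + 1) + 1) * (At1 k n s v).ncard ≤
        Nat.card (RankMatroid n (s + 1))) :
    3 * (k + 1) * n ! * (AtS k n s).ncard ≤ Nat.card (RankMatroid n (s + 1)) := by
  classical
  set m := Nat.card (RankMatroid n (s + 1)) with hm
  set N := n.choose (s + 1) with hN
  set V := (Finset.range (N + 1)).filter (fun v => N ≤ (s + 1 + 1) * pH k * v) with hV
  have hsub : AtS k n s ⊆ At0 n s ∪ ⋃ v ∈ V, At1 k n s v := by
    rintro M ⟨hM1, hM2⟩
    by_cases h8 : N ≤ 8 * (Rm (trunc M s) s ∅).ncard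
    · exact Or.inl ⟨hM1, h8⟩
    · right
      simp only [Set.mem_iUnion]
      refine ⟨(Rm (trunc M s) s (Lg (pLam k (s + 1) n) M s)).ncard, ?_, hM1, not_le.1 h8, rfl⟩
      rw [hV, Finset.mem_filter, Finset.mem_range]
      exact ⟨Nat.lt_succ_of_le (rm_le _ _ _), hM2⟩
  have hcard : (AtS k n s).ncard ≤ (At0 n s).ncard + ∑ v ∈ V, (At1 k n s v).ncard := by
    refine (Set.ncard_le_ncard hsub (Set.toFinite _)).trans
      ((Set.ncard_union_le _ _).trans (Nat.add_le_add_left ?_ _))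
    have hfin : ∀ W : Finset ℕ, (⋃ v ∈ W, At1 k n s v).ncard ≤ ∑ v ∈ W, (At1 k n s v).ncard := by
      intro W
      induction W using Finset.induction_on with
      | empty => simp
      | insert a W ha ih =>
        rw [Finset.sum_insert ha]
        have e : (⋃ v ∈ insert a W, At1 k n s v) = At1 k n s a ∪ ⋃ v ∈ W, At1 k n s v := by
          ext M; simp
        rw [e]
        exact (Set.ncard_union_le _ _).trans (Nat.add_le_add_left ih _)
    exact hfin V
  have h2 : (N + 1) * (pH k * n ! * ∑ v ∈ V, (At1 k n s v).ncard) ≤ (N + 1) * m := by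
    calc (N + 1) * (pH k * n ! * ∑ v ∈ V, (At1 k n s v).ncard)
        = ∑ v ∈ V, pH k * n ! * (N + 1) * (At1 k n s v).ncard := by
          rw [← Finset.mul_sum]; ring
      _ ≤ ∑ _v ∈ V, m := by
          refine Finset.sum_le_sum fun v hv => ?_
          rw [hV, Finset.mem_filter, Finset.mem_range] at hv
          exact h1 v hv.2 (Nat.le_of_lt_succ hv.1)
      _ = V.card * m := by rw [Finset.sum_const, smul_eq_mul]
      _ ≤ (N + 1) * m := by
          refine Nat.mul_le_mul_right _ ?_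
          refine (Finset.card_filter_le _ _).trans ?_
          rw [Finset.card_range]
  have h3 := Nat.le_of_mul_le_mul_left h2 (by omega)
  have h4 : 2 * (3 * (k + 1) * n ! * (AtS k n s).ncard) ≤ 2 * m := by
    calc 2 * (3 * (k + 1) * n ! * (AtS k n s).ncard) = pH k * n ! * (AtS k n s).ncard := by
          unfold pH; ring
      _ ≤ pH k * n ! * ((At0 n s).ncard + ∑ v ∈ V, (At1 k n s v).ncard) :=
          Nat.mul_le_mul_left _ hcard
      _ = pH k * n ! * (At0 n s).ncard + pH k * n ! * ∑ v ∈ V, (At1 k n s v).ncard := by ring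
      _ ≤ m + m := Nat.add_le_add h0 h3
      _ = 2 * m := by ring
  omega

end Pool.Agent.Work.MP_f3d170_co_helper44
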