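import Mathlib
import Pool.Agent.Work.MP_f3d170_co_helper44.Assembly2

set_option autoImplicit false

open Set Matroid Nat
open Pool.Agent.Work.MP_f3d170_co_h45
open Pool.Agent.Work.MP_f3d170_co_helper60
open Pool.Agent.Work.MP_f3d170_co_helper60b

namespace Pool.Agent.Work.MP_f3d170_co_helper44

variable {n : ℕ}

lemma numBases_le_choose {r : ℕ} (M : RankMatroid n r) : numBases M.1 ≤ n.choose r := by
  rw [← ncard_level]
  refine Set.ncard_le_ncard ?_ (Set.toFinite _)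
  intro B hB
  have h1 := (hB : M.1.IsBase B).encard_eq_eRank
  rw [M.2.2, ← (Set.toFinite B).cast_ncard_eq] at h1
  exact_mod_cast h1

/-- Typical matroids have almost all `(r+1)`-sets as circuits. -/
theorem typ_circ (hFLAT : Stmt_FLAT) (hFIN : Stmt_FIN) {k s : ℕ}
    (hL : ∀ τ, 2 ^ τ < pLam k (s + 1) n →
      τ ! * pLam k (s + 1) n ≤ pa k (s + 1) n ^ τ ∨ (τ + 2 ≤ s + 1 ∧
        n.choose (s + 1) ≤ ((s + 1 + 1) * pH k) *
          ((pa k (s + 1) n).choose (τ + 2) * (n - pa k (s + 1) n).choose (s + 1 - (τ + 2)))))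
    (hC : ∀ v, (s + 1 + 1) * pH k * v < n.choose (s + 1) →
      3 * (k + 1) * ((s + 1) * (n - (s + 1)) * v +
        n.choose (s + 1 - 1) * ((s + 1) * (2 * pa k (s + 1) n) ^ 2 +
          2 * pa k (s + 1) n * (n - (s + 1 - 1)))) ≤ (s + 1) * n.choose (s + 1 + 1))
    (M : RankMatroid n (s + 1))
    (hM : (s + 1 + 1) * pH k * (Rm (trunc M.1 s) s (Lg (pLam k (s + 1) n) M.1 s)).ncard <
      n.choose (s + 1)) :
    (3 * (k + 1)) * n.choose (s + 2) ≤ (3 * (k + 1)) * numCircuits M.1 + n.choose (s + 2) := by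
  have h1 := hFIN n s (pLam k (s + 1) n) (2 * pa k (s + 1) n) M (by
    intro I hI hIc hb
    refine (hFLAT n s (pLam k (s + 1) n) (pa k (s + 1) n) ((s + 1 + 1) * pH k) M.1 I M.2.1
      (lt_of_le_of_lt (Nat.mul_le_mul_left _ (rm_mono _ _ _)) hM) hL hI hIc hb).le)
  have h2 := hC _ hM
  rw [show s + 1 - 1 = s by omega] at h2
  generalize (Rm (trunc M.1 s) s (Lg (pLam k (s + 1) n) M.1 s)).ncard = v at h1 h2
  have e : s + 2 = s + 1 + 1 := rfl
  rw [e] at h1 ⊢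
  generalize n.choose (s + 1 + 1) = N at h1 h2 ⊢
  generalize numCircuits M.1 = c at h1 ⊢
  generalize hY : (s + 1) * (n - (s + 1)) * v +
        n.choose s * ((s + 1) * (2 * pa k (s + 1) n) ^ 2 +
          2 * pa k (s + 1) n * (n - s)) = Y at h2
  have h3 : (s + 1) * N ≤ (s + 1) * c + Y := by
    rw [← hY]
    omega
  have h4 : (s + 1) * ((3 * (k + 1)) * N) ≤ (s + 1) * ((3 * (k + 1)) * c + N) := by
    calc (s + 1) * ((3 * (k + 1)) * N) = (3 * (k + 1)) * ((s + 1) * N) := by ring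
      _ ≤ (3 * (k + 1)) * ((s + 1) * c + Y) := Nat.mul_le_mul_left _ h3
      _ = (s + 1) * ((3 * (k + 1)) * c) + 3 * (k + 1) * Y := by ring
      _ ≤ (s + 1) * ((3 * (k + 1)) * c) + (s + 1) * N := Nat.add_le_add_left h2 _
      _ = _ := by ring
  exact Nat.le_of_mul_le_mul_left h4 (by omega)

/-- Final arithmetic. -/
lemma fin_arith {k n r t g B C Nr N1 : ℕ} (hgt : g ≤ t) (hg : 3 * (k + 1) * g ≤ t)
    (hn : 3 * (k + 1) * r ≤ n) (hB : B ≤ t * Nr)
    (hC : (3 * (k + 1)) * ((t - g) * N1) ≤ (3 * (k + 1)) * C + (t - g) * N1)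
    (hN : (r + 1) * N1 = (n - r) * Nr) :
    k ^ 2 * (n * B) ≤ (k + 1) ^ 2 * ((r + 1) * C) := by
  -- pass to the rationals
  obtain ⟨d, hd⟩ : ∃ d, t = g + d := ⟨t - g, by omega⟩
  subst hd
  have hrn : r ≤ n := by nlinarith
  obtain ⟨w, rfl⟩ : ∃ w, n = r + w := ⟨n - r, by omega⟩
  rw [Nat.add_sub_cancel_left] at hC
  rw [Nat.add_sub_cancel_left] at hN
  have e1 : (3 * k + 2) * (d * N1) ≤ 3 * (k + 1) * C := by nlinarith
  have e2 : (3 * k + 2) * (g + d) ≤ 3 * (k + 1) * d := by nlinarith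
  have e3 : (3 * k + 2) * (r + w) ≤ 3 * (k + 1) * w := by nlinarith
  have e4 : (3 * (k + 1)) ^ 3 * k ^ 2 ≤ (3 * k + 2) ^ 3 * (k + 1) ^ 2 := by
    have : (3 * k + 2) ^ 3 * (k + 1) ^ 2 = (3 * (k + 1)) ^ 3 * k ^ 2 +
        (k + 1) ^ 2 * (27 * k ^ 2 + 36 * k + 8) := by ring
    omega
  have key : (3 * (k + 1)) ^ 3 * (k ^ 2 * ((r + w) * B)) ≤
      (3 * (k + 1)) ^ 3 * ((k + 1) ^ 2 * ((r + 1) * C)) := by
    calc (3 * (k + 1)) ^ 3 * (k ^ 2 * ((r + w) * B))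
        = ((3 * (k + 1)) ^ 3 * k ^ 2) * ((r + w) * B) := by ring
      _ ≤ ((3 * k + 2) ^ 3 * (k + 1) ^ 2) * ((r + w) * ((g + d) * Nr)) := by gcongr
      _ = (k + 1) ^ 2 * ((3 * k + 2) * (((3 * k + 2) * (r + w)) * ((3 * k + 2) * (g + d)) * Nr)) := by
          ring
      _ ≤ (k + 1) ^ 2 * ((3 * k + 2) * ((3 * (k + 1) * w) * (3 * (k + 1) * d) * Nr)) := by gcongr
      _ = (k + 1) ^ 2 * ((3 * (k + 1)) ^ 2 * ((3 * k + 2) * (d * (w * Nr)))) := by ring
      _ = (k + 1) ^ 2 * ((3 * (k + 1)) ^ 2 * ((3 * k + 2) * (d * ((r + 1) * N1)))) := by rw [hN]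
      _ = (k + 1) ^ 2 * ((3 * (k + 1)) ^ 2 * ((r + 1) * ((3 * k + 2) * (d * N1)))) := by ring
      _ ≤ (k + 1) ^ 2 * ((3 * (k + 1)) ^ 2 * ((r + 1) * (3 * (k + 1) * C))) := by gcongr
      _ = _ := by ring
  exact Nat.le_of_mul_le_mul_left key (by positivity)

/-- The ratio for one pair. -/
theorem ratio_of {k s : ℕ} (hA : NumA k (s + 1) n)
    (hrare : 3 * (k + 1) * n ! * (AtS k n s).ncard ≤ Nat.card (RankMatroid n (s + 1)))
    (htyp : ∀ M : RankMatroid n (s + 1),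
      (s + 1 + 1) * pH k * (Rm (trunc M.1 s) s (Lg (pLam k (s + 1) n) M.1 s)).ncard <
        n.choose (s + 1) →
      (3 * (k + 1)) * n.choose (s + 2) ≤ (3 * (k + 1)) * numCircuits M.1 + n.choose (s + 2))
    {𝒩 : Finset (RankMatroid n (s + 1))} (h : IsTransversal 𝒩) :
    k ^ 2 * (n * ∑ M ∈ 𝒩, numBases M.1) ≤
      (k + 1) ^ 2 * ((s + 1 + 1) * ∑ M ∈ 𝒩, numCircuits M.1) := by
  classical
  set 𝒢 := 𝒩.filter (fun M => n.choose (s + 1) ≤ (s + 1 + 1) * pH k *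
      (Rm (trunc M.1 s) s (Lg (pLam k (s + 1) n) M.1 s)).ncard) with h𝒢
  have h1 : 𝒢.card ≤ (AtS k n s).ncard := by
    rw [← Set.ncard_coe_finset]
    refine Set.ncard_le_ncard_of_injOn (fun M => M.1) ?_ ?_ (Set.toFinite _)
    · intro M hM
      have hM' : M ∈ 𝒢 := hM
      rw [h𝒢, Finset.mem_filter] at hM'
      exact ⟨M.2, hM'.2⟩
    · intro M _ M' _ hMM
      exact Subtype.ext hMM
  have h2 : 3 * (k + 1) * 𝒢.card ≤ 𝒩.card := by
    have h3 : (3 * (k + 1) * 𝒢.card) * n ! ≤ 𝒩.card * n ! := by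
      calc (3 * (k + 1) * 𝒢.card) * n ! = 3 * (k + 1) * n ! * 𝒢.card := by ring
        _ ≤ 3 * (k + 1) * n ! * (AtS k n s).ncard := Nat.mul_le_mul_left _ h1
        _ ≤ Nat.card (RankMatroid n (s + 1)) := hrare
        _ ≤ _ := card_rankMatroid_le h
    exact Nat.le_of_mul_le_mul_right h3 (Nat.factorial_pos n)
  set C := ∑ M ∈ 𝒩, numCircuits M.1 with hC
  set B := ∑ M ∈ 𝒩, numBases M.1 with hB
  have hle : 𝒢.card ≤ 𝒩.card := Finset.card_le_card (Finset.filter_subset _ _)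
  have hcard : 𝒩.card - 𝒢.card = (𝒩.filter (fun M => ¬ n.choose (s + 1) ≤ (s + 1 + 1) * pH k *
      (Rm (trunc M.1 s) s (Lg (pLam k (s + 1) n) M.1 s)).ncard)).card := by
    have h5 := Finset.card_filter_add_card_filter_not (s := 𝒩)
      (fun M => n.choose (s + 1) ≤ (s + 1 + 1) * pH k *
        (Rm (trunc M.1 s) s (Lg (pLam k (s + 1) n) M.1 s)).ncard)
    rw [← h𝒢] at h5
    omega
  have hCC : (3 * (k + 1)) * ((𝒩.card - 𝒢.card) * n.choose (s + 2)) ≤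
      (3 * (k + 1)) * C + (𝒩.card - 𝒢.card) * n.choose (s + 2) := by
    have h6 : ∑ _M ∈ 𝒩.filter (fun M => ¬ n.choose (s + 1) ≤ (s + 1 + 1) * pH k *
        (Rm (trunc M.1 s) s (Lg (pLam k (s + 1) n) M.1 s)).ncard),
          (3 * (k + 1)) * n.choose (s + 2) ≤
        ∑ M ∈ 𝒩.filter (fun M => ¬ n.choose (s + 1) ≤ (s + 1 + 1) * pH k *
          (Rm (trunc M.1 s) s (Lg (pLam k (s + 1) n) M.1 s)).ncard),
          ((3 * (k + 1)) * numCircuits M.1 + n.choose (s + 2)) := by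
      refine Finset.sum_le_sum ?_
      intro M hM
      rw [Finset.mem_filter] at hM
      exact htyp M (not_le.1 hM.2)
    rw [Finset.sum_const, Finset.sum_add_distrib, Finset.sum_const, ← hcard, smul_eq_mul,
      smul_eq_mul, ← Finset.mul_sum] at h6
    have h7 : ∑ M ∈ 𝒩.filter (fun M => ¬ n.choose (s + 1) ≤ (s + 1 + 1) * pH k *
          (Rm (trunc M.1 s) s (Lg (pLam k (s + 1) n) M.1 s)).ncard), numCircuits M.1 ≤ C :=
      Finset.sum_le_sum_of_subset (Finset.filter_subset _ _)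
    calc (3 * (k + 1)) * ((𝒩.card - 𝒢.card) * n.choose (s + 2))
        = (𝒩.card - 𝒢.card) * ((3 * (k + 1)) * n.choose (s + 2)) := by ring
      _ ≤ _ := h6
      _ ≤ _ := Nat.add_le_add_right (Nat.mul_le_mul_left _ h7) _
  have hBB : B ≤ 𝒩.card * n.choose (s + 1) := by
    rw [hB, ← smul_eq_mul, ← Finset.sum_const]
    exact Finset.sum_le_sum fun M _ => numBases_le_choose M
  have hNN : (s + 1 + 1) * n.choose (s + 2) = (n - (s + 1)) * n.choose (s + 1) := by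
    have := Nat.choose_succ_right_eq n (s + 1)
    rw [mul_comm, this, mul_comm]
  exact fin_arith (k := k) (n := n) (r := s + 1) hle h2 hA.hk hBB hCC hNN

end Pool.Agent.Work.MP_f3d170_co_helper44
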