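import Mathlib
import Pool.Agent.Work.MP_f3d170_co_helper44.Assembly3

set_option autoImplicit false

open Set Matroid Nat
open Pool.Agent.Work.MP_f3d170_co_h45
open Pool.Agent.Work.MP_f3d170_co_helper60
open Pool.Agent.Work.MP_f3d170_co_helper60b

namespace Pool.Agent.Work.MP_f3d170_co_helper44

lemma Rg.mono {k C C' r n : ℕ} (h : C ≤ C') (hR : Rg k C' r n) : Rg k C r n := by
  obtain ⟨h1, h2, h3⟩ := hR
  refine ⟨h.trans h1, le_trans ?_ h2, h3⟩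
  exact Nat.mul_le_mul_right _ (Nat.mul_le_mul_right _ h)

/-- The ratio for all pairs in the range. -/
theorem ratio_all (hE4 : Stmt_E4) (hCR : Stmt_CRUDE) (hLC : Stmt_LC) (hSTEP : Stmt_STEP)
    (hN1 : Stmt_N1) (hP38 : Stmt_P38) (hMULT : Stmt_MULT) (hNCN : Stmt_NCN)
    (hNCG : Stmt_NCG) (hGX : Stmt_GX) (hFLAT : Stmt_FLAT) (hFIN : Stmt_FIN)
    (hA : Stmt_NUMA) (hF : Stmt_NUMF) (hS : Stmt_NUMS) (hL : Stmt_NUML) (hC : Stmt_NUMC)
    (k : ℕ) (hk : 1 ≤ k) : ∃ C, ∀ r n, Rg k C r n →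
      ∀ 𝒩 : Finset (RankMatroid n r), IsTransversal 𝒩 →
        k ^ 2 * (n * ∑ M ∈ 𝒩, numBases M.1) ≤
          (k + 1) ^ 2 * ((r + 1) * ∑ M ∈ 𝒩, numCircuits M.1) := by
  obtain ⟨C1, h1⟩ := hA k hk
  obtain ⟨C2, h2⟩ := hF k hk
  obtain ⟨C3, h3⟩ := hS k hk
  obtain ⟨C4, h4⟩ := hL k hk
  obtain ⟨C5, h5⟩ := hC k hk
  refine ⟨C1 + C2 + C3 + C4 + C5 + 1, ?_⟩
  intro r n hR 𝒩 h𝒩
  have hr : 1 ≤ r := by have := hR.1; omega
  obtain ⟨s, rfl⟩ : ∃ s, r = s + 1 := ⟨r - 1, by omega⟩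
  have g1 := h1 _ _ (hR.mono (by omega))
  have g2 := h2 _ _ (hR.mono (by omega))
  have g3 := h3 _ _ (hR.mono (by omega))
  have g4 := h4 _ _ (hR.mono (by omega))
  have g5 := h5 _ _ (hR.mono (by omega))
  refine ratio_of g1 ?_ ?_ h𝒩
  · refine atS_rare (at0_rare hE4 hCR g1 g2) ?_
    intro v hv1 hv2
    exact at1_rare hE4 g1 (at1_side hCR hLC hSTEP hN1 hP38 hMULT hNCN hNCG hGX g1 hv1)
      (g3 v hv1 hv2)
  · intro M hM
    exact typ_circ hFLAT hFIN g4 g5 M hM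

/-- The final statement. -/
theorem main_of (hratio : ∀ k : ℕ, 1 ≤ k → ∃ C, ∀ r n, Rg k C r n →
      ∀ 𝒩 : Finset (RankMatroid n r), IsTransversal 𝒩 →
        k ^ 2 * (n * ∑ M ∈ 𝒩, numBases M.1) ≤
          (k + 1) ^ 2 * ((r + 1) * ∑ M ∈ 𝒩, numCircuits M.1)) (k : ℕ) (hk : 1 ≤ k) :
    ∃ C, ∀ r n, 3 ≤ r → (C * r * Nat.log 2 r ^ 3 ≤ n ∨ (2 * r * (k + 1)) ^ 24 ≤ n) →
      ∀ 𝒩 : Finset (RankMatroid n r), IsTransversal 𝒩 →
        ∑ M ∈ 𝒩, numBases M.1 < ∑ M ∈ 𝒩, numCircuits M.1 ∧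
        k ^ 2 * (n * ∑ M ∈ 𝒩, numBases M.1) ≤
          (k + 1) ^ 2 * ((r + 1) * ∑ M ∈ 𝒩, numCircuits M.1) := by
  obtain ⟨C, hC⟩ := hratio k hk
  refine ⟨C + (2 * (C + 1) * (k + 1)) ^ 24 + 5, ?_⟩
  intro r n hr hn 𝒩 h𝒩
  by_cases hbig : (2 * r * (k + 1)) ^ 24 ≤ n
  · have := main_final (k := k + 1) hr (by omega) hbig h𝒩
    rwa [Nat.add_sub_cancel] at this
  · have hn' := hn.resolve_right hbig
    have hl : 1 ≤ Nat.log 2 r := by
      have : 2 ^ 1 ≤ r := by omega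
      exact Nat.le_log_of_pow_le (by norm_num) this
    have hl3 : 1 ≤ Nat.log 2 r ^ 3 := Nat.one_le_pow _ _ hl
    have hE1 : 1 ≤ (2 * (C + 1) * (k + 1)) ^ 24 := Nat.one_le_pow _ _ (by positivity)
    have hmono : r ≤ C → (2 * r * (k + 1)) ^ 24 ≤ (2 * (C + 1) * (k + 1)) ^ 24 := by
      intro h
      exact Nat.pow_le_pow_left (Nat.mul_le_mul_right _ (Nat.mul_le_mul_left _ (by omega))) 24
    have hCn : (C + (2 * (C + 1) * (k + 1)) ^ 24 + 5) * r ≤ n := by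
      refine le_trans ?_ hn'
      exact Nat.le_mul_of_pos_right _ hl3
    have hn3 : n ≤ (2 * r * (k + 1)) ^ 24 := (not_le.1 hbig).le
    have hRC : C * r * Nat.log 2 r ^ 3 ≤ n := by
      refine le_trans ?_ hn'
      refine Nat.mul_le_mul_right _ (Nat.mul_le_mul_right _ (by omega))
    clear hn hn'
    generalize hEE : (2 * (C + 1) * (k + 1)) ^ 24 = E at hE1 hmono hCn
    have hrC : C ≤ r := by
      by_contra hcon
      push Not at hcon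
      apply hbig
      refine (hmono (by omega)).trans ?_
      refine le_trans ?_ hCn
      calc E = E * 1 := (mul_one E).symm
        _ ≤ (C + E + 5) * r := Nat.mul_le_mul (by omega) (by omega)
    have hR : Rg k C r n := ⟨hrC, hRC, hn3⟩
    have h1 := hC r n hR 𝒩 h𝒩
    refine ⟨?_, h1⟩
    have h6 : 6 * r ≤ n := by
      refine le_trans ?_ hCn
      exact Nat.mul_le_mul_right _ (by omega)
    clear hmono hbig hn3 hR hRC hCn hratio hC hEE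
    have hrn : r ≤ n := by omega
    have h2 := bases_pos hrn h𝒩
    by_contra hcon
    push Not at hcon
    generalize ∑ M ∈ 𝒩, numBases M.1 = B at h1 h2 hcon
    generalize ∑ M ∈ 𝒩, numCircuits M.1 = D at h1 hcon
    have hk4 : (k + 1) ^ 2 ≤ 4 * k ^ 2 := by nlinarith
    have h3 : (k ^ 2 * n) * B ≤ (k ^ 2 * (4 * (r + 1))) * B := by
      calc (k ^ 2 * n) * B = k ^ 2 * (n * B) := by ring
        _ ≤ (k + 1) ^ 2 * ((r + 1) * D) := h1
        _ ≤ (4 * k ^ 2) * ((r + 1) * B) :=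
            Nat.mul_le_mul hk4 (Nat.mul_le_mul_left _ hcon)
        _ = _ := by ring
    have h4 := Nat.le_of_mul_le_mul_right h3 h2
    have h5 := Nat.le_of_mul_le_mul_left h4 (by positivity)
    omega

end Pool.Agent.Work.MP_f3d170_co_helper44
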