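import Pool.Agent.Work.MP_f3d170_co_helper44.Interface

set_option autoImplicit false

open Set Matroid Nat
open Pool.Agent.Work.MP_f3d170_co_h45
open Pool.Agent.Work.MP_f3d170_co_helper60
open Pool.Agent.Work.MP_f3d170_co_helper60b

namespace Pool.Agent.Work.MP_f3d170_co_helper44.CLA

variable {n : ℕ}

lemma exists_range {s₀ : ℕ} {T : Set (Fin n)} (hT : T.Nonempty) (hc : T.ncard ≤ s₀) :
    ∃ f : Fin s₀ → Fin n, Set.range f = T := by
  classical
  have h1 : Fintype.card T ≤ Fintype.card (Fin s₀) := by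
    rw [Fintype.card_fin, ← Set.toFinset_card, ← Set.ncard_eq_toFinset_card']
    exact hc
  obtain ⟨e⟩ := Function.Embedding.nonempty_of_card_le h1
  have : Nonempty T := hT.to_subtype
  refine ⟨fun i => (Function.invFun e i : T), ?_⟩
  ext x
  constructor
  · rintro ⟨i, rfl⟩
    exact (Function.invFun e i).2
  · intro hx
    refine ⟨e ⟨x, hx⟩, ?_⟩
    simp only
    rw [Function.leftInverse_invFun e.injective]

lemma subset_cl1 (T : Matroid (Fin n)) (c : ℕ) (A : Set (Fin n)) : A ⊆ cl1 T c A :=
  Set.subset_union_left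

lemma cl1_subset {M : Matroid (Fin n)} (hE : M.E = Set.univ) {j c : ℕ} {G A : Set (Fin n)}
    (hG : IsHyp M j G) (hA : A ⊆ G) : cl1 M c A ⊆ G := by
  rintro z (hz | ⟨S, hS, hSi, -, hz⟩)
  · exact hA hz
  · have hzS : z ∉ S := by
      intro h
      rw [Set.insert_eq_of_mem h] at hz
      exact hz hSi
    rw [hSi.insert_indep_iff_of_notMem hzS] at hz
    have hzcl : z ∈ M.closure S := by
      by_contra hcon
      exact hz ⟨by rw [hE]; trivial, hcon⟩
    rw [← hG.1]
    exact M.closure_subset_closure (hS.trans hA) hzcl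

/-- no circuit with at most `c` elements -/
def NoSm (M : Matroid (Fin n)) (c : ℕ) (U : Set (Fin n)) : Prop :=
  ∀ C ⊆ U, M.IsCircuit C → c < C.ncard

lemma greedy {M : Matroid (Fin n)} (hE : M.E = Set.univ) {j c s₀ : ℕ} {G I : Set (Fin n)}
    (hj : 1 ≤ j) (hG : IsHyp M j G) (hI : M.Indep I) (hIc : I.ncard = j) (hIG : I ⊆ G)
    (hno : ¬ ∃ f : Fin s₀ → Fin n, G = cl1 M c (I ∪ Set.range f)) :
    ∀ i ≤ s₀, ∃ U ⊆ G, I ⊆ U ∧ U.ncard = j + i ∧ NoSm M c U := by
  intro i
  induction i with
  | zero =>
    intro _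
    refine ⟨I, hIG, subset_rfl, hIc, ?_⟩
    intro C hC hCc
    exact absurd (hI.subset hC) hCc.not_indep
  | succ i ih =>
    intro hi
    obtain ⟨U, hUG, hIU, hUc, hns⟩ := ih (by omega)
    have hx : ∃ x ∈ G, x ∉ cl1 M c U := by
      by_contra hcon
      push Not at hcon
      apply hno
      obtain ⟨a, ha⟩ : I.Nonempty := by
        rw [← Set.ncard_pos (Set.toFinite _)]
        omega
      have hTc : (insert a (U \ I)).ncard ≤ s₀ := by
        refine (Set.ncard_insert_le _ _).trans ?_
        have := Set.ncard_sdiff_add_ncard_of_subset hIU (Set.toFinite _)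
        omega
      obtain ⟨f, hf⟩ := exists_range ⟨a, Set.mem_insert _ _⟩ hTc
      refine ⟨f, ?_⟩
      have h1 : I ∪ Set.range f = U := by
        rw [hf]
        ext x
        constructor
        · rintro (h | h | h)
          · exact hIU h
          · rw [h]; exact hIU ha
          · exact h.1
        · intro h
          by_cases hxI : x ∈ I
          · exact Or.inl hxI
          · exact Or.inr (Or.inr ⟨h, hxI⟩)
      rw [h1]
      exact Set.Subset.antisymm hcon (cl1_subset hE hG hUG)
    obtain ⟨x, hxG, hxU⟩ := hx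
    have hxnU : x ∉ U := fun h => hxU (subset_cl1 M c U h)
    refine ⟨insert x U, Set.insert_subset hxG hUG, hIU.trans (Set.subset_insert _ _), ?_, ?_⟩
    · rw [Set.ncard_insert_of_notMem hxnU (Set.toFinite _)]
      omega
    · intro C hC hCc
      by_cases hxC : x ∈ C
      · by_contra hle
        push Not at hle
        apply hxU
        right
        refine ⟨C \ {x}, ?_, hCc.sdiff_singleton_indep hxC, ?_, ?_⟩
        · intro y hy
          rcases hC hy.1 with h | h
          · exact absurd h hy.2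
          · exact h
        · rw [Set.ncard_sdiff_singleton_of_mem hxC]
          have : 0 < C.ncard := (Set.ncard_pos (Set.toFinite _)).2 ⟨x, hxC⟩
          omega
        · rw [Set.insert_sdiff_singleton, Set.insert_eq_of_mem hxC]
          exact hCc.not_indep
      · refine hns C ?_ hCc
        intro y hy
        rcases hC hy with h | h
        · rw [h] at hy; exact absurd hy hxC
        · exact h

lemma count {M : Matroid (Fin n)} (hE : M.E = Set.univ) {j c : ℕ} :
    ∀ (t : ℕ) (U : Set (Fin n)), U.ncard = j + t → rk M U = j → NoSm M c U →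
      (c + 1) ^ t ≤ t ! * bn M j U := by
  classical
  intro t
  induction t with
  | zero =>
    intro U hUc hUr _
    have hind : M.Indep U := by
      rw [indep_iff_rk, hUr, hUc]; rfl
    have h1 : 0 < bn M j U := by
      unfold bn
      rw [Set.ncard_pos (Set.toFinite _)]
      exact ⟨U, hind, by rw [hUc]; rfl, subset_rfl⟩
    rw [pow_zero, Nat.factorial_zero, one_mul]
    exact h1
  | succ t ih =>
    intro U hUc hUr hns
    have hdep : M.Dep U := by
      rw [← Matroid.not_indep_iff (by rw [hE]; exact Set.subset_univ _)]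
      rw [indep_iff_rk, hUr, hUc]
      omega
    obtain ⟨C, hCU, hC⟩ := hdep.exists_isCircuit_subset
    have hCc : c + 1 ≤ C.ncard := hns C hCU hC
    set 𝓑 : Finset (Set (Fin n)) :=
      (Set.toFinite {I : Set (Fin n) | M.Indep I ∧ I.ncard = j ∧ I ⊆ U}).toFinset with h𝓑
    have hbn : bn M j U = 𝓑.card := by
      unfold bn
      rw [h𝓑, Set.ncard_eq_toFinset_card _ (Set.toFinite _)]
    set Cf : Finset (Fin n) := (Set.toFinite C).toFinset with hCf
    have hCfc : Cf.card = C.ncard := by
      rw [hCf, Set.ncard_eq_toFinset_card _ (Set.toFinite _)]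
    have hy : ∀ y ∈ Cf, (c + 1) ^ t ≤ t ! * (𝓑.filter (fun B => y ∉ B)).card := by
      intro y hy
      rw [hCf, Set.Finite.mem_toFinset] at hy
      have hyU : y ∈ U := hCU hy
      have h1 : (U \ {y}).ncard = j + t := by
        rw [Set.ncard_sdiff_singleton_of_mem hyU, hUc]
        omega
      have h2 : rk M (U \ {y}) = j := by
        rw [← hUr]
        refine le_antisymm (rk_mono M Set.sdiff_subset) ?_
        refine rk_le_of_subset_closure ?_
        intro x hx
        by_cases hxy : x = y
        · rw [hxy]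
          refine M.closure_subset_closure (Set.sdiff_subset_sdiff_left hCU) ?_
          exact hC.mem_closure_sdiff_singleton_of_mem hy
        · exact M.subset_closure _ (by rw [hE]; exact Set.subset_univ _) ⟨hx, hxy⟩
      have h3 := ih (U \ {y}) h1 h2 (fun D hD => hns D (hD.trans Set.sdiff_subset))
      have h4 : bn M j (U \ {y}) = (𝓑.filter (fun B => y ∉ B)).card := by
        unfold bn
        rw [Set.ncard_eq_toFinset_card _ (Set.toFinite _)]
        congr 1
        ext B
        simp only [Set.Finite.mem_toFinset, Set.mem_ofPred_eq, Finset.mem_filter, h𝓑]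
        constructor
        · rintro ⟨a, b, hsub⟩
          exact ⟨⟨a, b, hsub.trans Set.sdiff_subset⟩, fun hyB => (hsub hyB).2 rfl⟩
        · rintro ⟨⟨a, b, hsub⟩, hyB⟩
          exact ⟨a, b, fun x hx => ⟨hsub hx, fun h => hyB (by rw [← h]; exact hx)⟩⟩
      rw [h4] at h3
      exact h3
    have hsum : ∑ y ∈ Cf, (𝓑.filter (fun B => y ∉ B)).card
        = ∑ B ∈ 𝓑, (Cf.filter (fun y => y ∉ B)).card := by
      simp_rw [Finset.card_filter]
      exact Finset.sum_comm
    have hle : ∑ B ∈ 𝓑, (Cf.filter (fun y => y ∉ B)).card ≤ 𝓑.card * (t + 1) := by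
      rw [← smul_eq_mul]
      refine Finset.sum_le_card_nsmul _ _ _ ?_
      intro B hB
      rw [h𝓑, Set.Finite.mem_toFinset] at hB
      have h1 : (U \ B).ncard = t + 1 := by
        have := Set.ncard_sdiff_add_ncard_of_subset hB.2.2 (Set.toFinite _)
        have h2 := hB.2.1
        omega
      rw [← h1, Set.ncard_eq_toFinset_card _ (Set.toFinite _)]
      refine Finset.card_le_card ?_
      intro y hy
      rw [Finset.mem_filter, hCf, Set.Finite.mem_toFinset] at hy
      rw [Set.Finite.mem_toFinset]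
      exact ⟨hCU hy.1, hy.2⟩
    have hfin : Cf.card * (c + 1) ^ t ≤ t ! * (𝓑.card * (t + 1)) := by
      calc Cf.card * (c + 1) ^ t = ∑ _y ∈ Cf, (c + 1) ^ t := by
            rw [Finset.sum_const, smul_eq_mul]
        _ ≤ ∑ y ∈ Cf, t ! * (𝓑.filter (fun B => y ∉ B)).card := Finset.sum_le_sum hy
        _ = t ! * ∑ y ∈ Cf, (𝓑.filter (fun B => y ∉ B)).card := by rw [Finset.mul_sum]
        _ ≤ t ! * (𝓑.card * (t + 1)) := by
            rw [hsum]; exact Nat.mul_le_mul_left _ hle
    calc (c + 1) ^ (t + 1) = (c + 1) * (c + 1) ^ t := by ring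
      _ ≤ Cf.card * (c + 1) ^ t := Nat.mul_le_mul_right _ (by rw [hCfc]; exact hCc)
      _ ≤ t ! * (𝓑.card * (t + 1)) := hfin
      _ = (t + 1)! * bn M j U := by rw [hbn, Nat.factorial_succ]; ring

lemma bn_mono (M : Matroid (Fin n)) (j : ℕ) {U G : Set (Fin n)} (h : U ⊆ G) :
    bn M j U ≤ bn M j G := by
  unfold bn
  refine Set.ncard_le_ncard ?_ (Set.toFinite _)
  rintro I ⟨a, b, c⟩
  exact ⟨a, b, c.trans h⟩

end Pool.Agent.Work.MP_f3d170_co_helper44.CLA

namespace Pool.Agent.Work.MP_f3d170_co_helper44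

open CLA

theorem stmt_CLA : Stmt_CLA := by
  intro n j c s₀ M G I hE hj hG hI hIc hIG
  by_cases hno : ∃ f : Fin s₀ → Fin n, G = cl1 M c (I ∪ Set.range f)
  · exact Or.inl hno
  · right
    obtain ⟨U, hUG, hIU, hUc, hns⟩ := greedy hE hj hG hI hIc hIG hno s₀ le_rfl
    have hr : rk M U = j := by
      refine le_antisymm ?_ ?_
      · rw [← hG.2]; exact rk_mono M hUG
      · have h1 := rk_mono M hIU
        rw [indep_iff_rk.1 hI, hIc] at h1
        exact h1
    exact (count hE s₀ U hUc hr hns).trans (Nat.mul_le_mul_left _ (bn_mono M j hUG))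

end Pool.Agent.Work.MP_f3d170_co_helper44
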