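import Pool.Agent.Work.MP_f3d170_co_helper44.Interface

set_option autoImplicit false

open Set
open Pool.Agent.Work.MP_f3d170_co_helper60b

namespace Pool.Agent.Work.MP_f3d170_co_helper44

lemma code_choose (s : ℕ) (hs : 2 ≤ s) (m : ℕ) (hm : s + 1 ≤ m) :
    (s + 1) * (m - s) ≤ m.choose s := by
  induction m, hm using Nat.le_induction with
  | base => simp
  | succ m hm ih =>
    obtain ⟨t, rfl⟩ : ∃ t, s = t + 1 := ⟨s - 1, by omega⟩
    rw [Nat.choose_succ_succ']
    have h1 : (t + 1 + 1).choose t ≤ m.choose t := Nat.choose_le_choose t hm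
    have h2 : t + 1 + 1 ≤ (t + 1 + 1).choose t := by
      rw [← Nat.choose_symm_of_eq_add (show t + 1 + 1 = 2 + t by ring)]
      rw [Nat.choose_two_right]
      rw [Nat.le_div_iff_mul_le (by norm_num)]
      have : t + 1 + 1 - 1 = t + 1 := by omega
      rw [this]
      exact Nat.mul_le_mul_left _ (by omega)
    have h3 : m + 1 - (t + 1) = (m - (t + 1)) + 1 := by omega
    rw [h3, Nat.mul_add, Nat.mul_one]
    have h4 : (t + 1 + 1) * (m - (t + 1)) ≤ m.choose (t + 1) := ih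
    calc (t + 1 + 1) * (m - (t + 1)) + (t + 1 + 1)
        ≤ m.choose (t + 1) + m.choose t := Nat.add_le_add h4 (h2.trans h1)
      _ = m.choose t + m.choose (t + 1) := Nat.add_comm _ _

open Classical in
/-- A chosen `s`-subset. -/
noncomputable def cR {n : ℕ} (s : ℕ) (P : Set (Fin n)) : Set (Fin n) :=
  if h : s ≤ P.ncard then (Set.exists_subset_card_eq h).choose else ∅

lemma cR_spec {n s : ℕ} {P : Set (Fin n)} (h : s ≤ P.ncard) :
    cR s P ⊆ P ∧ (cR s P).ncard = s := by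
  unfold cR
  rw [dif_pos h]
  exact (Set.exists_subset_card_eq h).choose_spec

/-- The code. -/
def cCode {n : ℕ} (s : ℕ) (𝒲 : Set (Set (Fin n))) : Set (Set (Fin n)) :=
  {Y | ∃ P ∈ 𝒲, ∃ e ∈ P \ cR s P, Y = insert e (cR s P)}

lemma cCode_ncard {n s : ℕ} {𝒲 : Set (Set (Fin n))} (h : IsPart s 𝒲) {Y : Set (Fin n)}
    (hY : Y ∈ cCode s 𝒲) : Y.ncard = s + 1 := by
  obtain ⟨P, hP, e, he, rfl⟩ := hY
  have h1 := cR_spec (s := s) (P := P) (by have := h.1 P hP; omega)
  rw [Set.ncard_insert_of_notMem he.2 (Set.toFinite _), h1.2]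

/-- Decoding. -/
def cDec {n : ℕ} (s : ℕ) (𝒞 : Set (Set (Fin n))) : Set (Set (Fin n)) :=
  {Q | ∃ Y ∈ 𝒞, Q = ⋃₀ {Y' | Y' ∈ 𝒞 ∧ s ≤ (Y ∩ Y').ncard}}

lemma cDec_aux {n s : ℕ} {𝒲 : Set (Set (Fin n))} (h : IsPart s 𝒲) {P : Set (Fin n)}
    (hP : P ∈ 𝒲) {e : Fin n} (he : e ∈ P \ cR s P) :
    ⋃₀ {Y' | Y' ∈ cCode s 𝒲 ∧ s ≤ (insert e (cR s P) ∩ Y').ncard} = P := by
  have h1 := cR_spec (s := s) (P := P) (by have := h.1 P hP; omega)
  apply Set.Subset.antisymm
  · rintro x ⟨Y', ⟨⟨P', hP', e', he', rfl⟩, hc⟩, hx⟩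
    have h2 := cR_spec (s := s) (P := P') (by have := h.1 P' hP'; omega)
    have hsub : insert e (cR s P) ∩ insert e' (cR s P') ⊆ P ∩ P' := by
      apply Set.inter_subset_inter
      · exact Set.insert_subset he.1 h1.1
      · exact Set.insert_subset he'.1 h2.1
    have h3 : P = P' := h.2 P hP P' hP' (hc.trans (Set.ncard_le_ncard hsub (Set.toFinite _)))
    rw [h3]
    exact (Set.insert_subset he'.1 h2.1) hx
  · intro x hx
    have hmem : ∀ e' ∈ P \ cR s P, insert e' (cR s P) ∈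
        {Y' | Y' ∈ cCode s 𝒲 ∧ s ≤ (insert e (cR s P) ∩ Y').ncard} := by
      intro e' he'
      refine ⟨⟨P, hP, e', he', rfl⟩, ?_⟩
      have : cR s P ⊆ insert e (cR s P) ∩ insert e' (cR s P) :=
        Set.subset_inter (Set.subset_insert _ _) (Set.subset_insert _ _)
      have h4 := Set.ncard_le_ncard this (Set.toFinite _)
      rw [h1.2] at h4
      exact h4
    by_cases hxR : x ∈ cR s P
    · exact ⟨_, hmem e he, Set.mem_insert_of_mem _ hxR⟩
    · exact ⟨_, hmem x ⟨hx, hxR⟩, Set.mem_insert _ _⟩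

lemma cDec_code {n s : ℕ} {𝒲 : Set (Set (Fin n))} (h : IsPart s 𝒲) :
    cDec s (cCode s 𝒲) = 𝒲 := by
  ext Q
  constructor
  · rintro ⟨Y, ⟨P, hP, e, he, rfl⟩, rfl⟩
    rw [cDec_aux h hP he]
    exact hP
  · intro hQ
    have hc := h.1 Q hQ
    have h1 := cR_spec (s := s) (P := Q) (by omega)
    have hne : (Q \ cR s Q).Nonempty := by
      by_contra hemp
      rw [Set.not_nonempty_iff_eq_empty, Set.sdiff_eq_empty] at hemp
      have := Set.ncard_le_ncard hemp (Set.toFinite _)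
      omega
    obtain ⟨e, he⟩ := hne
    exact ⟨insert e (cR s Q), ⟨Q, hQ, e, he, rfl⟩, (cDec_aux h hQ he).symm⟩

lemma cCode_sum {n s : ℕ} {𝒲 : Set (Set (Fin n))} (h : IsPart s 𝒲) :
    (cCode s 𝒲).ncard ≤ ∑ P ∈ 𝒲.toFinite.toFinset, (P.ncard - s) := by
  classical
  have hsub : cCode s 𝒲 ⊆ ((𝒲.toFinite.toFinset.biUnion (fun P =>
      ((P \ cR s P).toFinite.toFinset).image (fun e => insert e (cR s P))) :
        Finset (Set (Fin n))) : Set (Set (Fin n))) := by
    rintro Y ⟨P, hP, e, he, rfl⟩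
    rw [Finset.mem_coe, Finset.mem_biUnion]
    refine ⟨P, (Set.Finite.mem_toFinset _).2 hP, ?_⟩
    rw [Finset.mem_image]
    exact ⟨e, (Set.Finite.mem_toFinset _).2 he, rfl⟩
  refine (Set.ncard_le_ncard hsub (Set.toFinite _)).trans ?_
  rw [Set.ncard_coe_finset]
  refine Finset.card_biUnion_le.trans ?_
  apply Finset.sum_le_sum
  intro P hP
  refine Finset.card_image_le.trans ?_
  rw [← Set.ncard_eq_toFinset_card]
  have hP' : P ∈ 𝒲 := (Set.Finite.mem_toFinset _).1 hP
  have h1 := cR_spec (s := s) (P := P) (by have := h.1 P hP'; omega)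
  rw [Set.ncard_sdiff h1.1 (Set.toFinite _), h1.2]

lemma part_sum {n s : ℕ} {𝒲 : Set (Set (Fin n))} (h : IsPart s 𝒲) :
    ∑ P ∈ 𝒲.toFinite.toFinset, P.ncard.choose s ≤ n.choose s := by
  classical
  have h1 : ∀ P ∈ 𝒲.toFinite.toFinset, P.ncard.choose s =
      (Finset.powersetCard s P.toFinite.toFinset).card := by
    intro P _
    rw [Finset.card_powersetCard, ← Set.ncard_eq_toFinset_card]
  rw [Finset.sum_congr rfl h1, ← Finset.card_biUnion]
  · have h2 : (𝒲.toFinite.toFinset.biUnion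
        (fun P => Finset.powersetCard s P.toFinite.toFinset)) ⊆
        Finset.powersetCard s (Finset.univ : Finset (Fin n)) := by
      intro S hS
      rw [Finset.mem_biUnion] at hS
      obtain ⟨P, _, hP⟩ := hS
      rw [Finset.mem_powersetCard] at hP ⊢
      exact ⟨Finset.subset_univ _, hP.2⟩
    have h3 := Finset.card_le_card h2
    rw [Finset.card_powersetCard, Finset.card_univ, Fintype.card_fin] at h3
    exact h3
  · intro P hP Q hQ hne
    show Disjoint (Finset.powersetCard s P.toFinite.toFinset) (Finset.powersetCard s Q.toFinite.toFinset)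
    rw [Finset.disjoint_left]
    intro S hS hS'
    rw [Finset.mem_powersetCard] at hS hS'
    apply hne
    refine h.2 P ((Set.Finite.mem_toFinset _).1 hP) Q ((Set.Finite.mem_toFinset _).1 hQ) ?_
    have h5 : (S : Set (Fin n)) ⊆ P ∩ Q := by
      intro x hx
      refine ⟨?_, ?_⟩
      · exact (Set.Finite.mem_toFinset _).1 (hS.1 hx)
      · exact (Set.Finite.mem_toFinset _).1 (hS'.1 hx)
    have h6 := Set.ncard_le_ncard h5 (Set.toFinite _)
    rw [Set.ncard_coe_finset, hS.2] at h6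
    exact h6

theorem stmt_CODE : Stmt_CODE := by
  intro n s hs
  refine ⟨cCode s, ?_, ?_⟩
  · intro 𝒲 h
    refine ⟨fun Y hY => cCode_ncard h hY, ?_, ?_⟩
    · refine (Nat.mul_le_mul_left _ (cCode_sum h)).trans ?_
      rw [Finset.mul_sum]
      refine (Finset.sum_le_sum (fun P hP => ?_)).trans (part_sum h)
      exact code_choose s hs _ (h.1 P ((Set.Finite.mem_toFinset _).1 hP))
    · intro hsm
      refine (cCode_sum h).trans ?_
      have h1 : ∑ P ∈ 𝒲.toFinite.toFinset, (P.ncard - s) ≤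
          ∑ P ∈ 𝒲.toFinite.toFinset, 2 := by
        apply Finset.sum_le_sum
        intro P hP
        have := hsm P ((Set.Finite.mem_toFinset _).1 hP)
        omega
      rw [Finset.sum_const, ← Set.ncard_eq_toFinset_card, smul_eq_mul, mul_comm] at h1
      exact h1
  · intro 𝒲 𝒲' h h' he
    rw [← cDec_code h, ← cDec_code h', he]

end Pool.Agent.Work.MP_f3d170_co_helper44
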