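import Pool.Agent.Work.MP_f3d170_co_helper44.Interface

set_option autoImplicit false

open Set Matroid Nat
open Pool.Agent.Work.MP_f3d170_co_h45
open Pool.Agent.Work.MP_f3d170_co_helper60
open Pool.Agent.Work.MP_f3d170_co_helper60b

namespace Pool.Agent.Work.MP_f3d170_co_helper44

/-- A map which is determined by another one has at most as many values. -/
lemma ncard_image_determined {α β γ : Type*} {𝒞 : Set α} (h𝒞 : 𝒞.Finite) (G : α → β)
    (t : α → γ) (h : ∀ M ∈ 𝒞, ∀ M' ∈ 𝒞, G M = G M' → t M = t M') :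
    (t '' 𝒞).ncard ≤ (G '' 𝒞).ncard := by
  classical
  rcases 𝒞.eq_empty_or_nonempty with rfl | ⟨M₀, hM₀⟩
  · simp
  · let k : β → γ := fun b => if hb : ∃ M ∈ 𝒞, G M = b then t hb.choose else t M₀
    have hsub : t '' 𝒞 ⊆ k '' (G '' 𝒞) := by
      rintro _ ⟨M, hM, rfl⟩
      refine ⟨G M, ⟨M, hM, rfl⟩, ?_⟩
      have hb : ∃ M' ∈ 𝒞, G M' = G M := ⟨M, hM, rfl⟩
      simp only [k, dif_pos hb]
      exact h _ hb.choose_spec.1 _ hM hb.choose_spec.2
    calc (t '' 𝒞).ncard ≤ (k '' (G '' 𝒞)).ncard :=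
          Set.ncard_le_ncard hsub ((h𝒞.image G).image k)
      _ ≤ (G '' 𝒞).ncard := Set.ncard_image_le (h𝒞.image G)

/-- the number of `k`-subsets -/
lemma ncard_choose (n k : ℕ) : {Y : Set (Fin n) | Y.ncard = k}.ncard = n.choose k := by
  classical
  have h1 : {Y : Set (Fin n) | Y.ncard = k} =
      (fun I : Finset (Fin n) => (I : Set (Fin n))) ''
        ((Finset.univ.powersetCard k : Finset (Finset (Fin n))) : Set (Finset (Fin n))) := by
    ext Y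
    constructor
    · intro hY
      refine ⟨(Set.toFinite Y).toFinset, ?_, (Set.toFinite Y).coe_toFinset⟩
      rw [Finset.mem_coe, Finset.mem_powersetCard]
      exact ⟨Finset.subset_univ _, by rw [← Set.ncard_eq_toFinset_card Y (Set.toFinite Y)]; exact hY⟩
    · rintro ⟨I, hI, rfl⟩
      rw [Finset.mem_coe, Finset.mem_powersetCard] at hI
      simp only [Set.mem_ofPred_eq, Set.ncard_coe_finset]
      exact hI.2
  rw [h1, Set.ncard_image_of_injective _ Finset.coe_injective, Set.ncard_coe_finset,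
    Finset.card_powersetCard, Finset.card_univ, Fintype.card_fin]

/-- Block LC (helper21). -/
theorem stmt_LC_of (hLIST : Stmt_LIST) (hCNT : Stmt_CNT) : Stmt_LC := by
  classical
  intro n j c Λ Λs β f 𝒞 hn hj hΛ hΛs hfact hE hf
  obtain ⟨cd1, cd2, hcd, hdec⟩ := hLIST n j c 30 Λ hj hΛ
  have h𝒞fin : 𝒞.Finite := Set.toFinite _
  have h3 := ncard_image_determined h𝒞fin (fun M => (f M, (cd1 M, cd2 M)))
    (fun M => (f M, Lg Λ M j)) (by
      intro M hM M' hM' hG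
      simp only [Prod.mk.injEq] at hG
      obtain ⟨h1, h2, h3⟩ := hG
      simp only [Prod.mk.injEq]
      exact ⟨h1, hdec M M' (hE M hM) (hE M' hM') (hf M hM M' hM' h1) h2 h3⟩)
  set N := n.choose j with hN
  set U1 : Set (Set (Fin n) × (Fin 30 → Fin n)) := {Y | Y.ncard = j} ×ˢ Set.univ with hU1
  set U2 : Set (Set (Fin n) × Set (Fin n)) := {Y | Y.ncard = j} ×ˢ Set.univ with hU2
  have hU1c : U1.ncard = N * n ^ 30 := by
    rw [hU1, Set.ncard_prod, ncard_choose, Set.ncard_univ, Nat.card_fun,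
      Nat.card_fin, Nat.card_fin]
  have hU2c : U2.ncard = N * 2 ^ n := by
    rw [hU2, Set.ncard_prod, ncard_choose, Set.ncard_univ, card_set_fin]
  have hdiv : ∀ L : ℕ, 1 ≤ L → N ≤ L * (N / L + 1) := fun L hL =>
    (Nat.lt_mul_div_succ N (by omega)).le
  have hn30 : 1 ≤ n ^ 30 := Nat.one_le_pow _ _ (by omega)
  have h2n : 1 ≤ 2 ^ n := Nat.one_le_two_pow
  have c1 := hCNT _ U1 (N / Λ + 1) (Λ * n ^ 30) (Set.toFinite _)
    (Nat.one_le_iff_ne_zero.2 (by positivity)) (by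
      rw [hU1c]
      calc N * n ^ 30 ≤ (Λ * (N / Λ + 1)) * n ^ 30 := Nat.mul_le_mul_right _ (hdiv Λ hΛ)
        _ = (N / Λ + 1) * (Λ * n ^ 30) := by ring)
  have c2 := hCNT _ U2 (N / Λs + 1) (Λs * 2 ^ n) (Set.toFinite _)
    (Nat.one_le_iff_ne_zero.2 (by positivity)) (by
      rw [hU2c]
      calc N * 2 ^ n ≤ (Λs * (N / Λs + 1)) * 2 ^ n := Nat.mul_le_mul_right _ (hdiv Λs hΛs)
        _ = (N / Λs + 1) * (Λs * 2 ^ n) := by ring)
  set 𝒲1 : Set (Set (Set (Fin n) × (Fin 30 → Fin n))) :=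
    {𝒮 | 𝒮 ⊆ U1 ∧ 𝒮.ncard ≤ N / Λ + 1} with h𝒲1
  set 𝒲2 : Set (Set (Set (Fin n) × Set (Fin n))) :=
    {𝒮 | 𝒮 ⊆ U2 ∧ 𝒮.ncard ≤ N / Λs + 1} with h𝒲2
  have h5 : (fun M => (f M, (cd1 M, cd2 M))) '' 𝒞 ⊆ (f '' 𝒞) ×ˢ (𝒲1 ×ˢ 𝒲2) := by
    rintro _ ⟨M, hM, rfl⟩
    obtain ⟨g1, g2, g3, g4⟩ := hcd M (hE M hM)
    refine ⟨⟨M, hM, rfl⟩, ⟨?_, ?_⟩, ⟨?_, ?_⟩⟩
    · intro p hp
      exact ⟨g1 p hp, trivial⟩
    · have : (cd1 M).ncard ≤ N / Λ := by
        rw [Nat.le_div_iff_mul_le (by omega), mul_comm]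
        exact g3
      exact this.trans (Nat.le_succ _)
    · intro p hp
      exact ⟨g2 p hp, trivial⟩
    · have h6 : Λs * (cd2 M).ncard ≤ N := by
        have h7 : 30 ! * (Λs * (cd2 M).ncard) ≤ 30 ! * N := by
          calc 30 ! * (Λs * (cd2 M).ncard) = (30 ! * Λs) * (cd2 M).ncard := by ring
            _ ≤ (c + 1) ^ 30 * (cd2 M).ncard := Nat.mul_le_mul_right _ hfact
            _ ≤ 30 ! * N := g4
        exact Nat.le_of_mul_le_mul_left h7 (Nat.factorial_pos 30)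
      have : (cd2 M).ncard ≤ N / Λs := by
        rw [Nat.le_div_iff_mul_le (by omega), mul_comm]
        exact h6
      exact this.trans (Nat.le_succ _)
  have h6 := Set.ncard_le_ncard h5 (((h𝒞fin.image f).prod
    ((Set.toFinite 𝒲1).prod (Set.toFinite 𝒲2))))
  rw [Set.ncard_prod, Set.ncard_prod] at h6
  calc ((fun M => (f M, Lg Λ M j)) '' 𝒞).ncard
      ≤ ((fun M => (f M, (cd1 M, cd2 M))) '' 𝒞).ncard := h3
    _ ≤ (f '' 𝒞).ncard * (𝒲1.ncard * 𝒲2.ncard) := h6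
    _ ≤ (f '' 𝒞).ncard * ((3 * (Λ * n ^ 30)) ^ (N / Λ + 1) *
        (3 * (Λs * 2 ^ n)) ^ (N / Λs + 1)) :=
        Nat.mul_le_mul_left _ (Nat.mul_le_mul c1 c2)
    _ = (f '' 𝒞).ncard * LK n Λ Λs j := rfl

end Pool.Agent.Work.MP_f3d170_co_helper44
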