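import Pool.Agent.Work.MP_f3d170_co_helper44.Interface
import Pool.Agent.Work.MP_f3d170_co_helper44.TLC

set_option autoImplicit false

open Set Matroid Nat
open Pool.Agent.Work.MP_f3d170_co_h45
open Pool.Agent.Work.MP_f3d170_co_helper60
open Pool.Agent.Work.MP_f3d170_co_helper60b

namespace Pool.Agent.Work.MP_f3d170_co_helper44

/-- The number of partition-like families. -/
lemma card_isPart_le (hCODE : Stmt_CODE) (hCNT : Stmt_CNT) (n i : ℕ) (hi : 2 ≤ i) (hn : 1 ≤ n) :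
    {𝒲 : Set (Set (Fin n)) | IsPart i 𝒲}.ncard ≤ (3 * n) ^ (n.choose i / (i + 1) + 1) := by
  classical
  obtain ⟨code, hcode, hinj⟩ := hCODE n i hi
  set U : Set (Set (Fin n)) := {Y | Y.ncard = i + 1} with hU
  set a := n.choose i / (i + 1) + 1 with ha
  have h1 : U.ncard ≤ a * n := by
    rw [hU, ncard_choose]
    have h2 : n.choose (i + 1) * (i + 1) = n.choose i * (n - i) := Nat.choose_succ_right_eq n i
    have h3 : n.choose i ≤ (i + 1) * a := (Nat.lt_mul_div_succ _ (by omega)).le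
    have h4 : n.choose (i + 1) * (i + 1) ≤ (a * n) * (i + 1) := by
      rw [h2]
      calc n.choose i * (n - i) ≤ ((i + 1) * a) * n := Nat.mul_le_mul h3 (Nat.sub_le _ _)
        _ = (a * n) * (i + 1) := by ring
    exact Nat.le_of_mul_le_mul_right h4 (by omega)
  have h5 := hCNT _ U a n (Set.toFinite _) hn h1
  refine le_trans (Set.ncard_le_ncard_of_injOn code ?_ ?_ (Set.toFinite _)) h5
  · intro 𝒲 h𝒲
    obtain ⟨g1, g2, -⟩ := hcode 𝒲 h𝒲
    refine ⟨fun Y hY => g1 Y hY, ?_⟩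
    have g3 : (code 𝒲).ncard ≤ n.choose i / (i + 1) := by
      rw [Nat.le_div_iff_mul_le (by omega), mul_comm]
      exact g2
    exact g3.trans (Nat.le_succ _)
  · intro 𝒲 h𝒲 𝒲' h𝒲' h
    exact hinj 𝒲 𝒲' h𝒲 h𝒲' h

/-- The exponent. -/
def SC (n : ℕ) : ℕ → ℕ
  | 0 => 0
  | (t + 1) => SC n t + n.choose (t + 2) / (t + 3)

lemma SC_le (n t : ℕ) (h : 4 * (t + 2) ≤ n) : (t + 2) * SC n t ≤ 2 * n.choose (t + 1) := by
  induction t with
  | zero => simp [SC]
  | succ t ih =>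
    have ih' := ih (by omega)
    have h1 : n.choose (t + 2) * (t + 2) = n.choose (t + 1) * (n - (t + 1)) :=
      Nat.choose_succ_right_eq n (t + 1)
    have h2 : (t + 3) * SC n t ≤ n.choose (t + 2) := by
      have h3 : (t + 2) * ((t + 3) * SC n t) ≤ (t + 2) * n.choose (t + 2) := by
        calc (t + 2) * ((t + 3) * SC n t) = (t + 3) * ((t + 2) * SC n t) := by ring
          _ ≤ (t + 3) * (2 * n.choose (t + 1)) := Nat.mul_le_mul_left _ ih'
          _ = n.choose (t + 1) * (2 * (t + 3)) := by ring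
          _ ≤ n.choose (t + 1) * (n - (t + 1)) := Nat.mul_le_mul_left _ (by omega)
          _ = (t + 2) * n.choose (t + 2) := by rw [← h1]; ring
      exact Nat.le_of_mul_le_mul_left h3 (by omega)
    have h4 : (t + 3) * (n.choose (t + 2) / (t + 3)) ≤ n.choose (t + 2) :=
      Nat.mul_div_le _ _
    calc (t + 1 + 2) * SC n (t + 1) = (t + 3) * SC n t + (t + 3) * (n.choose (t + 2) / (t + 3)) := by
          simp only [SC]; ring
      _ ≤ n.choose (t + 2) + n.choose (t + 2) := Nat.add_le_add h2 h4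
      _ = 2 * n.choose (t + 1 + 1) := by ring_nf

lemma lowU_two (n : ℕ) (hn : 1 ≤ n) : (LowU n 2).ncard ≤ (4 * n) ^ (n + 2) := by
  have h1 := card_lowRank_choose hn 0
  have h2 : (n + 0 + 2).choose (0 + 1) = n + 2 := by simp
  rw [h2] at h1
  refine le_trans ?_ h1
  have h3 : Nat.card (LowRank n (0 + 2)) = {M : Matroid (Fin n) | M.eRank ≤ ((0 + 2 : ℕ) : ℕ∞)}.ncard :=
    rfl
  rw [h3]
  refine Set.ncard_le_ncard ?_ (Set.toFinite _)
  intro T hT
  exact hT.2

lemma lowU_le (hLOW : Stmt_LOW) (hCODE : Stmt_CODE) (hCNT : Stmt_CNT) (n : ℕ) (hn : 1 ≤ n)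
    (t : ℕ) : (LowU n (t + 2)).ncard ≤ (4 * n) ^ (n + 2 + SC n t + t) := by
  induction t with
  | zero => simpa [SC] using lowU_two n hn
  | succ t ih =>
    have h1 := hLOW n (t + 2)
    have h2 := card_isPart_le hCODE hCNT n (t + 2) (by omega) hn
    calc (LowU n (t + 1 + 2)).ncard
        ≤ (LowU n (t + 2)).ncard * {𝒲 : Set (Set (Fin n)) | IsPart (t + 2) 𝒲}.ncard := h1
      _ ≤ (4 * n) ^ (n + 2 + SC n t + t) * (3 * n) ^ (n.choose (t + 2) / (t + 3) + 1) :=
          Nat.mul_le_mul ih h2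
      _ ≤ (4 * n) ^ (n + 2 + SC n t + t) * (4 * n) ^ (n.choose (t + 2) / (t + 3) + 1) :=
          Nat.mul_le_mul_left _ (Nat.pow_le_pow_left (by omega) _)
      _ = (4 * n) ^ (n + 2 + SC n (t + 1) + (t + 1)) := by
          rw [← pow_add]
          congr 1
          simp only [SC]
          ring

/-- Block CRUDE (helper21). -/
theorem stmt_CRUDE_of (hLOW : Stmt_LOW) (hCODE : Stmt_CODE) (hCNT : Stmt_CNT) :
    Stmt_CRUDE := by
  intro n s L E hs hsn hL hE
  obtain ⟨t, rfl⟩ : ∃ t, s = t + 2 := ⟨s - 2, by omega⟩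
  have h1 := lowU_le hLOW hCODE hCNT n (by omega) t
  have h2 := SC_le n t hsn
  have h3 : SC n t ≤ E := by
    have h4 : t + 2 - 1 = t + 1 := by omega
    rw [h4] at hE
    exact Nat.le_of_mul_le_mul_left (h2.trans hE) (by omega)
  have h5 : 4 * n ≤ 2 ^ (L + 2) := by
    rw [pow_add]
    omega
  calc (LowU n (t + 2)).ncard ≤ (4 * n) ^ (n + 2 + SC n t + t) := h1
    _ ≤ (4 * n) ^ (E + 2 * n + 2) := Nat.pow_le_pow_right (by omega) (by omega)
    _ ≤ (2 ^ (L + 2)) ^ (E + 2 * n + 2) := Nat.pow_le_pow_left h5 _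
    _ = 2 ^ ((L + 2) * (E + 2 * n + 2)) := by rw [pow_mul]
    _ ≤ 2 ^ ((L + 4) * (E + 2 * n + 2)) :=
        Nat.pow_le_pow_right (by omega) (Nat.mul_le_mul_right _ (by omega))

end Pool.Agent.Work.MP_f3d170_co_helper44
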