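import Mathlib
import Pool.Agent.Work.MP_f3d170_co_helper44.Interface

/-! Blocks E1 and the common lemmas for E2, E3, E4, LOW. -/

set_option autoImplicit false

open Set Matroid Nat
open Pool.Agent.Work.MP_f3d170_co_h45
open Pool.Agent.Work.MP_f3d170_co_helper60
open Pool.Agent.Work.MP_f3d170_co_helper60b

namespace Pool.Agent.Work.MP_f3d170_co_helper44

variable {n s : ℕ}

lemma isPart_Bk {M : Matroid (Fin n)} (hE : M.E = Set.univ) (𝓖 : Set (Set (Fin n))) :
    IsPart s (Bk M s 𝓖) := by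
  constructor
  · rintro _ ⟨P, hP, hPH, hgen, rfl⟩
    exact (star_spec hgen).2.1
  · rintro _ ⟨P, hP, hPH, hgen, rfl⟩ _ ⟨Q, hQ, hQH, hgen', rfl⟩ hcard
    obtain ⟨S, hS, hSc⟩ := Set.exists_subset_card_eq hcard
    have hst := star_spec hgen
    have hst' := star_spec hgen'
    have hSind : M.Indep S := hst.2.2.1 S (hS.trans Set.inter_subset_left) hSc
    have hrk : rk M S = s := by rw [indep_iff_rk.1 hSind, hSc]
    rw [hP.eq_closure hE ((hS.trans Set.inter_subset_left).trans hst.1) hrk.ge,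
      hQ.eq_closure hE ((hS.trans Set.inter_subset_right).trans hst'.1) hrk.ge]

theorem stmt_E1 : Stmt_E1 := fun _ _ _ 𝓖 hE => isPart_Bk hE 𝓖

/-- A subset with `s + 1` elements of a flat of rank `s` is dependent. -/
lemma dep_of_subset_hyp {M : Matroid (Fin n)} {P X : Set (Fin n)} (hP : IsHyp M s P)
    (hXP : X ⊆ P) (hX : X.ncard = s + 1) : ¬ M.Indep X := by
  intro hind
  have h1 := rk_mono M hXP
  rw [indep_iff_rk.1 hind, hP.2] at h1
  omega

/-- The closure of a dependent `(s+1)`-set all of whose `s`-subsets are independent. -/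
lemma closure_of_gen {M : Matroid (Fin n)} (hE : M.E = Set.univ) {X : Set (Fin n)}
    (hX : X.ncard = s + 1) (hdep : ¬ M.Indep X) (hgen : Gen M s X) :
    IsHyp M s (M.closure X) ∧ X ⊆ M.closure X ∧ HasGen M s (M.closure X) := by
  obtain ⟨S, hSX, hSc⟩ := Set.exists_subset_card_eq (s := X) (n := s) (by omega)
  have hrkS : rk M S = s := by rw [indep_iff_rk.1 (hgen S hSX hSc), hSc]
  have h1 : s ≤ rk M X := by rw [← hrkS]; exact rk_mono M hSX
  have h2 : rk M X ≤ s := by
    have h3 := rk_le_ncard M X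
    rw [indep_iff_rk] at hdep
    omega
  have hhyp : IsHyp M s (M.closure X) := closure_isHyp (le_antisymm h2 h1)
  have hXcl : X ⊆ M.closure X := M.subset_closure X (by rw [hE]; exact Set.subset_univ _)
  exact ⟨hhyp, hXcl, ⟨X, hXcl, hX.ge, hgen⟩⟩

/-- A set with a dependent subset of `s` elements. -/
lemma dep_of_not_gen {M : Matroid (Fin n)} {X : Set (Fin n)} (h : ¬ Gen M s X) :
    ¬ M.Indep X := by
  unfold Gen at h
  push Not at h
  obtain ⟨S, hSX, -, hS⟩ := h
  exact fun hind => hS (hind.subset hSX)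

/-- The dependent `(s+1)`-sets are determined by the truncation, the blocks and `𝓖`. -/
lemma dep_iff_Bk {M : Matroid (Fin n)} (hE : M.E = Set.univ) {𝓖 : Set (Set (Fin n))}
    (h𝓖 : ∀ P ∈ 𝓖, IsHyp M s P) {X : Set (Fin n)} (hX : X.ncard = s + 1) :
    ¬ M.Indep X ↔ ¬ Gen (trunc M s) s X ∨ (∃ P ∈ 𝓖, X ⊆ P) ∨
      ∃ A ∈ Bk M s 𝓖, X ⊆ Rec (trunc M s) s A := by
  rw [gen_trunc]
  constructor
  · intro hdep
    by_cases hgen : Gen M s X
    · right
      obtain ⟨hhyp, hXcl, hhas⟩ := closure_of_gen hE hX hdep hgen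
      by_cases hXH : M.closure X ∈ 𝓖
      · left; exact ⟨_, hXH, hXcl⟩
      · right
        exact ⟨star M s (M.closure X), ⟨_, hhyp, hXH, hhas, rfl⟩,
          hXcl.trans (subset_rec (star_spec hhas))⟩
    · left; exact hgen
  · rintro (h | ⟨P, hP, h⟩ | ⟨A, ⟨P, hP, hPH, hgen, rfl⟩, h⟩)
    · exact dep_of_not_gen h
    · exact dep_of_subset_hyp (h𝓖 P hP) h hX
    · exact dep_of_subset_hyp hP (h.trans (rec_subset hE hP (star_spec hgen))) hX

/-- The independent sets with at most `s` elements are those of the truncation. -/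
lemma indep_congr_of_trunc {M M' : Matroid (Fin n)} (ht : trunc M s = trunc M' s)
    {I : Set (Fin n)} (hI : I.ncard ≤ s) : M.Indep I ↔ M'.Indep I := by
  have h1 := @trunc_indep n s M I
  have h2 := @trunc_indep n s M' I
  rw [ht] at h1
  have h3 := h1.symm.trans h2
  constructor
  · intro h; exact (h3.1 ⟨h, hI⟩).1
  · intro h; exact (h3.2 ⟨h, hI⟩).1

end Pool.Agent.Work.MP_f3d170_co_helper44
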