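import Mathlib
import Pool.Agent.Work.MP_f3d170_co_helper44.TE1

/-! Block E2. -/

set_option autoImplicit false

open Set Matroid Nat
open Pool.Agent.Work.MP_f3d170_co_h45
open Pool.Agent.Work.MP_f3d170_co_helper60
open Pool.Agent.Work.MP_f3d170_co_helper60b

namespace Pool.Agent.Work.MP_f3d170_co_helper44

variable {n s : ℕ}

lemma e2_aux {Λ : ℕ} {M M' : Matroid (Fin n)} (hE : M.E = Set.univ) (hE' : M'.E = Set.univ)
    (ht : trunc M s = trunc M' s) (h1 : Lg Λ M s = Lg Λ M' s)
    (h2 : Lg Λ M (s + 1) = Lg Λ M' (s + 1))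
    (hb : Bk M s (Coh Λ M s) = Bk M' s (Coh Λ M' s)) {X : Set (Fin n)} (hX : X.ncard = s + 1)
    (hdep : ¬ M.Indep X) : ¬ M'.Indep X := by
  by_cases hgen : Gen M s X
  · obtain ⟨hhyp, hXcl, hhas⟩ := closure_of_gen hE hX hdep hgen
    by_cases hc : M.closure X ∈ Coh Λ M s
    · rcases hc with hc | ⟨G, hG, G', hG', hne, hPG, hPG'⟩
      · rw [h1] at hc
        exact dep_of_subset_hyp hc.1 hXcl hX
      · intro hind
        rw [h2] at hG hG'
        apply hne
        have hrk : rk M' X = s + 1 := by rw [indep_iff_rk.1 hind, hX]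
        rw [hG.1.eq_closure hE' (hXcl.trans hPG) hrk.ge,
          hG'.1.eq_closure hE' (hXcl.trans hPG') hrk.ge]
    · have hmem : star M s (M.closure X) ∈ Bk M s (Coh Λ M s) := ⟨_, hhyp, hc, hhas, rfl⟩
      rw [hb] at hmem
      obtain ⟨P', hP', -, hgen', hst⟩ := hmem
      refine dep_of_subset_hyp hP' ?_ hX
      refine hXcl.trans ((subset_rec (star_spec hhas)).trans ?_)
      rw [ht, hst]
      exact rec_subset hE' hP' (star_spec hgen')
  · rw [← gen_trunc, ht, gen_trunc] at hgen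
    exact dep_of_not_gen hgen

lemma trunc_eq_of {M M' : Matroid (Fin n)} (hE : M.E = Set.univ) (hE' : M'.E = Set.univ)
    (h : ∀ I : Set (Fin n), I.ncard ≤ s → (M.Indep I ↔ M'.Indep I)) :
    trunc M s = trunc M' s := by
  refine Matroid.ext_indep ?_ ?_
  · change M.E = M'.E
    rw [hE, hE']
  · intro I _
    rw [trunc_indep, trunc_indep]
    exact and_congr_left fun hI => h I hI

theorem stmt_E2 : Stmt_E2 := by
  intro n s Λ M M' hE hE' ht h1 h2 hb
  refine trunc_eq_of hE hE' ?_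
  intro I hI
  rcases Nat.lt_or_ge I.ncard (s + 1) with hlt | hge
  · exact indep_congr_of_trunc ht (by omega)
  · have hX : I.ncard = s + 1 := by omega
    rw [← not_iff_not]
    exact ⟨e2_aux hE hE' ht h1 h2 hb hX, e2_aux hE' hE ht.symm h1.symm h2.symm hb.symm hX⟩

end Pool.Agent.Work.MP_f3d170_co_helper44
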