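import Mathlib
import Pool.Agent.Work.MP_f3d170_co_helper44.TE1

/-! Block E3. -/

set_option autoImplicit false

open Set Matroid Nat
open Pool.Agent.Work.MP_f3d170_co_h45
open Pool.Agent.Work.MP_f3d170_co_helper60
open Pool.Agent.Work.MP_f3d170_co_helper60b

namespace Pool.Agent.Work.MP_f3d170_co_helper44

variable {n s : ℕ}

lemma isBase_iff_of_eRank {N : Matroid (Fin n)} (hrN : N.eRank = (s + 1 : ℕ))
    (B : Set (Fin n)) : N.IsBase B ↔ N.Indep B ∧ B.ncard = s + 1 := by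
  constructor
  · intro hB
    refine ⟨hB.indep, ?_⟩
    have h1 := hB.encard_eq_eRank
    rw [hrN, ← (Set.toFinite B).cast_ncard_eq] at h1
    exact_mod_cast h1
  · rintro ⟨hI, hc⟩
    refine hI.isBase_of_eRk_ge (Set.toFinite B) ?_
    rw [hI.eRk_eq_encard, hrN, ← (Set.toFinite B).cast_ncard_eq, hc]

theorem stmt_E3 : Stmt_E3 := by
  intro n s 𝓖 M M' hE hE' hr hr' h𝓖 h𝓖' ht hb
  refine Matroid.ext_isBase (by rw [hE, hE']) ?_
  intro B _
  rw [isBase_iff_of_eRank hr, isBase_iff_of_eRank hr']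
  refine and_congr_left fun hB => ?_
  rw [← not_iff_not, dep_iff_Bk hE h𝓖 hB, dep_iff_Bk hE' h𝓖' hB, ht, hb]

end Pool.Agent.Work.MP_f3d170_co_helper44
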