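import Pool.Agent.Work.MP_f3d170_co_helper44.Interface

/-! Block FLAT (helper99): the closure of an independent `s`-set is small. -/

set_option autoImplicit false

open Set Matroid Nat
open Pool.Agent.Work.MP_f3d170_co_h45
open Pool.Agent.Work.MP_f3d170_co_helper60
open Pool.Agent.Work.MP_f3d170_co_helper60b

namespace Pool.Agent.Work.MP_f3d170_co_helper44

namespace TFLAT
open Classical

variable {n s : ℕ}

/-- the independent subsets of `A` -/
lemma indep_le_bn {M : Matroid (Fin n)} (hE : M.E = Set.univ) {I : Set (Fin n)} (hI : M.Indep I)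
    (hIs : I.ncard = s) {A : Finset (Fin n)} (hA : (A : Set (Fin n)) = M.closure I \ I) :
    (A.powerset.filter (fun J : Finset (Fin n) => M.Indep (J : Set (Fin n)))).card ≤
      bn M s (M.closure I) := by
  have hex : ∀ J : Finset (Fin n), J ⊆ A → M.Indep (J : Set (Fin n)) →
      ∃ T : Set (Fin n), M.Indep T ∧ T.ncard = s ∧ T ⊆ M.closure I ∧ T \ I = J := by
    intro J hJA hJ
    have hJcl : (J : Set (Fin n)) ⊆ M.closure I \ I := by
      rw [← hA]; exact Finset.coe_subset.2 hJA
    obtain ⟨T, hT, hJT⟩ := hJ.subset_isBasis_of_subset (Set.subset_union_left (t := I))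
      (by rw [hE]; exact Set.subset_univ _)
    have hJI : (J : Set (Fin n)) ∪ I ⊆ M.closure I :=
      Set.union_subset (fun x hx => (hJcl hx).1)
        (M.subset_closure _ (by rw [hE]; exact Set.subset_univ _))
    refine ⟨T, hT.indep, ?_, hT.subset.trans hJI, ?_⟩
    · rw [← indep_iff_rk.1 hT.indep]
      have h1 : rk M T = rk M ((J : Set (Fin n)) ∪ I) := by
        apply le_antisymm (rk_mono M hT.subset)
        exact rk_le_of_subset_closure hT.subset_closure
      rw [h1]
      apply le_antisymm
      · refine (rk_le_of_subset_closure hJI).trans ?_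
        rw [indep_iff_rk.1 hI, hIs]
      · rw [← hIs, ← indep_iff_rk.1 hI]
        exact rk_mono M Set.subset_union_right
    · ext x
      constructor
      · rintro ⟨hx, hxI⟩
        rcases hT.subset hx with h | h
        · exact h
        · exact absurd h hxI
      · intro hx
        exact ⟨hJT hx, (hJcl hx).2⟩
  choose! T hT using hex
  rw [← Set.ncard_coe_finset]
  refine Set.ncard_le_ncard_of_injOn T ?_ ?_ (Set.toFinite _)
  · intro J hJ
    rw [Finset.mem_coe, Finset.mem_filter, Finset.mem_powerset] at hJ
    obtain ⟨h1, h2, h3, -⟩ := hT J hJ.1 hJ.2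
    exact ⟨h1, h2, h3⟩
  · intro J hJ J' hJ' h
    rw [Finset.mem_coe, Finset.mem_filter, Finset.mem_powerset] at hJ hJ'
    have h1 := (hT J hJ.1 hJ.2).2.2.2
    have h2 := (hT J' hJ'.1 hJ'.2).2.2.2
    rw [h] at h1
    exact Finset.coe_injective (h1.symm.trans h2)

/-- subsets of a basis -/
lemma two_pow_le {M : Matroid (Fin n)} (hE : M.E = Set.univ) (A : Finset (Fin n)) :
    2 ^ rk M (A : Set (Fin n)) ≤
      (A.powerset.filter (fun J : Finset (Fin n) => M.Indep (J : Set (Fin n)))).card := by
  obtain ⟨B, hB⟩ := M.exists_isBasis (A : Set (Fin n)) (by rw [hE]; exact Set.subset_univ _)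
  obtain ⟨B, rfl⟩ : ∃ J' : Finset (Fin n), (J' : Set (Fin n)) = B :=
    ⟨B.toFinset, by simp⟩
  have h1 : rk M (A : Set (Fin n)) = B.card := by
    rw [← Set.ncard_coe_finset, ← indep_iff_rk.1 hB.indep]
    apply le_antisymm (rk_le_of_subset_closure hB.subset_closure)
    exact rk_mono M hB.subset
  rw [h1, ← Finset.card_powerset]
  apply Finset.card_le_card
  intro J hJ
  rw [Finset.mem_powerset] at hJ
  rw [Finset.mem_filter, Finset.mem_powerset]
  exact ⟨hJ.trans (Finset.coe_subset.1 hB.subset), hB.indep.subset (Finset.coe_subset.2 hJ)⟩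

/-- the number of independent `t`-subsets of `A` -/
lemma level {M : Matroid (Fin n)} (hE : M.E = Set.univ) {A : Finset (Fin n)} {a τ : ℕ}
    (hA : 2 * a ≤ A.card)
    (hτ : ∀ B : Finset (Fin n), B ⊆ A → a ≤ B.card → τ ≤ rk M (B : Set (Fin n))) :
    ∀ t ≤ τ, a ^ t ≤ t ! * ((A.powersetCard t).filter
      (fun J : Finset (Fin n) => M.Indep (J : Set (Fin n)))).card := by
  intro t
  induction t with
  | zero =>
    intro _
    rw [pow_zero, Nat.factorial_zero, one_mul, Nat.one_le_iff_ne_zero, Finset.card_ne_zero]
    refine ⟨∅, ?_⟩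
    rw [Finset.mem_filter, Finset.mem_powersetCard]
    refine ⟨⟨Finset.empty_subset _, rfl⟩, ?_⟩
    rw [Finset.coe_empty]
    exact M.empty_indep
  | succ t ih =>
    intro ht
    have hi := ih (by omega)
    set N0 := (A.powersetCard t).filter
      (fun J : Finset (Fin n) => M.Indep (J : Set (Fin n))) with hN0
    set N1 := (A.powersetCard (t + 1)).filter
      (fun J : Finset (Fin n) => M.Indep (J : Set (Fin n))) with hN1
    have key : N0.card * a ≤ N1.card * (t + 1) := by
      have h1 : N0.card * a ≤ (N0.sigma (fun J => A.filter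
          (fun x => x ∉ M.closure (J : Set (Fin n))))).card := by
        rw [Finset.card_sigma, ← smul_eq_mul]
        apply Finset.card_nsmul_le_sum
        intro J hJ
        rw [hN0, Finset.mem_filter, Finset.mem_powersetCard] at hJ
        have h2 : (A.filter (fun x => x ∈ M.closure (J : Set (Fin n)))).card < a := by
          by_contra hcon
          push Not at hcon
          have h3 := hτ _ (Finset.filter_subset _ _) hcon
          have h4 : rk M ((A.filter (fun x => x ∈ M.closure (J : Set (Fin n))) : Finset (Fin n)) :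
              Set (Fin n)) ≤ rk M (J : Set (Fin n)) := by
            apply rk_le_of_subset_closure
            intro x hx
            rw [Finset.mem_coe, Finset.mem_filter] at hx
            exact hx.2
          have h5 := rk_le_ncard M (J : Set (Fin n))
          rw [Set.ncard_coe_finset, hJ.1.2] at h5
          omega
        have h3 := Finset.card_filter_add_card_filter_not (s := A)
          (fun x => x ∈ M.closure (J : Set (Fin n)))
        omega
      have h2 : (N0.sigma (fun J => A.filter
          (fun x => x ∉ M.closure (J : Set (Fin n))))).card ≤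
          (N1.sigma (fun J => J)).card := by
        refine Finset.card_le_card_of_injOn (fun p => ⟨insert p.2 p.1, p.2⟩) ?_ ?_
        · rintro ⟨J, x⟩ hp
          rw [Finset.mem_coe, Finset.mem_sigma] at hp
          obtain ⟨hJ, hx⟩ := hp
          simp only at hJ hx
          rw [hN0, Finset.mem_filter, Finset.mem_powersetCard] at hJ
          rw [Finset.mem_filter] at hx
          have hxJ : x ∉ J := by
            intro h
            exact hx.2 (M.subset_closure _ (by rw [hE]; exact Set.subset_univ _)
              (Finset.mem_coe.2 h))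
          rw [Finset.mem_coe, Finset.mem_sigma]
          refine ⟨?_, Finset.mem_insert_self _ _⟩
          rw [hN1, Finset.mem_filter, Finset.mem_powersetCard]
          refine ⟨⟨Finset.insert_subset hx.1 hJ.1.1, ?_⟩, ?_⟩
          · rw [Finset.card_insert_of_notMem hxJ, hJ.1.2]
          · rw [Finset.coe_insert]
            rw [hJ.2.insert_indep_iff]
            exact Or.inl ⟨by rw [hE]; exact Set.mem_univ _, hx.2⟩
        · rintro ⟨J, x⟩ hp ⟨J', x'⟩ hp' h
          simp only [Sigma.mk.injEq] at h
          obtain ⟨h1, h2⟩ := h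
          have h3 : x = x' := eq_of_heq h2
          subst h3
          rw [Finset.mem_coe, Finset.mem_sigma] at hp hp'
          have hx := (Finset.mem_filter.1 hp.2).2
          have hx' := (Finset.mem_filter.1 hp'.2).2
          simp only at hx hx'
          have hxJ : x ∉ J := by
            intro h
            exact hx (M.subset_closure _ (by rw [hE]; exact Set.subset_univ _)
              (Finset.mem_coe.2 h))
          have hxJ' : x ∉ J' := by
            intro h
            exact hx' (M.subset_closure _ (by rw [hE]; exact Set.subset_univ _)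
              (Finset.mem_coe.2 h))
          have h4 : J = J' := by
            rw [← Finset.erase_insert hxJ, ← Finset.erase_insert hxJ', h1]
          subst h4
          rfl
      refine h1.trans (h2.trans ?_)
      rw [Finset.card_sigma, ← smul_eq_mul]
      apply Finset.sum_le_card_nsmul
      intro J hJ
      rw [hN1, Finset.mem_filter, Finset.mem_powersetCard] at hJ
      exact hJ.1.2.le
    calc a ^ (t + 1) = a ^ t * a := pow_succ a t
      _ ≤ t ! * N0.card * a := Nat.mul_le_mul_right _ hi
      _ = t ! * (N0.card * a) := by ring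
      _ ≤ t ! * (N1.card * (t + 1)) := Nat.mul_le_mul_left _ key
      _ = (t + 1)! * N1.card := by rw [Nat.factorial_succ]; ring

/-- sets with a large part in a set of small rank -/
lemma low_sets {M : Matroid (Fin n)} {B : Finset (Fin n)} {τ : ℕ}
    (hr : rk M (B : Set (Fin n)) ≤ τ) (hτ : τ + 2 ≤ s + 1) :
    B.card.choose (τ + 2) * (n - B.card).choose (s + 1 - (τ + 2)) ≤
      (Rm (trunc M s) s ∅).ncard := by
  have h1 : B.card.choose (τ + 2) * (n - B.card).choose (s + 1 - (τ + 2)) =
      ((B.powersetCard (τ + 2)) ×ˢ (Bᶜ.powersetCard (s + 1 - (τ + 2)))).card := by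
    rw [Finset.card_product, Finset.card_powersetCard, Finset.card_powersetCard,
      Finset.card_compl, Fintype.card_fin]
  rw [h1, ← Set.ncard_coe_finset]
  have hdis : ∀ Y Z : Finset (Fin n), Y ⊆ B → Z ⊆ Bᶜ → Disjoint Y Z := by
    intro Y Z hY hZ
    rw [Finset.disjoint_left]
    intro x hx hx'
    exact Finset.mem_compl.1 (hZ hx') (hY hx)
  refine Set.ncard_le_ncard_of_injOn
    (fun p : Finset (Fin n) × Finset (Fin n) => ((p.1 ∪ p.2 : Finset (Fin n)) : Set (Fin n)))
    ?_ ?_ (Set.toFinite _)
  · rintro ⟨Y, Z⟩ hp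
    rw [Finset.mem_coe, Finset.mem_product, Finset.mem_powersetCard, Finset.mem_powersetCard] at hp
    obtain ⟨⟨hY, hYc⟩, hZ, hZc⟩ := hp
    simp only at hY hYc hZ hZc
    refine ⟨?_, Or.inr ?_⟩
    · simp only
      rw [Set.ncard_coe_finset, Finset.card_union_of_disjoint (hdis Y Z hY hZ), hYc, hZc]
      omega
    · intro S hS hSc hSi
      obtain ⟨S, rfl⟩ : ∃ J' : Finset (Fin n), (J' : Set (Fin n)) = S :=
        ⟨S.toFinset, by simp⟩
      simp only [Finset.coe_subset] at hS
      rw [Set.ncard_coe_finset] at hSc
      have hSi' := (trunc_indep.1 hSi).1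
      have h2 : (S ∩ B).card ≤ τ := by
        have h3 : M.Indep ((S ∩ B : Finset (Fin n)) : Set (Fin n)) :=
          hSi'.subset (Finset.coe_subset.2 Finset.inter_subset_left)
        have h4 := indep_iff_rk.1 h3
        rw [Set.ncard_coe_finset] at h4
        rw [← h4]
        exact (rk_mono M (Finset.coe_subset.2 Finset.inter_subset_right)).trans hr
      have h3 : S \ B ⊆ Z := by
        intro x hx
        rw [Finset.mem_sdiff] at hx
        rcases Finset.mem_union.1 (hS hx.1) with h | h
        · exact absurd (hY h) hx.2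
        · exact h
      have h4 := Finset.card_le_card h3
      have h5 := Finset.card_inter_add_card_sdiff S B
      omega
  · rintro ⟨Y, Z⟩ hp ⟨Y', Z'⟩ hp' h
    rw [Finset.mem_coe, Finset.mem_product, Finset.mem_powersetCard, Finset.mem_powersetCard] at hp hp'
    simp only at hp hp' h
    have h2 := Finset.coe_injective h
    have hY : ∀ Y Z : Finset (Fin n), Y ⊆ B → Z ⊆ Bᶜ → (Y ∪ Z) ∩ B = Y ∧ (Y ∪ Z) \ B = Z := by
      intro Y Z hY hZ
      constructor
      · ext x
        rw [Finset.mem_inter, Finset.mem_union]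
        constructor
        · rintro ⟨h1 | h1, h2⟩
          · exact h1
          · exact absurd h2 (Finset.mem_compl.1 (hZ h1))
        · intro h1
          exact ⟨Or.inl h1, hY h1⟩
      · ext x
        rw [Finset.mem_sdiff, Finset.mem_union]
        constructor
        · rintro ⟨h1 | h1, h2⟩
          · exact absurd (hY h1) h2
          · exact h1
        · intro h1
          exact ⟨Or.inr h1, Finset.mem_compl.1 (hZ h1)⟩
    have a1 := hY Y Z hp.1.1 hp.2.1
    have a2 := hY Y' Z' hp'.1.1 hp'.2.1
    rw [h2] at a1
    rw [← a1.1, ← a1.2, a2.1, a2.2]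

end TFLAT

open Classical in
open TFLAT in
theorem stmt_FLAT : Stmt_FLAT := by
  intro n s Λ a κ M I hE hκ halt hI hIs hbn
  by_contra hcon
  push Not at hcon
  obtain ⟨A, hA⟩ : ∃ A : Finset (Fin n), (A : Set (Fin n)) = M.closure I \ I :=
    ⟨(M.closure I \ I).toFinset, by simp⟩
  rw [← hA, Set.ncard_coe_finset] at hcon
  have h1 := (indep_le_bn hE hI hIs hA).trans_lt hbn
  -- the set with minimal rank
  obtain ⟨B0, hB0, hmin⟩ := Finset.exists_min_image
    (A.powerset.filter (fun B : Finset (Fin n) => a ≤ B.card))
    (fun B : Finset (Fin n) => rk M (B : Set (Fin n)))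
    ⟨A, by rw [Finset.mem_filter, Finset.mem_powerset]; exact ⟨Finset.Subset.refl _, by omega⟩⟩
  rw [Finset.mem_filter, Finset.mem_powerset] at hB0
  obtain ⟨τ, hτ⟩ : ∃ τ, τ = rk M (B0 : Set (Fin n)) := ⟨_, rfl⟩
  have hmin' : ∀ B : Finset (Fin n), B ⊆ A → a ≤ B.card → τ ≤ rk M (B : Set (Fin n)) := by
    intro B hB hBa
    rw [hτ]
    exact hmin B (by rw [Finset.mem_filter, Finset.mem_powerset]; exact ⟨hB, hBa⟩)
  have h2 : 2 ^ τ < Λ := by
    refine lt_of_le_of_lt ?_ h1
    refine le_trans ?_ (two_pow_le hE A)
    exact Nat.pow_le_pow_right (by norm_num) (hmin' A (Finset.Subset.refl _) (by omega))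
  rcases halt τ h2 with h3 | ⟨h3, h4⟩
  · have h4 := level hE hcon hmin' τ le_rfl
    have h5 : Λ ≤ ((A.powersetCard τ).filter
        (fun J : Finset (Fin n) => M.Indep (J : Set (Fin n)))).card :=
      Nat.le_of_mul_le_mul_left (h3.trans h4) (Nat.factorial_pos τ)
    have h6 : ((A.powersetCard τ).filter
        (fun J : Finset (Fin n) => M.Indep (J : Set (Fin n)))).card ≤
        (A.powerset.filter (fun J : Finset (Fin n) => M.Indep (J : Set (Fin n)))).card := by
      apply Finset.card_le_card
      intro J hJ
      rw [Finset.mem_filter, Finset.mem_powersetCard] at hJ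
      rw [Finset.mem_filter, Finset.mem_powerset]
      exact ⟨hJ.1.1, hJ.2⟩
    omega
  · obtain ⟨B, hBB, hBa⟩ := Finset.exists_subset_card_eq hB0.2
    have h5 : rk M (B : Set (Fin n)) ≤ τ := by
      rw [hτ]
      exact rk_mono M (Finset.coe_subset.2 hBB)
    have h6 := low_sets (s := s) h5 h3
    rw [hBa] at h6
    have h7 := h4.trans (Nat.mul_le_mul_left κ h6)
    omega

end Pool.Agent.Work.MP_f3d170_co_helper44
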