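import Mathlib
import Pool.Agent.Work.MP_f3d170_co_helper44.Interface

/-!
# MP_f3d170_co, near-linear threshold: block NCN (helper90)
-/

set_option autoImplicit false

open Set Matroid Nat
open Pool.Agent.Work.MP_f3d170_co_h45
open Pool.Agent.Work.MP_f3d170_co_helper60
open Pool.Agent.Work.MP_f3d170_co_helper60b

namespace Pool.Agent.Work.MP_f3d170_co_helper44.helper90

variable {n s : ℕ}

/-- double counting -/
theorem dcount {α β γ δ : Type} (A : Finset α) (Tr : α → Finset β) (S : Finset γ)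
    (Q : γ → Finset δ) (t q c : ℕ) (h1 : ∀ a ∈ A, t ≤ c * (Tr a).card)
    (h2 : ∀ I ∈ S, (Q I).card ≤ q) (f : α → β → γ) (g : α → β → δ)
    (h3 : ∀ a ∈ A, ∀ b ∈ Tr a, f a b ∈ S ∧ g a b ∈ Q (f a b))
    (h4 : ∀ a ∈ A, ∀ b ∈ Tr a, ∀ a' ∈ A, ∀ b' ∈ Tr a', f a b = f a' b' → g a b = g a' b' →
      a = a' ∧ b = b') :
    t * A.card ≤ c * (q * S.card) := by
  have e1 : (A.sigma Tr).card ≤ (S.sigma Q).card := by
    refine Finset.card_le_card_of_injOn (fun x => ⟨f x.1 x.2, g x.1 x.2⟩) ?_ ?_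
    · intro x hx
      have hx' := Finset.mem_sigma.1 (Finset.mem_coe.1 hx)
      exact Finset.mem_coe.2 (Finset.mem_sigma.2 (h3 x.1 hx'.1 x.2 hx'.2))
    · rintro ⟨a, b⟩ hx ⟨a', b'⟩ hx' h
      have hx := Finset.mem_sigma.1 (Finset.mem_coe.1 hx)
      have hx' := Finset.mem_sigma.1 (Finset.mem_coe.1 hx')
      simp only [Sigma.mk.injEq] at h
      obtain ⟨h5, h6⟩ := h
      have h6 := eq_of_heq h6
      obtain ⟨h7, h8⟩ := h4 a hx.1 b hx.2 a' hx'.1 b' hx'.2 h5 h6
      rw [h7, h8]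
  rw [Finset.card_sigma, Finset.card_sigma] at e1
  have e2 : ∑ a ∈ A, t ≤ ∑ a ∈ A, c * (Tr a).card := Finset.sum_le_sum h1
  have e3 : ∑ I ∈ S, (Q I).card ≤ ∑ _I ∈ S, q := Finset.sum_le_sum h2
  rw [Finset.sum_const, smul_eq_mul, ← Finset.mul_sum] at e2
  rw [Finset.sum_const, smul_eq_mul] at e3
  calc t * A.card = A.card * t := mul_comm _ _
    _ ≤ c * ∑ a ∈ A, (Tr a).card := e2
    _ ≤ c * ∑ I ∈ S, (Q I).card := Nat.mul_le_mul_left _ e1
    _ ≤ c * (S.card * q) := Nat.mul_le_mul_left _ e3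
    _ = c * (q * S.card) := by rw [mul_comm q]

/-- number of sets with `k` elements -/
theorem card_sets (n k : ℕ) : {X : Set (Fin n) | X.ncard = k}.ncard = n.choose k := by
  have h : {X : Set (Fin n) | X.ncard = k} =
      (fun F : Finset (Fin n) => (F : Set (Fin n))) ''
        ((Finset.powersetCard k (Finset.univ : Finset (Fin n)) : Finset (Finset (Fin n))) :
          Set (Finset (Fin n))) := by
    ext X
    simp only [Set.mem_ofPred_eq, Set.mem_image, Finset.mem_coe, Finset.mem_powersetCard]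
    constructor
    · intro hX
      refine ⟨(Set.toFinite X).toFinset, ⟨Finset.subset_univ _, ?_⟩, by simp⟩
      rw [← hX, Set.ncard_eq_toFinset_card X (Set.toFinite X)]
    · rintro ⟨F, ⟨-, hF⟩, rfl⟩
      rw [Set.ncard_coe_finset, hF]
  rw [h, Set.ncard_image_of_injective _ Finset.coe_injective, Set.ncard_coe_finset,
    Finset.card_powersetCard, Finset.card_univ, Fintype.card_fin]

/-- the chosen circuit of a flat -/
theorem exists_D {M : Matroid (Fin n)} {P : Set (Fin n)} (h : HasGen M s P) :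
    ∃ D ⊆ P, D.ncard = s + 1 ∧ Gen M s D := by
  obtain ⟨A, hA, hAc, hG⟩ := h
  obtain ⟨D, hD, hDc⟩ := Set.exists_subset_card_eq hAc
  exact ⟨D, hD.trans hA, hDc, fun S hS hSc => hG S (hS.trans hD) hSc⟩

theorem circ_D {M : Matroid (Fin n)} (hE : M.E = Set.univ) {P D : Set (Fin n)}
    (hP : IsHyp M s P) (hD : D ⊆ P) (hDc : D.ncard = s + 1) (hG : Gen M s D) :
    M.IsCircuit D := by
  rw [isCircuit_iff_dep_forall_sdiff_singleton_indep]
  constructor
  · rw [← not_indep_iff (by rw [hE]; exact Set.subset_univ _)]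
    intro hind
    have h1 := rk_mono M hD
    rw [indep_iff_rk.1 hind, hP.2] at h1
    omega
  · intro e he
    apply hG _ Set.sdiff_subset
    rw [Set.ncard_sdiff_singleton_of_mem he]
    omega

theorem sub_D {M : Matroid (Fin n)} (hE : M.E = Set.univ) {P D : Set (Fin n)}
    (hP : IsHyp M s P) (hD : D ⊆ P) (hDc : D.ncard = s + 1) (hG : Gen M s D) {x : Fin n}
    (hx : x ∈ D) : P = M.closure (D \ {x}) := by
  have h1 : (D \ {x}).ncard = s := by
    rw [Set.ncard_sdiff_singleton_of_mem hx]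
    omega
  have h2 : M.Indep (D \ {x}) := hG _ Set.sdiff_subset h1
  refine hP.eq_closure hE (Set.sdiff_subset.trans hD) ?_
  rw [indep_iff_rk.1 h2, h1]

theorem rk_insert {M : Matroid (Fin n)} (hE : M.E = Set.univ) {P : Set (Fin n)} {y : Fin n}
    (hP : IsHyp M s P) (hy : y ∉ P) : IsHyp M (s + 1) (M.closure (insert y P)) := by
  refine closure_isHyp ?_
  have h1 : M.eRk (insert y P) = M.eRk P + 1 := by
    refine eRk_insert_eq_add_one ⟨by rw [hE]; trivial, ?_⟩
    rw [hP.1]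
    exact hy
  have h2 : ((rk M (insert y P) : ℕ) : ℕ∞) = ((s + 1 : ℕ) : ℕ∞) := by
    rw [coe_rk, h1, ← coe_rk, hP.2]
    simp
  exact_mod_cast h2

theorem two_mul_compl (G : Set (Fin n)) (h : 2 * G.ncard ≤ n) : n ≤ 2 * Gᶜ.ncard := by
  have h1 := Set.ncard_add_ncard_compl G
  rw [Nat.card_fin] at h1
  omega

/-- the allowed `y` -/
def YY (Λ : ℕ) (M : Matroid (Fin n)) (s : ℕ) (P : Set (Fin n)) : Set (Fin n) :=
  {y | y ∉ P ∧ ∀ G ∈ Lg Λ M (s + 1), P ⊆ G → y ∉ G}

theorem YY_card {Λ : ℕ} {M : Matroid (Fin n)} {P : Set (Fin n)} (hP : P ∈ NCn Λ M s)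
    (h8 : 8 * P.ncard ≤ 3 * n) : n ≤ 2 * (YY Λ M s P).ncard := by
  by_cases h : ∃ G ∈ Lg Λ M (s + 1), P ⊆ G
  · obtain ⟨G, hG, hPG⟩ := h
    refine (two_mul_compl G (hP.2 G hG hPG)).trans (Nat.mul_le_mul_left _ ?_)
    refine Set.ncard_le_ncard ?_ (Set.toFinite _)
    intro y hy
    refine ⟨fun hyP => hy (hPG hyP), ?_⟩
    intro G' hG' hPG'
    by_cases hGG : G = G'
    · rw [← hGG]
      exact hy
    · exact absurd (Or.inr ⟨G, hG, G', hG', hGG, hPG, hPG'⟩) hP.1.2.2
  · push Not at h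
    refine (two_mul_compl P (by omega)).trans (Nat.mul_le_mul_left _ ?_)
    refine Set.ncard_le_ncard ?_ (Set.toFinite _)
    intro y hy
    exact ⟨hy, fun G hG hPG => absurd hPG (h G hG)⟩

theorem bn_YY {Λ : ℕ} {M : Matroid (Fin n)} (hE : M.E = Set.univ) {P : Set (Fin n)}
    (hP : IsHyp M s P) {y : Fin n} (hy : y ∈ YY Λ M s P) :
    bn M (s + 1) (M.closure (insert y P)) < Λ := by
  by_contra hcon
  push Not at hcon
  have hsub : insert y P ⊆ M.closure (insert y P) :=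
    M.subset_closure _ (by rw [hE]; exact Set.subset_univ _)
  exact hy.2 _ ⟨rk_insert hE hP hy.1, hcon⟩ ((Set.subset_insert y P).trans hsub)
    (hsub (Set.mem_insert y P))

/-- the key of the injectivity -/
theorem key {M : Matroid (Fin n)} (hE : M.E = Set.univ) {P P' : Set (Fin n)}
    {D : Set (Fin n) → Set (Fin n)} (hP : IsHyp M s P) (hP' : IsHyp M s P')
    (hD : D P ⊆ P ∧ (D P).ncard = s + 1 ∧ Gen M s (D P))
    (hD' : D P' ⊆ P' ∧ (D P').ncard = s + 1 ∧ Gen M s (D P')) {x x' y : Fin n}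
    (hx : x ∈ D P) (hx' : x' ∈ D P') (hy : y ∉ P) (hy' : y ∉ P')
    (h : insert y (D P \ {x}) = insert y (D P' \ {x'})) : P = P' ∧ x = x' := by
  have h1 : D P \ {x} = D P' \ {x'} := by
    have e1 : insert y (D P \ {x}) \ {y} = D P \ {x} := by
      rw [Set.insert_sdiff_of_mem _ (Set.mem_singleton y), Set.sdiff_singleton_eq_self]
      exact fun h => hy (hD.1 h.1)
    have e2 : insert y (D P' \ {x'}) \ {y} = D P' \ {x'} := by
      rw [Set.insert_sdiff_of_mem _ (Set.mem_singleton y), Set.sdiff_singleton_eq_self]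
      exact fun h => hy' (hD'.1 h.1)
    rw [← e1, ← e2, h]
  have h2 : P = P' := by
    rw [sub_D hE hP hD.1 hD.2.1 hD.2.2 hx, sub_D hE hP' hD'.1 hD'.2.1 hD'.2.2 hx', h1]
  subst h2
  refine ⟨rfl, ?_⟩
  by_contra hne
  have h3 : x ∈ D P \ {x'} := ⟨hx, hne⟩
  rw [← h1] at h3
  exact h3.2 rfl

end Pool.Agent.Work.MP_f3d170_co_helper44.helper90

namespace Pool.Agent.Work.MP_f3d170_co_helper44

open helper90 Classical

theorem stmt_NCN : Stmt_NCN := by
  intro n s Λ q M hE h8 hM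
  have hex : ∀ P : Set (Fin n), ∃ D : Set (Fin n), P ∈ NC Λ M s →
      D ⊆ P ∧ D.ncard = s + 1 ∧ Gen M s D := by
    intro P
    by_cases hP : P ∈ NC Λ M s
    · obtain ⟨D, h1, h2, h3⟩ := exists_D hP.2.1
      exact ⟨D, fun _ => ⟨h1, h2, h3⟩⟩
    · exact ⟨∅, fun h => absurd h hP⟩
  choose D hD using hex
  -- the data
  obtain ⟨XX, hXX⟩ : ∃ XX : Set (Fin n) → Fin n → Set (Fin n), XX = fun P y =>
    {x | x ∈ D P ∧ (QQ M (insert y (D P \ {x}))).ncard ≤ q} := ⟨_, rfl⟩
  have hXc : ∀ P ∈ NCn Λ M s, ∀ y ∈ YY Λ M s P, s + 1 ≤ 2 * (XX P y).ncard := by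
    intro P hP y hy
    have h1 := hD P hP.1
    rw [hXX]
    exact hM P (D P) y hP.1.1 h1.1 h1.2.1 (circ_D hE hP.1.1 h1.1 h1.2.1 h1.2.2) hy.1
      (bn_YY hE hP.1.1 hy)
  have hmain := dcount (NCn Λ M s).toFinset
    (fun P => (YY Λ M s P).toFinset.sigma (fun y => (XX P y).toFinset))
    ({I : Set (Fin n) | I.ncard = s + 1 ∧ (QQ M I).ncard ≤ q}).toFinset
    (fun I => (QQ M I).toFinset) ((s + 1) * n) q 4
    (by
      intro P hP
      rw [Set.mem_toFinset] at hP
      rw [Finset.card_sigma]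
      have h1 : ∑ y ∈ (YY Λ M s P).toFinset, (s + 1) ≤
          ∑ y ∈ (YY Λ M s P).toFinset, 2 * (XX P y).toFinset.card := by
        refine Finset.sum_le_sum fun y hy => ?_
        rw [Set.mem_toFinset] at hy
        rw [← Set.ncard_eq_toFinset_card']
        exact hXc P hP y hy
      rw [Finset.sum_const, smul_eq_mul, ← Finset.mul_sum, ← Set.ncard_eq_toFinset_card'] at h1
      have h2 := YY_card hP (h8 P hP.1)
      calc (s + 1) * n ≤ (s + 1) * (2 * (YY Λ M s P).ncard) := Nat.mul_le_mul_left _ h2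
        _ = 2 * ((YY Λ M s P).ncard * (s + 1)) := by ring
        _ ≤ 2 * (2 * ∑ y ∈ (YY Λ M s P).toFinset, (XX P y).toFinset.card) :=
          Nat.mul_le_mul_left _ h1
        _ = 4 * ∑ y ∈ (YY Λ M s P).toFinset, (XX P y).toFinset.card := by ring)
    (by
      intro I hI
      rw [Set.mem_toFinset] at hI
      rw [← Set.ncard_eq_toFinset_card']
      exact hI.2)
    (fun P b => insert b.1 (D P \ {b.2})) (fun _ b => b.1)
    (by
      rintro P hP ⟨y, x⟩ hb
      rw [Finset.mem_sigma, Set.mem_toFinset, Set.mem_toFinset] at hb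
      rw [Set.mem_toFinset] at hP
      obtain ⟨hy, hx⟩ := hb
      simp only at hx hy
      rw [hXX] at hx
      have h1 := hD P hP.1
      have hyD : y ∉ D P := fun h => hy.1 (h1.1 h)
      rw [Set.mem_toFinset, Set.mem_toFinset]
      refine ⟨⟨?_, hx.2⟩, Set.mem_insert _ _, x, ?_, ?_⟩
      · rw [Set.ncard_insert_of_notMem (fun h => hyD h.1) (Set.toFinite _),
          Set.ncard_sdiff_singleton_of_mem hx.1, h1.2.1]
        omega
      · rintro (h | h)
        · have h : x = y := h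
          apply hyD
          rw [← h]
          exact hx.1
        · exact h.2 rfl
      · simp only
        rw [Set.insert_sdiff_of_mem _ (Set.mem_singleton y), Set.sdiff_singleton_eq_self
          (fun h => hyD h.1), Set.insert_sdiff_singleton, Set.insert_eq_of_mem hx.1]
        exact circ_D hE hP.1.1 h1.1 h1.2.1 h1.2.2)
    (by
      rintro P hP ⟨y, x⟩ hb P' hP' ⟨y', x'⟩ hb' h h'
      rw [Finset.mem_sigma, Set.mem_toFinset, Set.mem_toFinset] at hb hb'
      rw [Set.mem_toFinset] at hP hP'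
      rw [hXX] at hb hb'
      simp only at h h' hb hb'
      subst h'
      obtain ⟨h3, h4⟩ := key hE hP.1.1 hP'.1.1 (hD P hP.1) (hD P' hP'.1) hb.2.1 hb'.2.1
        hb.1.1 hb'.1.1 h
      subst h4
      exact ⟨h3, rfl⟩)
  rw [← Set.ncard_eq_toFinset_card', ← Set.ncard_eq_toFinset_card'] at hmain
  have h5 : {I : Set (Fin n) | I.ncard = s + 1 ∧ (QQ M I).ncard ≤ q}.ncard ≤
      n.choose (s + 1) := by
    rw [← card_sets n (s + 1)]
    exact Set.ncard_le_ncard (fun I hI => hI.1) (Set.toFinite _)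
  calc (s + 1) * n * (NCn Λ M s).ncard ≤ 4 * (q * _) := hmain
    _ ≤ 4 * (q * n.choose (s + 1)) := Nat.mul_le_mul_left _ (Nat.mul_le_mul_left _ h5)
    _ = 4 * q * n.choose (s + 1) := by ring

end Pool.Agent.Work.MP_f3d170_co_helper44
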