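import Mathlib
import Pool.Agent.Work.MP_f3d170_co_helper44.TNCN

/-!
# MP_f3d170_co, near-linear threshold: block GX (helper90)
-/

set_option autoImplicit false

open Set Matroid Nat
open Pool.Agent.Work.MP_f3d170_co_h45
open Pool.Agent.Work.MP_f3d170_co_helper60
open Pool.Agent.Work.MP_f3d170_co_helper60b

namespace Pool.Agent.Work.MP_f3d170_co_helper44.helper90

open Classical

variable {n s : ℕ}

/-- upper shadows -/
theorem shadow (A B : Set (Set (Fin n))) (i t c : ℕ)
    (hA : ∀ Z ∈ A, t ≤ c * {z | z ∉ Z ∧ insert z Z ∈ B}.ncard) (hB : ∀ W ∈ B, W.ncard = i) :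
    t * A.ncard ≤ c * (i * B.ncard) := by
  have hmain := dcount A.toFinset (fun Z => {z | z ∉ Z ∧ insert z Z ∈ B}.toFinset) B.toFinset
    (fun W => (Set.toFinite W).toFinset) t i c
    (by
      intro Z hZ
      rw [Set.mem_toFinset] at hZ
      rw [← Set.ncard_eq_toFinset_card']
      exact hA Z hZ)
    (by
      intro W hW
      rw [Set.mem_toFinset] at hW
      rw [← Set.ncard_eq_toFinset_card]
      exact (hB W hW).le)
    (fun Z z => insert z Z) (fun _ z => z)
    (by
      intro Z _ z hz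
      rw [Set.mem_toFinset] at hz
      rw [Set.mem_toFinset, Set.Finite.mem_toFinset]
      exact ⟨hz.2, Set.mem_insert _ _⟩)
    (by
      intro Z _ z hz Z' _ z' hz' h h'
      rw [Set.mem_toFinset] at hz hz'
      have h : insert z Z = insert z' Z' := h
      have h' : z = z' := h'
      subst h'
      refine ⟨?_, rfl⟩
      have e1 : insert z Z \ {z} = Z := by
        rw [Set.insert_sdiff_of_mem _ (Set.mem_singleton z), Set.sdiff_singleton_eq_self]
        exact hz.1
      have e2 : insert z Z' \ {z} = Z' := by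
        rw [Set.insert_sdiff_of_mem _ (Set.mem_singleton z), Set.sdiff_singleton_eq_self]
        exact hz'.1
      rw [← e1, ← e2, h])
  rw [← Set.ncard_eq_toFinset_card', ← Set.ncard_eq_toFinset_card'] at hmain
  exact hmain

/-- density of the sets in giants -/
theorem gi_step (Λ : ℕ) (M : Matroid (Fin n)) (j i : ℕ) (hi : 6 * i ≤ n) :
    2 * (Gi Λ M j i).ncard * n.choose (i + 1) ≤ 5 * (Gi Λ M j (i + 1)).ncard * n.choose i := by
  have h1 := shadow (Gi Λ M j i) (Gi Λ M j (i + 1)) (i + 1) (2 * (n - i)) 5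
    (by
      rintro Z ⟨hZ, G, hG, hGn, hZG⟩
      have h2 : G \ Z ⊆ {z | z ∉ Z ∧ insert z Z ∈ Gi Λ M j (i + 1)} := by
        intro z hz
        refine ⟨hz.2, ?_, G, hG, hGn, Set.insert_subset hz.1 hZG⟩
        rw [Set.ncard_insert_of_notMem hz.2 (Set.toFinite _), hZ]
      have h3 := Set.ncard_le_ncard h2 (Set.toFinite _)
      have h4 := Set.ncard_sdiff_add_ncard_of_subset hZG (Set.toFinite _)
      omega)
    (fun W hW => hW.1)
  have h5 := Nat.choose_succ_right_eq n i
  -- C(n,i+1) (i+1) = C(n,i) (n-i)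
  refine Nat.le_of_mul_le_mul_left (c := i + 1) ?_ (Nat.succ_pos i)
  calc (i + 1) * (2 * (Gi Λ M j i).ncard * n.choose (i + 1))
      = 2 * (Gi Λ M j i).ncard * (n.choose (i + 1) * (i + 1)) := by ring
    _ = 2 * (Gi Λ M j i).ncard * (n.choose i * (n - i)) := by rw [h5]
    _ = (2 * (n - i) * (Gi Λ M j i).ncard) * n.choose i := by ring
    _ ≤ (5 * ((i + 1) * (Gi Λ M j (i + 1)).ncard)) * n.choose i := Nat.mul_le_mul_right _ h1
    _ = (i + 1) * (5 * (Gi Λ M j (i + 1)).ncard * n.choose i) := by ring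

/-- the `i`-sets of rank at most `i - 2` -/
def LL (M : Matroid (Fin n)) (i : ℕ) : Set (Set (Fin n)) := {X | X.ncard = i ∧ rk M X + 2 ≤ i}

theorem rk_insert_le (M : Matroid (Fin n)) (X : Set (Fin n)) (z : Fin n) :
    rk M (insert z X) ≤ rk M X + 1 := by
  have h := M.eRk_insert_le_add_one z X
  rw [← coe_rk, ← coe_rk] at h
  exact_mod_cast h

theorem ll_step (M : Matroid (Fin n)) (i : ℕ) :
    (LL M i).ncard * n.choose (i + 1) ≤ (LL M (i + 1)).ncard * n.choose i := by
  have h1 := shadow (LL M i) (LL M (i + 1)) (i + 1) (n - i) 1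
    (by
      rintro Z ⟨hZ, hr⟩
      have h2 : Zᶜ ⊆ {z | z ∉ Z ∧ insert z Z ∈ LL M (i + 1)} := by
        intro z hz
        refine ⟨hz, ?_, ?_⟩
        · rw [Set.ncard_insert_of_notMem hz (Set.toFinite _), hZ]
        · have := rk_insert_le M Z z
          omega
      have h3 := Set.ncard_le_ncard h2 (Set.toFinite _)
      have h4 := Set.ncard_add_ncard_compl Z
      rw [Nat.card_fin] at h4
      omega)
    (fun W hW => hW.1)
  have h5 := Nat.choose_succ_right_eq n i
  refine Nat.le_of_mul_le_mul_left (c := i + 1) ?_ (Nat.succ_pos i)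
  calc (i + 1) * ((LL M i).ncard * n.choose (i + 1))
      = (LL M i).ncard * (n.choose (i + 1) * (i + 1)) := by ring
    _ = (LL M i).ncard * (n.choose i * (n - i)) := by rw [h5]
    _ = ((n - i) * (LL M i).ncard) * n.choose i := by ring
    _ ≤ (1 * ((i + 1) * (LL M (i + 1)).ncard)) * n.choose i := Nat.mul_le_mul_right _ h1
    _ = (i + 1) * ((LL M (i + 1)).ncard * n.choose i) := by ring

theorem ll_mono (M : Matroid (Fin n)) (i k : ℕ) (hk : i + k ≤ n) :
    (LL M i).ncard * n.choose (i + k) ≤ (LL M (i + k)).ncard * n.choose i := by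
  induction k with
  | zero => exact le_rfl
  | succ k ih =>
    have h1 := ih (by omega)
    have h2 := ll_step M (i + k)
    have h3 : 0 < n.choose (i + k) := Nat.choose_pos (by omega)
    refine Nat.le_of_mul_le_mul_left (c := n.choose (i + k)) ?_ h3
    calc n.choose (i + k) * ((LL M i).ncard * n.choose (i + (k + 1)))
        = ((LL M i).ncard * n.choose (i + k)) * n.choose (i + k + 1) := by
          rw [show i + (k + 1) = i + k + 1 from by ring]; ring
      _ ≤ ((LL M (i + k)).ncard * n.choose i) * n.choose (i + k + 1) :=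
          Nat.mul_le_mul_right _ h1
      _ = ((LL M (i + k)).ncard * n.choose (i + k + 1)) * n.choose i := by ring
      _ ≤ ((LL M (i + k + 1)).ncard * n.choose (i + k)) * n.choose i :=
          Nat.mul_le_mul_right _ h2
      _ = n.choose (i + k) * ((LL M (i + (k + 1))).ncard * n.choose i) := by
          rw [show i + (k + 1) = i + k + 1 from by ring]; ring

theorem ll_sub (M : Matroid (Fin n)) (s : ℕ) (𝓖 : Set (Set (Fin n))) :
    LL M (s + 1) ⊆ Rm (trunc M s) s 𝓖 := by
  rintro X ⟨hX, hr⟩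
  refine ⟨hX, Or.inr ?_⟩
  intro S hS hSc hind
  have h1 := (trunc_indep.1 hind).1
  have h2 := rk_mono M hS
  rw [indep_iff_rk.1 h1, hSc] at h2
  omega

theorem gi_ll {Λ : ℕ} (M : Matroid (Fin n)) (j : ℕ) : Gi Λ M j (j + 2) ⊆ LL M (j + 2) := by
  rintro X ⟨hX, G, hG, -, hXG⟩
  refine ⟨hX, ?_⟩
  have h1 := rk_mono M hXG
  rw [hG.1.2] at h1
  omega

end Pool.Agent.Work.MP_f3d170_co_helper44.helper90

namespace Pool.Agent.Work.MP_f3d170_co_helper44

open helper90

theorem stmt_GX : Stmt_GX := by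
  intro n s j Λ M _ _ hj hn
  obtain ⟨R, hR⟩ : ∃ R, R = (Rm (trunc M s) s (Lg Λ M s)).ncard := ⟨_, rfl⟩
  rw [← hR]
  rcases hj.lt_or_eq with hlt | rfl
  · have h1 := gi_step Λ M j j (by omega)
    have h2 := gi_step Λ M j (j + 1) (by omega)
    have h3 := ll_mono M (j + 2) (s + 1 - (j + 2)) (by omega)
    rw [show j + 2 + (s + 1 - (j + 2)) = s + 1 from by omega] at h3
    have h4 : (Gi Λ M j (j + 2)).ncard ≤ (LL M (j + 2)).ncard :=
      Set.ncard_le_ncard (gi_ll M j) (Set.toFinite _)
    have h5 : (LL M (s + 1)).ncard ≤ R := by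
      rw [hR]
      exact Set.ncard_le_ncard (ll_sub M s _) (Set.toFinite _)
    have p1 : 0 < n.choose (j + 1) := Nat.choose_pos (by omega)
    have p2 : 0 < n.choose (j + 2) := Nat.choose_pos (by omega)
    refine Nat.le_of_mul_le_mul_left (c := n.choose (j + 1) * n.choose (j + 2)) ?_
      (Nat.mul_pos p1 p2)
    calc n.choose (j + 1) * n.choose (j + 2) * (4 * (Gi Λ M j j).ncard * n.choose (s + 1))
        = (2 * (Gi Λ M j j).ncard * n.choose (j + 1)) *
            (2 * n.choose (j + 2) * n.choose (s + 1)) := by ring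
      _ ≤ (5 * (Gi Λ M j (j + 1)).ncard * n.choose j) *
            (2 * n.choose (j + 2) * n.choose (s + 1)) := Nat.mul_le_mul_right _ h1
      _ = (2 * (Gi Λ M j (j + 1)).ncard * n.choose (j + 1 + 1)) *
            (5 * n.choose j * n.choose (s + 1)) := by
          rw [show j + 1 + 1 = j + 2 from rfl]; ring
      _ ≤ (5 * (Gi Λ M j (j + 1 + 1)).ncard * n.choose (j + 1)) *
            (5 * n.choose j * n.choose (s + 1)) := Nat.mul_le_mul_right _ h2
      _ = (25 * n.choose j * n.choose (j + 1)) * ((Gi Λ M j (j + 2)).ncard *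
            n.choose (s + 1)) := by
          rw [show j + 1 + 1 = j + 2 from rfl]; ring
      _ ≤ (25 * n.choose j * n.choose (j + 1)) * ((LL M (j + 2)).ncard *
            n.choose (s + 1)) := Nat.mul_le_mul_left _ (Nat.mul_le_mul_right _ h4)
      _ ≤ (25 * n.choose j * n.choose (j + 1)) * ((LL M (s + 1)).ncard *
            n.choose (j + 2)) := Nat.mul_le_mul_left _ h3
      _ ≤ (25 * n.choose j * n.choose (j + 1)) * (R *
            n.choose (j + 2)) := Nat.mul_le_mul_left _ (Nat.mul_le_mul_right _ h5)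
      _ = n.choose (j + 1) * n.choose (j + 2) * (25 * R * n.choose j) := by ring
  · have h1 := gi_step Λ M j j (by omega)
    have h2 : (Gi Λ M j (j + 1)).ncard ≤ R := by
      rw [hR]
      refine Set.ncard_le_ncard ?_ (Set.toFinite _)
      rintro X ⟨hX, G, hG, -, hXG⟩
      exact ⟨hX, Or.inl ⟨G, hG, hXG⟩⟩
    calc 4 * (Gi Λ M j j).ncard * n.choose (j + 1)
        = 2 * (2 * (Gi Λ M j j).ncard * n.choose (j + 1)) := by ring
      _ ≤ 2 * (5 * (Gi Λ M j (j + 1)).ncard * n.choose j) := Nat.mul_le_mul_left _ h1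
      _ = 10 * (Gi Λ M j (j + 1)).ncard * n.choose j := by ring
      _ ≤ 25 * R * n.choose j := by
          refine Nat.mul_le_mul_right _ ?_
          exact Nat.mul_le_mul (by norm_num) h2

end Pool.Agent.Work.MP_f3d170_co_helper44
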