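import Pool.Agent.Work.MP_f3d170_co_helper44.Interface

set_option autoImplicit false

open Set Matroid Nat
open Pool.Agent.Work.MP_f3d170_co_h45
open Pool.Agent.Work.MP_f3d170_co_helper60
open Pool.Agent.Work.MP_f3d170_co_helper60b

namespace Pool.Agent.Work.MP_f3d170_co_helper44.LIST

variable {n : ℕ}

lemma exists_basis {M : Matroid (Fin n)} (hE : M.E = Set.univ) {j : ℕ} {G : Set (Fin n)}
    (hG : IsHyp M j G) : ∃ I, M.Indep I ∧ I.ncard = j ∧ I ⊆ G := by
  obtain ⟨I, hI⟩ := M.exists_isBasis G (by rw [hE]; exact Set.subset_univ _)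
  refine ⟨I, hI.indep, ?_, hI.subset⟩
  have h1 := indep_iff_rk.1 hI.indep
  rw [← h1, ← hG.2, rk_eq_iff]
  exact hI.eRk_eq_eRk

open Classical in
/-- a basis -/
noncomputable def bas (M : Matroid (Fin n)) (j : ℕ) (G : Set (Fin n)) : Set (Fin n) :=
  if h : ∃ I, M.Indep I ∧ I.ncard = j ∧ I ⊆ G then h.choose else ∅

lemma bas_spec {M : Matroid (Fin n)} (hE : M.E = Set.univ) {j : ℕ} {G : Set (Fin n)}
    (hG : IsHyp M j G) : M.Indep (bas M j G) ∧ (bas M j G).ncard = j ∧ bas M j G ⊆ G := by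
  unfold bas
  rw [dif_pos (exists_basis hE hG)]
  exact (exists_basis hE hG).choose_spec

lemma eq_of_common {M : Matroid (Fin n)} (hE : M.E = Set.univ) {j : ℕ} {G G' I : Set (Fin n)}
    (hG : IsHyp M j G) (hG' : IsHyp M j G') (hI : M.Indep I) (hIc : I.ncard = j)
    (h : I ⊆ G) (h' : I ⊆ G') : G = G' := by
  have hr : j ≤ rk M I := by rw [indep_iff_rk.1 hI, hIc]
  rw [hG.eq_closure hE h hr, hG'.eq_closure hE h' hr]

/-- summing the bases of different flats -/
lemma mul_ncard_le {M : Matroid (Fin n)} (hE : M.E = Set.univ) {j a b : ℕ}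
    (𝒢 : Set (Set (Fin n))) (h𝒢 : ∀ G ∈ 𝒢, IsHyp M j G) (hb : ∀ G ∈ 𝒢, a ≤ b * bn M j G) :
    a * 𝒢.ncard ≤ b * n.choose j := by
  classical
  set 𝒢f : Finset (Set (Fin n)) := (Set.toFinite 𝒢).toFinset with h𝒢f
  let F : Set (Fin n) → Finset (Set (Fin n)) := fun G =>
    (Set.toFinite {I : Set (Fin n) | M.Indep I ∧ I.ncard = j ∧ I ⊆ G}).toFinset
  have hF : ∀ G, bn M j G = (F G).card := by
    intro G
    unfold bn
    rw [Set.ncard_eq_toFinset_card _ (Set.toFinite _)]
  have hdisj : Set.PairwiseDisjoint (𝒢f : Set (Set (Fin n))) F := by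
    intro G hG G' hG' hne
    rw [Function.onFun, Finset.disjoint_left]
    intro I hI hI'
    simp only [F, Set.Finite.mem_toFinset, Set.mem_ofPred_eq] at hI hI'
    apply hne
    refine eq_of_common hE (h𝒢 G ?_) (h𝒢 G' ?_) hI.1 hI.2.1 hI.2.2 hI'.2.2
    · exact (Set.Finite.mem_toFinset _).1 hG
    · exact (Set.Finite.mem_toFinset _).1 hG'
  have hcard : ∑ G ∈ 𝒢f, (F G).card ≤ n.choose j := by
    rw [← Finset.card_biUnion hdisj]
    have h1 : ((Finset.powersetCard j (Finset.univ : Finset (Fin n))).image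
        (fun s : Finset (Fin n) => (s : Set (Fin n)))).card ≤ n.choose j := by
      refine Finset.card_image_le.trans ?_
      rw [Finset.card_powersetCard, Finset.card_univ, Fintype.card_fin]
    refine (Finset.card_le_card ?_).trans h1
    intro I hI
    rw [Finset.mem_biUnion] at hI
    obtain ⟨G, -, hI⟩ := hI
    simp only [F, Set.Finite.mem_toFinset, Set.mem_ofPred_eq] at hI
    rw [Finset.mem_image]
    refine ⟨(Set.toFinite I).toFinset, ?_, Set.Finite.coe_toFinset _⟩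
    rw [Finset.mem_powersetCard]
    refine ⟨Finset.subset_univ _, ?_⟩
    rw [← Set.ncard_eq_toFinset_card _ (Set.toFinite _)]
    exact hI.2.1
  calc a * 𝒢.ncard = ∑ _G ∈ 𝒢f, a := by
        rw [Finset.sum_const, smul_eq_mul, h𝒢f, ← Set.ncard_eq_toFinset_card _ (Set.toFinite _),
          mul_comm]
    _ ≤ ∑ G ∈ 𝒢f, b * (F G).card := by
        refine Finset.sum_le_sum ?_
        intro G hG
        rw [← hF]
        exact hb G ((Set.Finite.mem_toFinset _).1 hG)
    _ = b * ∑ G ∈ 𝒢f, (F G).card := by rw [Finset.mul_sum]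
    _ ≤ b * n.choose j := Nat.mul_le_mul_left _ hcard

lemma cl1_congr {M M' : Matroid (Fin n)} {c : ℕ} (h : trunc M c = trunc M' c)
    (A : Set (Fin n)) : cl1 M c A = cl1 M' c A := by
  have hind : ∀ S : Set (Fin n), S.ncard ≤ c → (M.Indep S ↔ M'.Indep S) := by
    intro S hS
    have h1 := (trunc_indep (M := M) (s := c) (I := S))
    have h2 := (trunc_indep (M := M') (s := c) (I := S))
    rw [h] at h1
    constructor
    · intro hi
      exact (h2.1 (h1.2 ⟨hi, hS⟩)).1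
    · intro hi
      exact (h1.1 (h2.2 ⟨hi, hS⟩)).1
  unfold cl1
  congr 1
  ext z
  constructor
  · rintro ⟨S, hS, hSi, hSc, hz⟩
    have hz' := (Set.ncard_insert_le z S)
    exact ⟨S, hS, (hind S (by omega)).1 hSi, hSc, fun hh => hz ((hind _ (by omega)).2 hh)⟩
  · rintro ⟨S, hS, hSi, hSc, hz⟩
    have hz' := (Set.ncard_insert_le z S)
    exact ⟨S, hS, (hind S (by omega)).2 hSi, hSc, fun hh => hz ((hind _ (by omega)).1 hh)⟩

/-- first alternative -/
def Alt (M : Matroid (Fin n)) (j c s₀ : ℕ) (G : Set (Fin n)) : Prop :=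
  ∃ f : Fin s₀ → Fin n, G = cl1 M c (bas M j G ∪ Set.range f)

/-- code 1 -/
def cd1 (j c s₀ Λ : ℕ) (M : Matroid (Fin n)) : Set (Set (Fin n) × (Fin s₀ → Fin n)) :=
  {p | ∃ G ∈ Lg Λ M j, ∃ h : Alt M j c s₀ G, p = (bas M j G, h.choose)}

/-- code 2 -/
def cd2 (j c s₀ Λ : ℕ) (M : Matroid (Fin n)) : Set (Set (Fin n) × Set (Fin n)) :=
  {p | ∃ G ∈ Lg Λ M j, ¬ Alt M j c s₀ G ∧ p = (bas M j G, G)}

lemma sub_of_codes {j c s₀ Λ : ℕ} {M M' : Matroid (Fin n)} (ht : trunc M c = trunc M' c)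
    (h1 : cd1 j c s₀ Λ M = cd1 j c s₀ Λ M') (h2 : cd2 j c s₀ Λ M = cd2 j c s₀ Λ M') :
    Lg Λ M j ⊆ Lg Λ M' j := by
  intro G hG
  by_cases h : Alt M j c s₀ G
  · have hp : (bas M j G, h.choose) ∈ cd1 j c s₀ Λ M := ⟨G, hG, h, rfl⟩
    rw [h1] at hp
    obtain ⟨G', hG', h', hp'⟩ := hp
    have e1 : bas M j G = bas M' j G' := congrArg Prod.fst hp'
    have e2 : h.choose = h'.choose := congrArg Prod.snd hp'
    have e3 : G = G' := by
      calc G = cl1 M c (bas M j G ∪ Set.range h.choose) := h.choose_spec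
        _ = cl1 M' c (bas M j G ∪ Set.range h.choose) := cl1_congr ht _
        _ = cl1 M' c (bas M' j G' ∪ Set.range h'.choose) :=
            congrArg₂ (fun a b => cl1 M' c (a ∪ Set.range b)) e1 e2
        _ = G' := h'.choose_spec.symm
    rw [e3]; exact hG'
  · have hp : (bas M j G, G) ∈ cd2 j c s₀ Λ M := ⟨G, hG, h, rfl⟩
    rw [h2] at hp
    obtain ⟨G', hG', -, hp'⟩ := hp
    have e3 : G = G' := congrArg Prod.snd hp'
    rw [e3]; exact hG'

end Pool.Agent.Work.MP_f3d170_co_helper44.LIST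

namespace Pool.Agent.Work.MP_f3d170_co_helper44

open LIST

theorem stmt_LIST (hCLA : Stmt_CLA) : Stmt_LIST := by
  classical
  intro n j c s₀ Λ hj hΛ
  refine ⟨cd1 j c s₀ Λ, cd2 j c s₀ Λ, ?_, ?_⟩
  · intro M hE
    refine ⟨?_, ?_, ?_, ?_⟩
    · rintro p ⟨G, hG, h, rfl⟩
      exact (bas_spec hE hG.1).2.1
    · rintro p ⟨G, hG, h, rfl⟩
      exact (bas_spec hE hG.1).2.1
    · have h1 : (cd1 j c s₀ Λ M).ncard ≤ (Lg Λ M j).ncard := by
        refine Set.ncard_le_ncard_of_injOn (fun p => M.closure p.1) ?_ ?_ (Set.toFinite _)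
        · rintro p ⟨G, hG, h, rfl⟩
          have hb := bas_spec hE hG.1
          have hr : j ≤ rk M (bas M j G) := by rw [indep_iff_rk.1 hb.1, hb.2.1]
          change M.closure (bas M j G) ∈ Lg Λ M j
          rw [← hG.1.eq_closure hE hb.2.2 hr]
          exact hG
        · rintro p ⟨G, hG, h, rfl⟩ q ⟨G', hG', h', rfl⟩ hpq
          have hb := bas_spec hE hG.1
          have hb' := bas_spec hE hG'.1
          have hr : j ≤ rk M (bas M j G) := by rw [indep_iff_rk.1 hb.1, hb.2.1]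
          have hr' : j ≤ rk M (bas M j G') := by rw [indep_iff_rk.1 hb'.1, hb'.2.1]
          change M.closure (bas M j G) = M.closure (bas M j G') at hpq
          rw [← hG.1.eq_closure hE hb.2.2 hr, ← hG'.1.eq_closure hE hb'.2.2 hr'] at hpq
          subst hpq
          rfl
      refine (Nat.mul_le_mul_left _ h1).trans ?_
      have := mul_ncard_le hE (a := Λ) (b := 1) (j := j) (Lg Λ M j) (fun G hG => hG.1)
        (fun G hG => by rw [one_mul]; exact hG.2)
      rwa [one_mul] at this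
    · have h1 : (cd2 j c s₀ Λ M).ncard ≤ {G | G ∈ Lg Λ M j ∧ ¬ Alt M j c s₀ G}.ncard := by
        have hsub : cd2 j c s₀ Λ M ⊆ (fun G => (bas M j G, G)) ''
            {G | G ∈ Lg Λ M j ∧ ¬ Alt M j c s₀ G} := by
          rintro p ⟨G, hG, h, rfl⟩
          exact ⟨G, ⟨hG, h⟩, rfl⟩
        exact (Set.ncard_le_ncard hsub (Set.toFinite _)).trans (Set.ncard_image_le (Set.toFinite _))
      refine (Nat.mul_le_mul_left _ h1).trans ?_
      refine mul_ncard_le hE (j := j) _ (fun G hG => hG.1.1) ?_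
      rintro G ⟨hG, hA⟩
      have hb := bas_spec hE hG.1
      rcases hCLA n j c s₀ M G (bas M j G) hE hj hG.1 hb.1 hb.2.1 hb.2.2 with h | h
      · exact absurd h hA
      · exact h
  · intro M M' _ _ ht h1 h2
    exact Set.Subset.antisymm (sub_of_codes ht h1 h2) (sub_of_codes ht.symm h1.symm h2.symm)

end Pool.Agent.Work.MP_f3d170_co_helper44
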