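import Mathlib
import Pool.Agent.Work.MP_f3d170_co_helper44.TE1

/-! Block LOW. -/

set_option autoImplicit false

open Set Matroid Nat
open Pool.Agent.Work.MP_f3d170_co_h45
open Pool.Agent.Work.MP_f3d170_co_helper60
open Pool.Agent.Work.MP_f3d170_co_helper60b

namespace Pool.Agent.Work.MP_f3d170_co_helper44

lemma ncard_le_of_eRank {n s : ℕ} {M : Matroid (Fin n)} (hr : M.eRank ≤ (s : ℕ))
    {I : Set (Fin n)} (hI : M.Indep I) : I.ncard ≤ s := by
  have h1 := hI.encard_le_eRank.trans hr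
  rw [← (Set.toFinite I).cast_ncard_eq] at h1
  exact_mod_cast h1

theorem stmt_LOW : Stmt_LOW := by
  intro n s
  rw [← Set.ncard_prod]
  refine Set.ncard_le_ncard_of_injOn (fun T => (trunc T s, Bk T s ∅)) ?_ ?_ (Set.toFinite _)
  · rintro T ⟨hE, -⟩
    exact ⟨⟨hE, trunc_eRank T⟩, isPart_Bk hE ∅⟩
  · rintro T ⟨hE, hr⟩ T' ⟨hE', hr'⟩ h
    simp only [Prod.mk.injEq] at h
    obtain ⟨ht, hb⟩ := h
    refine Matroid.ext_indep (by rw [hE, hE']) ?_
    intro I _
    rcases Nat.lt_trichotomy I.ncard (s + 1) with hlt | heq | hgt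
    · exact indep_congr_of_trunc ht (by omega)
    · rw [← not_iff_not, dep_iff_Bk hE (𝓖 := ∅) (by simp) heq,
        dep_iff_Bk hE' (𝓖 := ∅) (by simp) heq, ht, hb]
    · constructor
      · intro hI
        have := ncard_le_of_eRank hr hI
        omega
      · intro hI
        have := ncard_le_of_eRank hr' hI
        omega

end Pool.Agent.Work.MP_f3d170_co_helper44
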