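import Pool.Agent.Work.MP_f3d170_co_helper44.TPAIRS

set_option autoImplicit false

open Set Matroid Nat
open Pool.Agent.Work.MP_f3d170_co_h45
open Pool.Agent.Work.MP_f3d170_co_helper60
open Pool.Agent.Work.MP_f3d170_co_helper60b

namespace Pool.Agent.Work.MP_f3d170_co_helper44

variable {n : ℕ}

lemma p51_sum {ι β : Type*} [Finite β] (PP : Finset ι) (f : ι → Set β) (S : Set β) (c : ℕ)
    (hd : ∀ p ∈ PP, ∀ q ∈ PP, p ≠ q → Disjoint (f p) (f q)) (hs : ∀ p ∈ PP, f p ⊆ S)
    (hc : ∀ p ∈ PP, c ≤ 5 * (f p).ncard) : c * PP.card ≤ 5 * S.ncard := by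
  classical
  haveI : Fintype β := Fintype.ofFinite β
  have h1 : PP.card * c ≤ ∑ p ∈ PP, 5 * (f p).ncard := by
    rw [← smul_eq_mul, ← Finset.sum_const]
    exact Finset.sum_le_sum hc
  have h2 : ∑ p ∈ PP, (f p).ncard = (PP.biUnion (fun p => (f p).toFinset)).card := by
    rw [Finset.card_biUnion]
    · exact Finset.sum_congr rfl fun p _ => Set.ncard_eq_toFinset_card' _
    · intro p hp q hq hpq
      show Disjoint (f p).toFinset (f q).toFinset
      rw [Finset.disjoint_left]
      intro z hz hz'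
      rw [Set.mem_toFinset] at hz hz'
      exact Set.disjoint_left.1 (hd p hp q hq hpq) hz hz'
  have h3 : (PP.biUnion (fun p => (f p).toFinset)).card ≤ S.ncard := by
    rw [Set.ncard_eq_toFinset_card']
    refine Finset.card_le_card ?_
    intro z hz
    rw [Finset.mem_biUnion] at hz
    obtain ⟨p, hp, hz⟩ := hz
    rw [Set.mem_toFinset] at hz ⊢
    exact hs p hp hz
  rw [← Finset.mul_sum] at h1
  rw [mul_comm]
  omega

/-- The witness points are outside `F`. -/
lemma p51_xZ {M : Matroid (Fin n)} {s : ℕ} {G F D : Set (Fin n)} {x y w x' : Fin n}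
    (hG : IsHyp M (s + 1) G) (hF : IsHyp M s F)
    (hFG : F ⊆ G) (hDF : D ⊆ F) (hyG : y ∈ G) (hyF : y ∉ F) (hwy : w ≠ y)
    (hx' : x' ∉ insert y (D \ {x}))
    (hC : M.IsCircuit (insert x' (insert y (D \ {x}) \ {w}))) : x' ∈ G \ F := by
  have hIG : insert y (D \ {x}) ⊆ G :=
    Set.insert_subset hyG ((Set.sdiff_subset.trans hDF).trans hFG)
  constructor
  · have h1 := hC.mem_closure_sdiff_singleton_of_mem (Set.mem_insert x' _)
    have h2 : insert x' (insert y (D \ {x}) \ {w}) \ {x'} ⊆ G := by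
      rintro z ⟨hz, hzx⟩
      rcases hz with hz | hz
      · exact absurd hz hzx
      · exact hIG hz.1
    have h3 := M.closure_subset_closure h2 h1
    rwa [hG.1] at h3
  · intro hx'F
    have hyC : y ∈ insert x' (insert y (D \ {x}) \ {w}) :=
      Or.inr ⟨Set.mem_insert _ _, fun h => hwy h.symm⟩
    have h1 := hC.mem_closure_sdiff_singleton_of_mem hyC
    have h2 : insert x' (insert y (D \ {x}) \ {w}) \ {y} ⊆ F := by
      rintro z ⟨hz, hzy⟩
      rcases hz with rfl | hz
      · exact hx'F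
      · rcases hz.1 with h | h
        · exact absurd h hzy
        · exact hDF h.1
    have h3 := M.closure_subset_closure h2 h1
    rw [hF.1] at h3
    exact hyF h3

/-- Uniqueness of the fundamental circuit. -/
lemma p51_unique {M : Matroid (Fin n)} {I I' : Set (Fin n)} {x' w : Fin n} (hI : M.Indep I)
    (hI' : I' ⊆ I) (hx' : x' ∉ I) (hcl : x' ∈ M.closure I')
    (hC : M.IsCircuit (insert x' (I \ {w}))) : insert x' (I \ {w}) ⊆ insert x' I' := by
  have hI1 : M.Indep I' := hI.subset hI'
  have h1 := hI1.fundCircuit_isCircuit hcl (fun h => hx' (hI' h))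
  have h2 : M.fundCircuit x' I' ⊆ insert x' I' := M.fundCircuit_subset_insert x' I'
  have h3 := h1.eq_fundCircuit_of_subset hI (h2.trans (Set.insert_subset_insert hI'))
  have h4 := hC.eq_fundCircuit_of_subset hI (Set.insert_subset_insert Set.sdiff_subset)
  rw [h4, ← h3]
  exact h2

/-- A basis of `G` with prescribed part outside `F`. -/
lemma p51_TJ {M : Matroid (Fin n)} {s : ℕ} {G F D J : Set (Fin n)} (hE : M.E = Set.univ)
    (hG : IsHyp M (s + 1) G) (hF : IsHyp M s F) (hFG : F ⊆ G) (hDF : D ⊆ F)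
    (hDc : D.ncard = s + 1) (hDC : M.IsCircuit D) (hJ : M.Indep J) (hJG : J ⊆ G \ F)
    (hne : J.Nonempty) : ∃ T, M.Indep T ∧ T.ncard = s + 1 ∧ T ⊆ G ∧ T \ F = J := by
  obtain ⟨b, hb⟩ := hne
  obtain ⟨d0, hd0⟩ := hDC.nonempty
  have hX : D ∪ J ⊆ G := Set.union_subset (hDF.trans hFG) (hJG.trans Set.sdiff_subset)
  have hr : rk M (D ∪ J) = s + 1 :=
    p51_rk hE hG hF hDF hDc hDC hd0 (hJG hb).2 (Or.inr hb)
      (Set.sdiff_subset.trans Set.subset_union_left) hX
  obtain ⟨T, hT, hTc, hJT, hTX⟩ := p51_ext hE hJ Set.subset_union_right hr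
  refine ⟨T, hT, hTc, hTX.trans hX, ?_⟩
  ext z
  constructor
  · rintro ⟨hz, hzF⟩
    rcases hTX hz with h | h
    · exact absurd (hDF h) hzF
    · exact h
  · intro hz
    exact ⟨hJT hz, (hJG hz).2⟩

theorem stmt_MULT : Stmt_MULT := by
  intro n s Λ ρ m M G F D y hE hG hF hFG hDF hDc hDC hyG hyF hbn hΛ hρ hm hs
  classical
  have hm2 : 2 ≤ m := by
    by_contra hcon
    push Not at hcon
    rw [Nat.choose_eq_zero_of_lt hcon] at hm
    omega
  by_cases hA : ∃ W ⊆ D, 2 * W.ncard ≤ s + 1 ∧ G \ F ⊆ M.closure (insert y W)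
  · obtain ⟨W, hWD, hWc, hWZ⟩ := hA
    have hsub : D \ W ⊆ {x | x ∈ D ∧ (QQ M (insert y (D \ {x}))).ncard ≤ ρ + m} := by
      rintro x ⟨hxD, hxW⟩
      refine ⟨hxD, ?_⟩
      obtain ⟨hI, hIc⟩ := p51_indep hE hF hDF hDc hDC hxD hyF
      have hsub1 : QQ M (insert y (D \ {x})) ⊆ {y} := by
        rintro w ⟨hwI, x', hx', hC⟩
        by_contra hwy
        have hwy' : w ≠ y := hwy
        have hxZ := p51_xZ hG hF hFG hDF hyG hyF hwy' hx' hC
        have hWI : insert y W ⊆ insert y (D \ {x}) := by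
          refine Set.insert_subset_insert ?_
          intro z hz
          exact ⟨hWD hz, fun h => hxW (by rw [← (h : z = x)]; exact hz)⟩
        have h1 := p51_unique hI hWI hx' (hWZ hxZ) hC
        have h2 := Set.ncard_le_ncard h1 (Set.toFinite _)
        have h3 : (insert x' (insert y (D \ {x}) \ {w})).ncard = s + 1 := by
          rw [Set.ncard_insert_of_notMem (fun h => hx' h.1) (Set.toFinite _),
            Set.ncard_sdiff_singleton_of_mem hwI, hIc]
          rfl
        have h4 : (insert x' (insert y W)).ncard ≤ W.ncard + 2 :=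
          (Set.ncard_insert_le _ _).trans (by have := Set.ncard_insert_le y W; omega)
        omega
      have h5 := Set.ncard_le_ncard hsub1 (Set.toFinite _)
      rw [Set.ncard_singleton] at h5
      omega
    have h1 := Set.ncard_le_ncard hsub (Set.toFinite _)
    have h2 : (D \ W).ncard + W.ncard = s + 1 := by
      rw [Set.ncard_sdiff_add_ncard_of_subset hWD (Set.toFinite _), hDc]
    omega
  push Not at hA
  have hsub : D ⊆ {x | x ∈ D ∧ (QQ M (insert y (D \ {x}))).ncard ≤ ρ + m} := by
    intro x hxD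
    refine ⟨hxD, ?_⟩
    obtain ⟨hI, hIc⟩ := p51_indep hE hF hDF hDc hDC hxD hyF
    set I : Set (Fin n) := insert y (D \ {x}) with hIdef
    have hch : ∀ w : Fin n, ∃ x' : Fin n, w ∈ QQ M I → x' ∉ I ∧
        M.IsCircuit (insert x' (I \ {w})) := by
      intro w
      by_cases hw : w ∈ QQ M I
      · obtain ⟨x', h1, h2⟩ := hw.2
        exact ⟨x', fun _ => ⟨h1, h2⟩⟩
      · exact ⟨w, fun h => absurd h hw⟩
    choose g hg using hch
    set Q : Set (Fin n) := QQ M I \ {y} with hQ
    have hgZ : ∀ w ∈ Q, g w ∈ G \ F := fun w hw =>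
      p51_xZ hG hF hFG hDF hyG hyF hw.2 (hg w hw.1).1 (hg w hw.1).2
    have hgpair : ∀ w ∈ Q, ∀ w' ∈ Q, w ≠ w' → g w ∉ M.closure {g w'} := by
      intro w hw w' hw' hne hcl
      have h1 : g w' ∈ M.closure (I \ {w'}) := by
        have := (hg w' hw'.1).2.mem_closure_sdiff_singleton_of_mem (Set.mem_insert _ _)
        refine M.closure_subset_closure ?_ this
        rintro z ⟨hz, hz'⟩
        rcases hz with hz | hz
        · exact absurd hz hz'
        · exact hz
      have h2 : g w ∈ M.closure (I \ {w'}) :=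
        M.closure_subset_closure_of_subset_closure (Set.singleton_subset_iff.2 h1) hcl
      have h3 := p51_unique hI Set.sdiff_subset (hg w hw.1).1 h2 (hg w hw.1).2
      have h4 : w' ∈ insert (g w) (I \ {w}) := Or.inr ⟨hw'.1.1, fun h => hne h.symm⟩
      rcases h3 h4 with h5 | h5
      · exact (hg w hw.1).1 (by rw [← h5]; exact hw'.1.1)
      · exact h5.2 rfl
    have hginj : Set.InjOn g Q := by
      intro w hw w' hw' he
      by_contra hne
      refine hgpair w hw w' hw' hne ?_
      rw [he]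
      exact M.mem_closure_of_mem (Set.mem_singleton _) (by rw [hE]; exact Set.subset_univ _)
    set V : Set (Fin n) := g '' Q with hV
    have hVc : V.ncard = Q.ncard := hginj.ncard_image
    have hVZ : V ⊆ G \ F := by
      rintro _ ⟨w, hw, rfl⟩
      exact hgZ w hw
    obtain ⟨Z0, hZ0⟩ := M.exists_isBasis (G \ F) (by rw [hE]; exact Set.subset_univ _)
    have hZ0G : Z0 ⊆ G \ F := hZ0.subset
    -- `|Z0| ≤ ρ`
    have hZ0c : Z0.ncard ≤ ρ := by
      have hch : ∀ J : Set (Fin n), ∃ T : Set (Fin n), J ⊆ Z0 → J.Nonempty →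
          M.Indep T ∧ T.ncard = s + 1 ∧ T ⊆ G ∧ T \ F = J := by
        intro J
        by_cases hJ : J ⊆ Z0 ∧ J.Nonempty
        · obtain ⟨T, hT⟩ := p51_TJ hE hG hF hFG hDF hDc hDC (hZ0.indep.subset hJ.1)
            (hJ.1.trans hZ0G) hJ.2
          exact ⟨T, fun _ _ => hT⟩
        · exact ⟨∅, fun h1 h2 => absurd ⟨h1, h2⟩ hJ⟩
      choose f hf using hch
      have h1 : (𝒫 Z0 \ {∅}).ncard ≤ bn M (s + 1) G := by
        refine Set.ncard_le_ncard_of_injOn f ?_ ?_ (Set.toFinite _)
        · rintro J ⟨hJ, hJne⟩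
          have hne : J.Nonempty := Set.nonempty_iff_ne_empty.2 hJne
          obtain ⟨h1, h2, h3, _⟩ := hf J hJ hne
          exact ⟨h1, h2, h3⟩
        · rintro J ⟨hJ, hJne⟩ J' ⟨hJ', hJne'⟩ he
          rw [← (hf J hJ (Set.nonempty_iff_ne_empty.2 hJne)).2.2.2,
            ← (hf J' hJ' (Set.nonempty_iff_ne_empty.2 hJne')).2.2.2, he]
      have h2 : (𝒫 Z0 \ {∅}).ncard + 1 = 2 ^ Z0.ncard := by
        rw [Set.ncard_sdiff_singleton_add_one (Set.empty_subset _) (Set.toFinite _),
          Set.ncard_powerset Z0 (Set.toFinite _)]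
      have h3 : 2 ^ Z0.ncard ≤ 2 ^ ρ := by omega
      exact (Nat.pow_le_pow_iff_right (by norm_num)).1 h3
    -- the pairs
    have hpair : ∀ p : Finset (Fin n), ∃ B : Set (Fin n),
        p ∈ (V \ Z0).toFinset.powersetCard 2 → B \ Z0 = (p : Set (Fin n)) ∧
          (s + 1) ^ 2 ≤ 5 * {T : Set (Fin n) | M.Indep T ∧ T.ncard = s + 1 ∧ T ⊆ G ∧
            T \ F = B}.ncard := by
      intro p
      by_cases hp : p ∈ (V \ Z0).toFinset.powersetCard 2
      swap
      · exact ⟨∅, fun h => absurd h hp⟩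
      rw [Finset.mem_powersetCard] at hp
      obtain ⟨z, z', hzz, hpz⟩ := Finset.card_eq_two.1 hp.2
      have hz : z ∈ V \ Z0 := by
        have : z ∈ (V \ Z0).toFinset := hp.1 (by rw [hpz]; simp)
        exact Set.mem_toFinset.1 this
      have hz' : z' ∈ V \ Z0 := by
        have : z' ∈ (V \ Z0).toFinset := hp.1 (by rw [hpz]; simp)
        exact Set.mem_toFinset.1 this
      have hind : M.Indep {z, z'} := by
        obtain ⟨w, hw, hwz⟩ := hz.1
        obtain ⟨w', hw', hwz'⟩ := hz'.1
        have hne : w ≠ w' := by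
          rintro rfl
          exact hzz (hwz.symm.trans hwz')
        have h1 : M.Indep {z'} := by
          have h2 : M.Indep (insert z' ∅) := by
            rw [M.empty_indep.insert_indep_iff_of_notMem (Set.notMem_empty _)]
            refine ⟨by rw [hE]; exact Set.mem_univ _, fun h => ?_⟩
            have h3 := M.closure_subset_closure (Set.empty_subset F) h
            rw [hF.1] at h3
            exact (hVZ hz'.1).2 h3
          simpa using h2
        rw [h1.insert_indep_iff_of_notMem (by simpa using hzz)]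
        refine ⟨by rw [hE]; exact Set.mem_univ _, ?_⟩
        rw [← hwz, ← hwz']
        exact hgpair w hw w' hw' hne
      obtain ⟨B, hB, hzB⟩ := hind.subset_isBasis_of_subset
        (X := {z, z'} ∪ Z0) Set.subset_union_left (by rw [hE]; exact Set.subset_univ _)
      refine ⟨B, fun _ => ⟨?_, ?_⟩⟩
      · rw [hpz]
        ext t
        constructor
        · rintro ⟨ht, htZ⟩
          rcases hB.subset ht with h | h
          · simpa using h
          · exact absurd h htZ
        · intro ht
          have ht' : t ∈ ({z, z'} : Set (Fin n)) := by simpa using ht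
          refine ⟨hzB ht', ?_⟩
          rcases ht' with h | h
          · rw [h]; exact hz.2
          · rw [(h : t = z')]; exact hz'.2
      · have hBsub : B ⊆ G \ F := hB.subset.trans
          (Set.union_subset (by
            rintro t (h | h)
            · rw [h]; exact hVZ hz.1
            · rw [(h : t = z')]; exact hVZ hz'.1) hZ0G)
        have hBcl : G \ F ⊆ M.closure B := by
          rw [hB.closure_eq_closure]
          exact hZ0.subset_closure.trans (M.closure_subset_closure Set.subset_union_right)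
        have hBc : B.ncard ≤ Z0.ncard := by
          rw [← indep_iff_rk.1 hB.indep, ← indep_iff_rk.1 hZ0.indep]
          refine rk_le_of_subset_closure (hBsub.trans hZ0.subset_closure)
        exact stmt_PAIRS n s M G F D B y hE hG hF hFG hDF hDc hDC hyG hyF hB.indep hBsub
          ⟨z, hzB (Set.mem_insert _ _)⟩ hBcl (by omega) (fun W hW hWc hcon => hA W hW hWc hcon)
    choose Bf hBf using hpair
    have hsum := p51_sum ((V \ Z0).toFinset.powersetCard 2)
      (fun p => {T : Set (Fin n) | M.Indep T ∧ T.ncard = s + 1 ∧ T ⊆ G ∧ T \ F = Bf p})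
      {T : Set (Fin n) | M.Indep T ∧ T.ncard = s + 1 ∧ T ⊆ G} ((s + 1) ^ 2) ?_ ?_ ?_
    rotate_left
    · intro p hp q hq hpq
      rw [Set.disjoint_left]
      rintro T ⟨_, _, _, h1⟩ ⟨_, _, _, h2⟩
      apply hpq
      have h3 : (p : Set (Fin n)) = (q : Set (Fin n)) := by
        rw [← (hBf p hp).1, ← (hBf q hq).1, ← h1, ← h2]
      exact_mod_cast h3
    · rintro p _ T ⟨h1, h2, h3, _⟩
      exact ⟨h1, h2, h3⟩
    · intro p hp
      exact (hBf p hp).2
    rw [Finset.card_powersetCard, ← Set.ncard_eq_toFinset_card'] at hsum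
    have hbn' : {T : Set (Fin n) | M.Indep T ∧ T.ncard = s + 1 ∧ T ⊆ G}.ncard < Λ := hbn
    have hlt : (V \ Z0).ncard < m := by
      by_contra hcon
      push Not at hcon
      have h1 := Nat.choose_le_choose 2 hcon
      have h2 : (s + 1) ^ 2 * m.choose 2 ≤ (s + 1) ^ 2 * (V \ Z0).ncard.choose 2 :=
        Nat.mul_le_mul_left _ h1
      omega
    have h1 : V.ncard ≤ (V \ Z0).ncard + Z0.ncard := by
      have h2 : V ⊆ (V \ Z0) ∪ Z0 := by
        intro v hv
        by_cases hvZ : v ∈ Z0
        · exact Or.inr hvZ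
        · exact Or.inl ⟨hv, hvZ⟩
      exact (Set.ncard_le_ncard h2 (Set.toFinite _)).trans (Set.ncard_union_le _ _)
    have h3 : (QQ M I).ncard ≤ Q.ncard + 1 := by
      have h4 : QQ M I ⊆ insert y Q := by
        intro w hw
        by_cases hwy : w = y
        · exact Or.inl hwy
        · exact Or.inr ⟨hw, hwy⟩
      exact (Set.ncard_le_ncard h4 (Set.toFinite _)).trans (Set.ncard_insert_le _ _)
    omega
  have h1 := Set.ncard_le_ncard hsub (Set.toFinite _)
  omega

end Pool.Agent.Work.MP_f3d170_co_helper44
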