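import Pool.Agent.Work.MP_f3d170_co_helper44.Interface

set_option autoImplicit false

open Set Matroid Nat
open Pool.Agent.Work.MP_f3d170_co_h45
open Pool.Agent.Work.MP_f3d170_co_helper60
open Pool.Agent.Work.MP_f3d170_co_helper60b

namespace Pool.Agent.Work.MP_f3d170_co_helper44

theorem stmt_N1 : Stmt_N1 := by
  classical
  intro n s Λ M P hE hP hgen hbn hΛ
  by_contra hcon
  push Not at hcon
  have hst := star_spec hgen
  obtain ⟨B, hB, hBc⟩ := Set.exists_subset_card_eq (s := star M s P) (n := s + 3) (by omega)
  have key : (s + 3).choose s ≤ bn M s P := by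
    have hfin : B.Finite := Set.toFinite B
    set F : Finset (Finset (Fin n)) := hfin.toFinset.powersetCard s with hF
    have hFc : F.card = (s + 3).choose s := by
      rw [hF, Finset.card_powersetCard, ← Set.ncard_eq_toFinset_card B hfin, hBc]
    have hsub : ((fun I : Finset (Fin n) => (I : Set (Fin n))) '' (F : Set (Finset (Fin n)))) ⊆
        {I : Set (Fin n) | M.Indep I ∧ I.ncard = s ∧ I ⊆ P} := by
      rintro _ ⟨I, hI, rfl⟩
      rw [Finset.mem_coe, hF, Finset.mem_powersetCard] at hI
      have hIB : (I : Set (Fin n)) ⊆ B := by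
        intro x hx
        exact hfin.mem_toFinset.1 (hI.1 (Finset.mem_coe.1 hx))
      have hIc : (I : Set (Fin n)).ncard = s := by
        rw [Set.ncard_coe_finset]; exact hI.2
      exact ⟨hst.2.2.1 _ (hIB.trans hB) hIc, hIc, (hIB.trans hB).trans hst.1⟩
    have h1 := Set.ncard_le_ncard hsub (Set.toFinite _)
    rw [Set.ncard_image_of_injective _ Finset.coe_injective, Set.ncard_coe_finset, hFc] at h1
    exact h1
  have h2 : (s + 3).choose s = (s + 3).choose 3 := Nat.choose_symm_add
  omega

end Pool.Agent.Work.MP_f3d170_co_helper44
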