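import Mathlib
import Pool.Agent.Work.MP_f3d170_co_helper44.TNCN

/-!
# MP_f3d170_co, near-linear threshold: block NCG (helper90)
-/

set_option autoImplicit false

open Set Matroid Nat
open Pool.Agent.Work.MP_f3d170_co_h45
open Pool.Agent.Work.MP_f3d170_co_helper60
open Pool.Agent.Work.MP_f3d170_co_helper60b

namespace Pool.Agent.Work.MP_f3d170_co_helper44

open helper90 Classical

theorem stmt_NCG : Stmt_NCG := by
  intro n s Λ M hE h8
  have hex : ∀ P : Set (Fin n), ∃ D : Set (Fin n), P ∈ NC Λ M s →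
      D ⊆ P ∧ D.ncard = s + 1 ∧ Gen M s D := by
    intro P
    by_cases hP : P ∈ NC Λ M s
    · obtain ⟨D, h1, h2, h3⟩ := exists_D hP.2.1
      exact ⟨D, fun _ => ⟨h1, h2, h3⟩⟩
    · exact ⟨∅, fun h => absurd h hP⟩
  choose D hD using hex
  have hexG : ∀ P : Set (Fin n), ∃ G : Set (Fin n), P ∈ NCg Λ M s →
      G ∈ Lg Λ M (s + 1) ∧ P ⊆ G ∧ n < 2 * G.ncard := by
    intro P
    by_cases hP : P ∈ NCg Λ M s
    · obtain ⟨G, h1, h2, h3⟩ := hP.2
      exact ⟨G, fun _ => ⟨h1, h2, h3⟩⟩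
    · exact ⟨∅, fun h => absurd h hP⟩
  choose G hG using hexG
  have hmain := dcount (NCg Λ M s).toFinset
    (fun P => (G P \ P).toFinset.sigma (fun _ => (D P).toFinset))
    (Gi Λ M (s + 1) (s + 1)).toFinset
    (fun I => (Set.toFinite I).toFinset) ((s + 1) * n) (s + 1) 8
    (by
      intro P hP
      rw [Set.mem_toFinset] at hP
      rw [Finset.card_sigma, Finset.sum_const, smul_eq_mul, ← Set.ncard_eq_toFinset_card',
        ← Set.ncard_eq_toFinset_card', (hD P hP.1).2.1]
      have h1 := h8 P hP.1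
      have h2 := hG P hP
      have h3 := Set.ncard_sdiff_add_ncard_of_subset h2.2.1 (Set.toFinite _)
      have h4 : n ≤ 8 * (G P \ P).ncard := by omega
      calc (s + 1) * n ≤ (s + 1) * (8 * (G P \ P).ncard) := Nat.mul_le_mul_left _ h4
        _ = 8 * ((G P \ P).ncard * (s + 1)) := by ring)
    (by
      intro I hI
      rw [Set.mem_toFinset] at hI
      rw [← Set.ncard_eq_toFinset_card]
      exact hI.1.le)
    (fun P b => insert b.1 (D P \ {b.2})) (fun _ b => b.1)
    (by
      rintro P hP ⟨y, x⟩ hb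
      rw [Finset.mem_sigma, Set.mem_toFinset, Set.mem_toFinset] at hb
      rw [Set.mem_toFinset] at hP
      obtain ⟨hy, hx⟩ := hb
      simp only at hx hy
      have h1 := hD P hP.1
      have h2 := hG P hP
      have hyD : y ∉ D P := fun h => hy.2 (h1.1 h)
      rw [Set.mem_toFinset, Set.Finite.mem_toFinset]
      refine ⟨⟨?_, G P, h2.1, h2.2.2, ?_⟩, Set.mem_insert _ _⟩
      · rw [Set.ncard_insert_of_notMem (fun h => hyD h.1) (Set.toFinite _),
          Set.ncard_sdiff_singleton_of_mem hx, h1.2.1]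
        omega
      · intro z hz
        rcases hz with rfl | hz
        · exact hy.1
        · exact h2.2.1 (h1.1 hz.1))
    (by
      rintro P hP ⟨y, x⟩ hb P' hP' ⟨y', x'⟩ hb' h h'
      rw [Finset.mem_sigma, Set.mem_toFinset, Set.mem_toFinset] at hb hb'
      rw [Set.mem_toFinset] at hP hP'
      simp only at h h' hb hb'
      subst h'
      obtain ⟨h3, h4⟩ := key hE hP.1.1 hP'.1.1 (hD P hP.1) (hD P' hP'.1) hb.2 hb'.2
        hb.1.2 hb'.1.2 h
      subst h4
      exact ⟨h3, rfl⟩)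
  rw [← Set.ncard_eq_toFinset_card', ← Set.ncard_eq_toFinset_card'] at hmain
  refine Nat.le_of_mul_le_mul_left (c := s + 1) ?_ (Nat.succ_pos s)
  calc (s + 1) * (n * (NCg Λ M s).ncard) = (s + 1) * n * (NCg Λ M s).ncard := by ring
    _ ≤ 8 * ((s + 1) * (Gi Λ M (s + 1) (s + 1)).ncard) := hmain
    _ = (s + 1) * (8 * (Gi Λ M (s + 1) (s + 1)).ncard) := by ring

end Pool.Agent.Work.MP_f3d170_co_helper44
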