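import Pool.Agent.Work.MP_f3d170_co_helper44.Interface2

/-!
# Block NUMA: the simple numerical facts (helper22)
-/

set_option autoImplicit false

open Nat

namespace Pool.Agent.Work.MP_f3d170_co_helper44

/-- `K l ≤ 2^l` for `l ≥ 4K`. -/
theorem numa_pow {K l : ℕ} (h : 4 * K ≤ l) : K * l ≤ 2 ^ l := by
  have h1 : l / 2 + 1 ≤ 2 ^ (l / 2) := Nat.lt_two_pow_self
  have h2 : l / 2 + 1 ≤ 2 ^ (l - l / 2) :=
    h1.trans (Nat.pow_le_pow_right (by norm_num) (by omega))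
  have h3 : (l / 2 + 1) * (l / 2 + 1) ≤ 2 ^ l := by
    calc (l / 2 + 1) * (l / 2 + 1) ≤ 2 ^ (l / 2) * 2 ^ (l - l / 2) := Nat.mul_le_mul h1 h2
      _ = 2 ^ l := by rw [← pow_add]; congr 1; omega
  have h4 : K * l ≤ (l / 2 + 1) * (l / 2 + 1) := by
    have h5 : 2 * K ≤ l / 2 + 1 := by omega
    have h6 : l ≤ 2 * (l / 2 + 1) := by omega
    calc K * l ≤ K * (2 * (l / 2 + 1)) := Nat.mul_le_mul_left _ h6
      _ = 2 * K * (l / 2 + 1) := by ring
      _ ≤ (l / 2 + 1) * (l / 2 + 1) := Nat.mul_le_mul_right _ h5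
  exact h4.trans h3

/-- (B1): `L ≤ 24 (k + 3) l`. -/
theorem numa_L {k r n : ℕ} (hr : 2 ≤ r) (hn : n ≤ (2 * r * (k + 1)) ^ 24) (hn0 : n ≠ 0) :
    pL n ≤ 24 * (k + 3) * Nat.log 2 r := by
  have hl : 1 ≤ Nat.log 2 r := Nat.le_log_of_pow_le (by norm_num) (by simpa using hr)
  have h1 : r < 2 ^ (Nat.log 2 r + 1) := Nat.lt_pow_succ_log_self (by norm_num) r
  have h2 : k + 1 ≤ 2 ^ k := Nat.lt_two_pow_self
  have h3 : 2 * r * (k + 1) < 2 ^ (Nat.log 2 r + 2 + k) := by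
    calc 2 * r * (k + 1) ≤ 2 * r * 2 ^ k := Nat.mul_le_mul_left _ h2
      _ < 2 * 2 ^ (Nat.log 2 r + 1) * 2 ^ k := by
          apply Nat.mul_lt_mul_of_pos_right _ (by positivity)
          omega
      _ = 2 ^ (Nat.log 2 r + 2 + k) := by ring
  have h4 : n < 2 ^ (24 * (Nat.log 2 r + 2 + k)) := by
    calc n ≤ (2 * r * (k + 1)) ^ 24 := hn
      _ < (2 ^ (Nat.log 2 r + 2 + k)) ^ 24 := Nat.pow_lt_pow_left h3 (by norm_num)
      _ = 2 ^ (24 * (Nat.log 2 r + 2 + k)) := by rw [← pow_mul]; congr 1; ring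
  have h5 : Nat.log 2 n < 24 * (Nat.log 2 r + 2 + k) := Nat.log_lt_of_lt_pow hn0 h4
  have h6 : 24 * (2 + k) ≤ 24 * (2 + k) * Nat.log 2 r := Nat.le_mul_of_pos_right _ (by omega)
  unfold pL
  calc Nat.log 2 n + 1 ≤ 24 * (Nat.log 2 r + 2 + k) := h5
    _ = 24 * Nat.log 2 r + 24 * (2 + k) := by ring
    _ ≤ 24 * Nat.log 2 r + 24 * (2 + k) * Nat.log 2 r := Nat.add_le_add_left h6 _
    _ = 24 * (k + 3) * Nat.log 2 r := by ring

theorem stmt_NUMA : Stmt_NUMA := by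
  intro k hk
  set K : ℕ := 48 * 10 ^ 4 * pH k * (24 * (k + 3)) with hK
  obtain ⟨E, hE⟩ : ∃ E, E = 2 ^ (4 * K) := ⟨_, rfl⟩
  refine ⟨E + 60 + 3 * (k + 1), ?_⟩
  rintro r n ⟨h1, h2, h3⟩
  have hr60 : 60 ≤ r := by omega
  have hl4 : 4 * K ≤ Nat.log 2 r :=
    Nat.le_log_of_pow_le (by norm_num) (by rw [← hE]; omega)
  have hl1 : 1 ≤ Nat.log 2 r :=
    Nat.le_log_of_pow_le (by norm_num) (by omega)
  have hlog : 2 ^ Nat.log 2 r ≤ r := Nat.pow_log_le_self 2 (by omega)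
  have hKl : K * Nat.log 2 r ≤ r := (numa_pow hl4).trans hlog
  have hnr : (E + 60 + 3 * (k + 1)) * r ≤ n := by
    calc (E + 60 + 3 * (k + 1)) * r =
        (E + 60 + 3 * (k + 1)) * r * 1 := by ring
      _ ≤ (E + 60 + 3 * (k + 1)) * r * Nat.log 2 r ^ 3 :=
          Nat.mul_le_mul_left _ (Nat.one_le_pow _ _ hl1)
      _ ≤ n := h2
  have h8 : 8 * r ≤ n := le_trans (Nat.mul_le_mul_right _ (by omega)) hnr
  have h3k : 3 * (k + 1) * r ≤ n := le_trans (Nat.mul_le_mul_right _ (by omega)) hnr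
  have hn0 : n ≠ 0 := by omega
  have hL : pL n ≤ 24 * (k + 3) * Nat.log 2 r := numa_L (by omega) h3 hn0
  have hL1 : 1 ≤ pL n := by unfold pL; omega
  have hh : 12 ≤ pH k := by unfold pH; omega
  have hmain : 48 * 10 ^ 4 * pH k * pL n ≤ r := by
    calc 48 * 10 ^ 4 * pH k * pL n ≤ 48 * 10 ^ 4 * pH k * (24 * (k + 3) * Nat.log 2 r) :=
          Nat.mul_le_mul_left _ hL
      _ = K * Nat.log 2 r := by rw [hK]; ring
      _ ≤ r := hKl
  have hc : r ≤ 2 * (r / 2 + 2) := by omega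
  have hn2 : n < 2 ^ pL n := by
    unfold pL
    exact Nat.lt_pow_succ_log_self (by norm_num) n
  refine ⟨h8, h3k, by omega, ?_, ?_, ?_, ?_, ?_, ?_⟩
  · -- lam3
    have e1 : 6 * (r / 2 + 4).choose 3 = (r / 2 + 4) * (r / 2 + 3) * (r / 2 + 2) := by
      have e2 := Nat.descFactorial_eq_factorial_mul_choose (r / 2 + 4) 3
      have e3 : (r / 2 + 4).descFactorial 3 = (r / 2 + 4) * (r / 2 + 3) * (r / 2 + 2) := by
        simp only [Nat.descFactorial_succ, Nat.descFactorial_zero]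
        have e4 : r / 2 + 4 - 2 = r / 2 + 2 := by omega
        have e5 : r / 2 + 4 - 1 = r / 2 + 3 := by omega
        rw [e4, e5]
        simp
        ring
      rw [e3] at e2
      have e6 : Nat.factorial 3 = 6 := rfl
      rw [e6] at e2
      exact e2.symm
    have e2 : r ^ 3 ≤ 8 * (r / 2 + 2) ^ 3 := by
      calc r ^ 3 ≤ (2 * (r / 2 + 2)) ^ 3 := Nat.pow_le_pow_left hc 3
        _ = 8 * (r / 2 + 2) ^ 3 := by ring
    have e3 : (r / 2 + 2) ^ 3 ≤ (r / 2 + 4) * (r / 2 + 3) * (r / 2 + 2) := by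
      calc (r / 2 + 2) ^ 3 = (r / 2 + 2) * (r / 2 + 2) * (r / 2 + 2) := by ring
        _ ≤ (r / 2 + 4) * (r / 2 + 3) * (r / 2 + 2) :=
          Nat.mul_le_mul_right _ (Nat.mul_le_mul (by omega) (by omega))
    have e4 : r ^ 3 ≤ 48 * (r / 2 + 4).choose 3 := by
      calc r ^ 3 ≤ 8 * (r / 2 + 2) ^ 3 := e2
        _ ≤ 8 * ((r / 2 + 4) * (r / 2 + 3) * (r / 2 + 2)) := Nat.mul_le_mul_left _ e3
        _ = 48 * (r / 2 + 4).choose 3 := by rw [← e1]; ring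
    have e5 : 48 * pLam k r n ≤ r ^ 3 := by
      unfold pLam
      calc 48 * (10 ^ 4 * pH k * r ^ 2 * pL n) = (48 * 10 ^ 4 * pH k * pL n) * r ^ 2 := by ring
        _ ≤ r * r ^ 2 := Nat.mul_le_mul_right _ hmain
        _ = r ^ 3 := by ring
    have e6 := e5.trans e4
    exact Nat.le_of_mul_le_mul_left e6 (by norm_num)
  · -- lam2
    have e1 : 10 ^ 4 * pH k * pL n ≤ n := by
      calc 10 ^ 4 * pH k * pL n ≤ 48 * 10 ^ 4 * pH k * pL n :=
            Nat.mul_le_mul_right _ (Nat.mul_le_mul_right _ (by norm_num))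
        _ ≤ r := hmain
        _ ≤ n := by omega
    have e2 : pLam k r n ≤ n ^ 3 := by
      unfold pLam
      calc 10 ^ 4 * pH k * r ^ 2 * pL n = (10 ^ 4 * pH k * pL n) * r ^ 2 := by ring
        _ ≤ n * n ^ 2 := Nat.mul_le_mul e1 (Nat.pow_le_pow_left (by omega) 2)
        _ = n ^ 3 := by ring
    calc pLam k r n ≤ n ^ 3 := e2
      _ ≤ (2 ^ pL n) ^ 3 := Nat.pow_le_pow_left hn2.le 3
      _ = 2 ^ (3 * pL n) := by rw [← pow_mul]; congr 1; ring
  · -- h60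
    have e1 : 120 * pL n ≤ r := by
      calc 120 * pL n ≤ 48 * 10 ^ 4 * pH k * pL n := by
            apply Nat.mul_le_mul_right
            have : 48 * 10 ^ 4 * 12 ≤ 48 * 10 ^ 4 * pH k := Nat.mul_le_mul_left _ hh
            omega
        _ ≤ r := hmain
    omega
  · -- lamm
    have e1 : r ^ 2 ≤ 4 * (r / 2 + 2) ^ 2 := by
      calc r ^ 2 ≤ (2 * (r / 2 + 2)) ^ 2 := Nat.pow_le_pow_left hc 2
        _ = 4 * (r / 2 + 2) ^ 2 := by ring
    have e2 : 2 * (pm k n).choose 2 = pm k n * (pm k n - 1) := by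
      rw [Nat.choose_two_right, Nat.mul_div_cancel' (Nat.even_mul_pred_self _).two_dvd]
    have e3 : 2 ≤ pm k n := by
      unfold pm
      have e4 : 1 ≤ pH k * pL n := Nat.mul_pos (by omega) hL1
      have e5 : 9 * 10 ^ 5 * (pH k * pL n) = 9 * 10 ^ 5 * pH k * pL n := by ring
      rw [← e5]
      omega
    have e4 : pm k n ≤ 2 * (pm k n).choose 2 := by
      rw [e2]
      exact Nat.le_mul_of_pos_right _ (by omega)
    have e5 : 2 * (5 * 10 ^ 4 * pH k * pL n) * 4 ≤ pm k n := by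
      unfold pm
      calc 2 * (5 * 10 ^ 4 * pH k * pL n) * 4 = 40 * 10 ^ 4 * (pH k * pL n) := by ring
        _ ≤ 9 * 10 ^ 5 * (pH k * pL n) := Nat.mul_le_mul_right _ (by norm_num)
        _ = 9 * 10 ^ 5 * pH k * pL n := by ring
    have e6 : 2 * 4 * (5 * pLam k r n) ≤ 2 * 4 * ((r / 2 + 2) ^ 2 * (pm k n).choose 2) := by
      unfold pLam
      calc 2 * 4 * (5 * (10 ^ 4 * pH k * r ^ 2 * pL n)) =
          (2 * (5 * 10 ^ 4 * pH k * pL n) * 4) * r ^ 2 := by ring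
        _ ≤ (2 * (pm k n).choose 2) * (4 * (r / 2 + 2) ^ 2) := Nat.mul_le_mul (e5.trans e4) e1
        _ = 2 * 4 * ((r / 2 + 2) ^ 2 * (pm k n).choose 2) := by ring
    exact Nat.le_of_mul_le_mul_left e6 (by norm_num)
  · -- hLs
    unfold pLs
    rw [Nat.one_le_div_iff (Nat.factorial_pos _)]
    calc 30 ! ≤ 30 ^ 30 := Nat.factorial_le_pow 30
      _ ≤ (r / 2 + 1) ^ 30 := Nat.pow_le_pow_left (by omega) 30
  · -- hn2
    have e1 : (r + 1) * pH k ≤ 4 * n := by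
      calc (r + 1) * pH k ≤ (2 * r) * pH k := Nat.mul_le_mul_right _ (by omega)
        _ = 4 * (3 * (k + 1) * r) := by unfold pH; ring
        _ ≤ 4 * n := Nat.mul_le_mul_left _ h3k
    calc (r + 1) * pH k ≤ 4 * n := e1
      _ ≤ n * n := Nat.mul_le_mul_right _ (by omega)
      _ = n ^ 2 := by ring

end Pool.Agent.Work.MP_f3d170_co_helper44
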