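import Mathlib
import Pool.Agent.Work.MP_f3d170_co_helper44.Interface2

/-!
# MP_f3d170_co, near-linear threshold: block NUMC (helper90)
-/

set_option autoImplicit false

open Nat

namespace Pool.Agent.Work.MP_f3d170_co_helper44.helper90

/-- the polynomial inequality -/
theorem numc_poly (h r X e : ℕ) (hh : 1 ≤ h) (hr : 12 ≤ r) (h7 : 7 * r ≤ X)
    (he : 8 * (h * r * e) ≤ X + r) :
    h * (r + 1) * (r * e ^ 2 + e * (X + 1)) ≤ (X + 1) * X := by
  obtain ⟨w, hw⟩ : ∃ w, w = h * r * e := ⟨_, rfl⟩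
  rw [← hw] at he
  have h1 : 7 * w ≤ X := by omega
  have h2 : r * e ≤ w := by
    rw [hw]
    calc r * e = 1 * (r * e) := (one_mul _).symm
      _ ≤ h * (r * e) := Nat.mul_le_mul_right _ hh
      _ = h * r * e := by ring
  have h3 : 12 * (h * (r + 1) * e) ≤ 13 * w := by
    rw [hw]
    calc 12 * (h * (r + 1) * e) = (12 * (r + 1)) * (h * e) := by ring
      _ ≤ (13 * r) * (h * e) := Nat.mul_le_mul_right _ (by omega)
      _ = 13 * (h * r * e) := by ring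
  have h4 : 12 * (h * (r + 1) * (r * e ^ 2 + e * (X + 1))) ≤ 13 * w * (w + (X + 1)) := by
    calc 12 * (h * (r + 1) * (r * e ^ 2 + e * (X + 1)))
        = (12 * (h * (r + 1) * e)) * (r * e + (X + 1)) := by ring
      _ ≤ (13 * w) * (w + (X + 1)) := Nat.mul_le_mul h3 (by omega)
  have h5 : 49 * (13 * w * (w + (X + 1))) ≤ 13 * X * (8 * X + 7) := by
    calc 49 * (13 * w * (w + (X + 1))) = 13 * (7 * w) * (7 * w + 7 * (X + 1)) := by ring
      _ ≤ 13 * X * (X + 7 * (X + 1)) := Nat.mul_le_mul (Nat.mul_le_mul_left _ h1) (by omega)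
      _ = 13 * X * (8 * X + 7) := by ring
  have h6 : 13 * X * (8 * X + 7) ≤ 588 * ((X + 1) * X) := by
    have : 13 * (8 * X + 7) ≤ 588 * (X + 1) := by omega
    calc 13 * X * (8 * X + 7) = X * (13 * (8 * X + 7)) := by ring
      _ ≤ X * (588 * (X + 1)) := Nat.mul_le_mul_left _ this
      _ = 588 * ((X + 1) * X) := by ring
  omega

end Pool.Agent.Work.MP_f3d170_co_helper44.helper90

namespace Pool.Agent.Work.MP_f3d170_co_helper44

open helper90

theorem stmt_NUMC : Stmt_NUMC := by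
  intro k _
  refine ⟨12, ?_⟩
  rintro r n ⟨hr, hn, _⟩ v hv
  have hl : 1 ≤ Nat.log 2 r := by
    have := Nat.log_mono_right (b := 2) hr
    have h2 : Nat.log 2 12 = 3 := by
      rw [Nat.log_eq_iff] <;> norm_num
    omega
  have hl3 : 1 ≤ Nat.log 2 r ^ 3 := Nat.one_le_pow _ _ hl
  have hn12 : 12 * r ≤ n := by
    calc 12 * r = 12 * r * 1 := by ring
      _ ≤ 12 * r * Nat.log 2 r ^ 3 := Nat.mul_le_mul_left _ hl3
      _ ≤ n := hn
  obtain ⟨X, rfl⟩ : ∃ X, n = X + r := ⟨n - r, by omega⟩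
  have h7 : 7 * r ≤ X := by omega
  obtain ⟨s, rfl⟩ : ∃ s, r = s + 1 := ⟨r - 1, by omega⟩
  have e1 : X + (s + 1) - (s + 1) = X := by omega
  have e2 : X + (s + 1) - (s + 1 - 1) = X + 1 := by omega
  have e3 : s + 1 - 1 = s := by omega
  rw [e1, e2, e3]
  obtain ⟨h, hh⟩ : ∃ h, h = pH k := ⟨_, rfl⟩
  have hhk : h = 6 * (k + 1) := hh
  have hh1 : 1 ≤ h := by omega
  obtain ⟨e, he⟩ : ∃ e, e = 2 * pa k (s + 1) (X + (s + 1)) := ⟨_, rfl⟩
  have hea : 8 * (h * (s + 1) * e) ≤ X + (s + 1) := by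
    rw [he, hh]
    unfold pa
    have := Nat.div_mul_le_self (X + (s + 1)) (16 * pH k * (s + 1))
    calc 8 * (pH k * (s + 1) * (2 * ((X + (s + 1)) / (16 * pH k * (s + 1)))))
        = (X + (s + 1)) / (16 * pH k * (s + 1)) * (16 * pH k * (s + 1)) := by ring
      _ ≤ X + (s + 1) := this
  rw [← he]
  have hpoly := numc_poly h (s + 1) X e hh1 (by omega) h7 hea
  -- binomials
  obtain ⟨N0, hN0⟩ : ∃ N0, N0 = (X + (s + 1)).choose s := ⟨_, rfl⟩
  obtain ⟨N1, hN1⟩ : ∃ N1, N1 = (X + (s + 1)).choose (s + 1) := ⟨_, rfl⟩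
  obtain ⟨N2, hN2⟩ : ∃ N2, N2 = (X + (s + 1)).choose (s + 1 + 1) := ⟨_, rfl⟩
  have q1 : N1 * (s + 1) = N0 * (X + 1) := by
    rw [hN0, hN1, Nat.choose_succ_right_eq]
    congr 1
  have q2 : N2 * (s + 1 + 1) = N1 * X := by
    rw [hN2, hN1, Nat.choose_succ_right_eq]
    congr 1
  rw [← hN1, ← hh] at hv
  rw [← hN2, ← hN0]
  -- part 1
  have p1 : 2 * (3 * (k + 1) * ((s + 1) * X * v)) ≤ (s + 1) * N2 := by
    refine Nat.le_of_mul_le_mul_left (c := s + 1 + 1) ?_ (Nat.succ_pos _)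
    calc (s + 1 + 1) * (2 * (3 * (k + 1) * ((s + 1) * X * v)))
        = (s + 1) * X * ((s + 1 + 1) * h * v) := by rw [hhk]; ring
      _ ≤ (s + 1) * X * N1 := Nat.mul_le_mul_left _ hv.le
      _ = (s + 1) * (N1 * X) := by ring
      _ = (s + 1) * (N2 * (s + 1 + 1)) := by rw [q2]
      _ = (s + 1 + 1) * ((s + 1) * N2) := by ring
  -- part 2
  have p2 : 2 * (3 * (k + 1) * (N0 * ((s + 1) * e ^ 2 + e * (X + 1)))) ≤ (s + 1) * N2 := by
    refine Nat.le_of_mul_le_mul_left (c := s + 1 + 1) ?_ (Nat.succ_pos _)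
    calc (s + 1 + 1) * (2 * (3 * (k + 1) * (N0 * ((s + 1) * e ^ 2 + e * (X + 1)))))
        = N0 * (h * (s + 1 + 1) * ((s + 1) * e ^ 2 + e * (X + 1))) := by rw [hhk]; ring
      _ ≤ N0 * ((X + 1) * X) := Nat.mul_le_mul_left _ hpoly
      _ = (N0 * (X + 1)) * X := by ring
      _ = (N1 * (s + 1)) * X := by rw [q1]
      _ = (s + 1) * (N1 * X) := by ring
      _ = (s + 1) * (N2 * (s + 1 + 1)) := by rw [q2]
      _ = (s + 1 + 1) * ((s + 1) * N2) := by ring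
  have e4 : 3 * (k + 1) * ((s + 1) * X * v + N0 * ((s + 1) * e ^ 2 + e * (X + 1))) =
      3 * (k + 1) * ((s + 1) * X * v) + 3 * (k + 1) * (N0 * ((s + 1) * e ^ 2 + e * (X + 1))) := by
    ring
  rw [e4]
  omega

end Pool.Agent.Work.MP_f3d170_co_helper44
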