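import Mathlib
import Pool.Agent.Work.MP_f3d170_co_helper44.Interface2

/-!
# MP_f3d170_co, near-linear threshold: block NUML (helper90)
-/

set_option autoImplicit false

open Nat

namespace Pool.Agent.Work.MP_f3d170_co_helper44.helper90

/-- (B1) -/
theorem pL_le {k r n : ℕ} (hn : n ≤ (2 * r * (k + 1)) ^ 24) (hl : 1 ≤ Nat.log 2 r) :
    pL n ≤ 24 * (k + 3) * Nat.log 2 r := by
  obtain ⟨l, hl'⟩ : ∃ l, l = Nat.log 2 r := ⟨_, rfl⟩
  rw [← hl'] at hl ⊢
  have h1 : r < 2 ^ (l + 1) := by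
    rw [hl']
    exact Nat.lt_pow_succ_log_self (by norm_num) r
  have h2 : k + 1 ≤ 2 ^ k := Nat.lt_two_pow_self
  have h3 : 2 * r * (k + 1) < 2 ^ (l + k + 2) := by
    calc 2 * r * (k + 1) ≤ 2 * r * 2 ^ k := Nat.mul_le_mul_left _ h2
      _ < 2 * 2 ^ (l + 1) * 2 ^ k := by
        refine Nat.mul_lt_mul_of_pos_right ?_ (Nat.two_pow_pos k)
        exact Nat.mul_lt_mul_of_pos_left h1 (by norm_num)
      _ = 2 ^ (l + k + 2) := by ring
  have h4 : n < 2 ^ (24 * (l + k + 2)) := by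
    calc n ≤ (2 * r * (k + 1)) ^ 24 := hn
      _ < (2 ^ (l + k + 2)) ^ 24 := Nat.pow_lt_pow_left h3 (by norm_num)
      _ = 2 ^ (24 * (l + k + 2)) := by rw [← pow_mul]; congr 1; ring
  have h5 : Nat.log 2 n < 24 * (l + k + 2) := by
    rcases Nat.eq_zero_or_pos n with rfl | hn0
    · rw [Nat.log_zero_right]
      omega
    · exact Nat.log_lt_of_lt_pow hn0.ne' h4
  unfold pL
  have h6 : l + k + 2 ≤ (k + 3) * l := by
    have : (k + 2) * 1 ≤ (k + 2) * l := Nat.mul_le_mul_left _ hl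
    have e : (k + 3) * l = l + (k + 2) * l := by ring
    omega
  calc Nat.log 2 n + 1 ≤ 24 * (l + k + 2) := h5
    _ ≤ 24 * ((k + 3) * l) := Nat.mul_le_mul_left _ h6
    _ = 24 * (k + 3) * l := by ring

/-- (B2) -/
theorem basicB (k K : ℕ) (hK : 2 ≤ K) : ∃ C, ∀ r n, Rg k C r n →
    K * r * pL n ^ 3 ≤ n ∧ K ≤ r ∧ K * r ≤ n := by
  refine ⟨K * (24 * (k + 3)) ^ 3, ?_⟩
  rintro r n ⟨hr, hn, hn2⟩
  have hC : K ≤ K * (24 * (k + 3)) ^ 3 :=
    Nat.le_mul_of_pos_right _ (Nat.pow_pos (by omega))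
  have hKr : K ≤ r := hC.trans hr
  have hl : 1 ≤ Nat.log 2 r := Nat.log_pos (by norm_num) (by omega)
  have h1 := pL_le hn2 hl
  have h2 : K * r * pL n ^ 3 ≤ n := by
    calc K * r * pL n ^ 3 ≤ K * r * (24 * (k + 3) * Nat.log 2 r) ^ 3 :=
          Nat.mul_le_mul_left _ (Nat.pow_le_pow_left h1 3)
      _ = K * (24 * (k + 3)) ^ 3 * r * Nat.log 2 r ^ 3 := by ring
      _ ≤ n := hn
  refine ⟨h2, hKr, ?_⟩
  refine le_trans ?_ h2
  exact Nat.le_mul_of_pos_right _ (Nat.pow_pos (by unfold pL; omega))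

/-- binomial coefficients and powers -/
theorem choose_pow (n s : ℕ) : ∀ t, s ^ t * n.choose (s + t) ≤ n ^ t * n.choose s := by
  intro t
  induction t with
  | zero => simp
  | succ t ih =>
    have h1 := Nat.choose_succ_right_eq n (s + t)
    have h2 : s * n.choose (s + (t + 1)) ≤ n * n.choose (s + t) := by
      calc s * n.choose (s + (t + 1)) ≤ (s + t + 1) * n.choose (s + (t + 1)) :=
            Nat.mul_le_mul_right _ (by omega)
        _ = n.choose (s + t + 1) * (s + t + 1) := by rw [mul_comm]; rfl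
        _ = n.choose (s + t) * (n - (s + t)) := h1
        _ ≤ n.choose (s + t) * n := Nat.mul_le_mul_left _ (Nat.sub_le _ _)
        _ = n * n.choose (s + t) := mul_comm _ _
    calc s ^ (t + 1) * n.choose (s + (t + 1)) = s ^ t * (s * n.choose (s + (t + 1))) := by ring
      _ ≤ s ^ t * (n * n.choose (s + t)) := Nat.mul_le_mul_left _ h2
      _ = n * (s ^ t * n.choose (s + t)) := by ring
      _ ≤ n * (n ^ t * n.choose s) := Nat.mul_le_mul_left _ ih
      _ = n ^ (t + 1) * n.choose s := by ring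

/-- removing `a` elements -/
theorem choose_sub (n s : ℕ) : ∀ a, a ≤ n →
    n.choose (s + 1) ≤ (n - a).choose (s + 1) + a * (n - 1).choose s := by
  intro a
  induction a with
  | zero => intro _; simp
  | succ a ih =>
    intro ha
    have h1 := ih (by omega)
    obtain ⟨b, hb⟩ : ∃ b, n - a = b + 1 := ⟨n - a - 1, by omega⟩
    have h2 : n - (a + 1) = b := by omega
    rw [h2]
    rw [hb, Nat.choose_succ_succ'] at h1
    have h3 : b.choose s ≤ (n - 1).choose s := Nat.choose_le_choose _ (by omega)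
    calc n.choose (s + 1) ≤ b.choose s + b.choose (s + 1) + a * (n - 1).choose s := h1
      _ ≤ (n - 1).choose s + b.choose (s + 1) + a * (n - 1).choose s := by omega
      _ = b.choose (s + 1) + (a + 1) * (n - 1).choose s := by ring

theorem choose_half (n s a : ℕ) (hn : 1 ≤ n) (h : 2 * (a * s) ≤ n) (ha : a ≤ n) :
    n.choose s ≤ 2 * (n - a).choose s := by
  rcases s with _ | s
  · simp
  have h1 := choose_sub n s a ha
  have h2 : n * (n - 1).choose s = n.choose (s + 1) * (s + 1) := by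
    obtain ⟨m, rfl⟩ : ∃ m, n = m + 1 := ⟨n - 1, by omega⟩
    exact Nat.add_one_mul_choose_eq m s
  refine Nat.le_of_mul_le_mul_left (c := n) ?_ hn
  have h3 : n * n.choose (s + 1) ≤ n * (n - a).choose (s + 1) +
      a * (s + 1) * n.choose (s + 1) := by
    calc n * n.choose (s + 1) ≤ n * ((n - a).choose (s + 1) + a * (n - 1).choose s) :=
          Nat.mul_le_mul_left _ h1
      _ = n * (n - a).choose (s + 1) + a * (n * (n - 1).choose s) := by ring
      _ = n * (n - a).choose (s + 1) + a * (s + 1) * n.choose (s + 1) := by rw [h2]; ring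
  have h4 : 2 * (a * (s + 1) * n.choose (s + 1)) ≤ n * n.choose (s + 1) := by
    calc 2 * (a * (s + 1) * n.choose (s + 1)) = (2 * (a * (s + 1))) * n.choose (s + 1) := by ring
      _ ≤ n * n.choose (s + 1) := Nat.mul_le_mul_right _ h
  have e : n * (2 * (n - a).choose (s + 1)) = 2 * (n * (n - a).choose (s + 1)) := by ring
  rw [e]
  omega

theorem pow_choose (a t : ℕ) (h : 2 * t ≤ a) : a ^ t ≤ (2 * t) ^ t * a.choose t := by
  have h1 : (a + 1 - t) ^ t ≤ t ! * a.choose t := by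
    rw [← Nat.descFactorial_eq_factorial_mul_choose]
    exact Nat.pow_sub_le_descFactorial a t
  have h2 : a ^ t ≤ 2 ^ t * (a + 1 - t) ^ t := by
    rw [← mul_pow]
    exact Nat.pow_le_pow_left (by omega) t
  calc a ^ t ≤ 2 ^ t * (a + 1 - t) ^ t := h2
    _ ≤ 2 ^ t * (t ! * a.choose t) := Nat.mul_le_mul_left _ h1
    _ ≤ 2 ^ t * (t ^ t * a.choose t) :=
        Nat.mul_le_mul_left _ (Nat.mul_le_mul_right _ (Nat.factorial_le_pow t))
    _ = (2 * t) ^ t * a.choose t := by rw [mul_pow]; ring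

/-- case (i) -/
theorem case1 (h r n a t : ℕ) (hh : 2 ≤ h) (hT : (128 * h * t) ^ t ≤ r) (ht : 1 ≤ t)
    (h2t : 2 * t ≤ a) (h2tr : 2 * t ≤ r) (hna : n ≤ 32 * h * r * a) (har : 16 * h * r * a ≤ n) :
    n.choose r ≤ ((r + 1) * h) * (a.choose t * (n - a).choose (r - t)) := by
  obtain ⟨s, rfl⟩ : ∃ s, r = s + t := ⟨r - t, by omega⟩
  have e1 : s + t - t = s := by omega
  rw [e1]
  have hs : t ≤ s := by omega
  have ha : 1 ≤ a := by omega
  have hbig : 2 * (a * s) ≤ n := by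
    calc 2 * (a * s) = 2 * 1 * s * a := by ring
      _ ≤ 16 * h * (s + t) * a := by
        refine Nat.mul_le_mul_right _ ?_
        refine Nat.mul_le_mul ?_ (by omega)
        omega
      _ ≤ n := har
  have han : a ≤ n := by
    calc a = 1 * a := (one_mul a).symm
      _ ≤ 16 * h * (s + t) * a := by
        refine Nat.mul_le_mul_right _ ?_
        exact Nat.one_le_iff_ne_zero.mpr (by positivity)
      _ ≤ n := har
  have c1 := choose_pow n s t
  have c2 := choose_half n s a (by omega) hbig han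
  have c3 := pow_choose a t h2t
  -- the chain
  obtain ⟨A, hA⟩ : ∃ A, A = a.choose t := ⟨_, rfl⟩
  obtain ⟨B, hB⟩ : ∃ B, B = (n - a).choose s := ⟨_, rfl⟩
  rw [← hA] at c3 ⊢
  rw [← hB] at c2 ⊢
  have c4 : n ≤ 64 * h * s * a := by
    calc n ≤ 32 * h * (s + t) * a := hna
      _ ≤ 32 * h * (2 * s) * a := Nat.mul_le_mul_right _ (Nat.mul_le_mul_left _ (by omega))
      _ = 64 * h * s * a := by ring
  have c5 : n ^ t * (2 * t) ^ t ≤ (s + t) * (s * a) ^ t := by
    calc n ^ t * (2 * t) ^ t ≤ (64 * h * s * a) ^ t * (2 * t) ^ t :=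
          Nat.mul_le_mul_right _ (Nat.pow_le_pow_left c4 t)
      _ = (128 * h * t) ^ t * (s * a) ^ t := by
          rw [← mul_pow, ← mul_pow]
          congr 1
          ring
      _ ≤ (s + t) * (s * a) ^ t := Nat.mul_le_mul_right _ hT
  have hpos : 0 < (s * a) ^ t := Nat.pow_pos (Nat.mul_pos (by omega) ha)
  refine Nat.le_of_mul_le_mul_left (c := (s * a) ^ t) ?_ hpos
  calc (s * a) ^ t * n.choose (s + t) = a ^ t * (s ^ t * n.choose (s + t)) := by
        rw [mul_pow]; ring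
    _ ≤ ((2 * t) ^ t * A) * (n ^ t * n.choose s) := Nat.mul_le_mul c3 c1
    _ ≤ ((2 * t) ^ t * A) * (n ^ t * (2 * B)) :=
        Nat.mul_le_mul_left _ (Nat.mul_le_mul_left _ c2)
    _ = (n ^ t * (2 * t) ^ t) * (2 * (A * B)) := by ring
    _ ≤ ((s + t) * (s * a) ^ t) * (2 * (A * B)) := Nat.mul_le_mul_right _ c5
    _ = (s * a) ^ t * (((s + t) * 2) * (A * B)) := by ring
    _ ≤ (s * a) ^ t * (((s + t + 1) * h) * (A * B)) := by
        refine Nat.mul_le_mul_left _ (Nat.mul_le_mul_right _ ?_)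
        exact Nat.mul_le_mul (by omega) hh

/-- a large constant -/
def KK (h c : ℕ) : ℕ := 10 ^ 4 * 128 * 729 * 576 * h ^ 2 * c * (128 * h) ^ 6

/-- case (ii), final estimate -/
theorem case2 (h c τ L Λ a : ℕ) (ht : τ ≤ 3 * L) (hΛ : Λ ≤ (KK h c * L ^ 2) ^ τ)
    (ha : 3 * KK h c * L ^ 3 ≤ a) : τ ! * Λ ≤ a ^ τ := by
  have h1 : τ * (KK h c * L ^ 2) ≤ a := by
    calc τ * (KK h c * L ^ 2) ≤ 3 * L * (KK h c * L ^ 2) := Nat.mul_le_mul_right _ ht
      _ = 3 * KK h c * L ^ 3 := by ring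
      _ ≤ a := ha
  calc τ ! * Λ ≤ τ ^ τ * (KK h c * L ^ 2) ^ τ := Nat.mul_le_mul (Nat.factorial_le_pow τ) hΛ
    _ = (τ * (KK h c * L ^ 2)) ^ τ := (Nat.mul_pow τ (KK h c * L ^ 2) τ).symm
    _ ≤ a ^ τ := Nat.pow_le_pow_left h1 τ

/-- case (ii), small `τ` -/
theorem case2s (h c τ L r : ℕ) (hh : 1 ≤ h) (hc : 1 ≤ c) (hL : 1 ≤ L) (hτ : 1 ≤ τ)
    (hτL : τ < L) (hr : r ≤ (128 * h * (τ + 2)) ^ (τ + 2))
    (hLc : L ≤ c * (128 * h * (τ + 2) ^ 2)) :
    10 ^ 4 * h * r ^ 2 * L ≤ (KK h c * L ^ 2) ^ τ := by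
  obtain ⟨t, ht⟩ : ∃ t, t = τ + 2 := ⟨_, rfl⟩
  rw [← ht] at hr hLc
  have t3 : t ≤ 3 * τ := by omega
  have tL : t ≤ 3 * L := by omega
  have s1 : r ^ 2 ≤ (128 * h) ^ (6 * τ) * ((3 * L) ^ (2 * τ) * t ^ 4) := by
    calc r ^ 2 ≤ ((128 * h * t) ^ t) ^ 2 := Nat.pow_le_pow_left hr 2
      _ = (128 * h) ^ (2 * t) * t ^ (2 * t) := by
          rw [← pow_mul, mul_comm t 2, mul_pow]
      _ = (128 * h) ^ (2 * t) * (t ^ (2 * τ) * t ^ 4) := by
          rw [← pow_add]
          congr 2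
          omega
      _ ≤ (128 * h) ^ (6 * τ) * ((3 * L) ^ (2 * τ) * t ^ 4) := by
          refine Nat.mul_le_mul (Nat.pow_le_pow_right (by omega) (by omega)) ?_
          exact Nat.mul_le_mul_right _ (Nat.pow_le_pow_left tL _)
  have s2 : t ^ 6 ≤ 729 * 64 ^ τ := by
    calc t ^ 6 ≤ (3 * τ) ^ 6 := Nat.pow_le_pow_left t3 6
      _ = 729 * τ ^ 6 := by ring
      _ ≤ 729 * (2 ^ τ) ^ 6 :=
          Nat.mul_le_mul_left _ (Nat.pow_le_pow_left Nat.lt_two_pow_self.le 6)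
      _ = 729 * 64 ^ τ := by
          rw [← pow_mul, mul_comm τ 6, pow_mul]
          norm_num
  obtain ⟨D, hD⟩ : ∃ D, D = 10 ^ 4 * 128 * 729 * h ^ 2 * c := ⟨_, rfl⟩
  have hD1 : 1 ≤ D := by
    rw [hD]
    exact Nat.one_le_iff_ne_zero.mpr (by positivity)
  calc 10 ^ 4 * h * r ^ 2 * L
      ≤ 10 ^ 4 * h * ((128 * h) ^ (6 * τ) * ((3 * L) ^ (2 * τ) * t ^ 4)) *
          (c * (128 * h * t ^ 2)) :=
        Nat.mul_le_mul (Nat.mul_le_mul_left _ s1) hLc
    _ = (10 ^ 4 * 128 * h ^ 2 * c) * (128 * h) ^ (6 * τ) * (3 * L) ^ (2 * τ) * t ^ 6 := by ring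
    _ ≤ (10 ^ 4 * 128 * h ^ 2 * c) * (128 * h) ^ (6 * τ) * (3 * L) ^ (2 * τ) *
          (729 * 64 ^ τ) := Nat.mul_le_mul_left _ s2
    _ = D * (((128 * h) ^ 6) ^ τ * ((3 * L) ^ 2) ^ τ * 64 ^ τ) := by
        rw [hD, ← pow_mul, ← pow_mul]
        ring
    _ = D * ((128 * h) ^ 6 * (3 * L) ^ 2 * 64) ^ τ := by rw [← mul_pow, ← mul_pow]
    _ ≤ D ^ τ * ((128 * h) ^ 6 * (3 * L) ^ 2 * 64) ^ τ :=
        Nat.mul_le_mul_right _ (Nat.le_self_pow (by omega) D)
    _ = (KK h c * L ^ 2) ^ τ := by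
        rw [← mul_pow, hD]
        unfold KK
        congr 1
        ring

end Pool.Agent.Work.MP_f3d170_co_helper44.helper90

namespace Pool.Agent.Work.MP_f3d170_co_helper44

open helper90

theorem stmt_NUML : Stmt_NUML := by
  intro k hk
  obtain ⟨c, hc⟩ : ∃ c, c = 24 * (k + 3) := ⟨_, rfl⟩
  obtain ⟨h, hh⟩ : ∃ h, h = pH k := ⟨_, rfl⟩
  have hhk : h = 6 * (k + 1) := hh
  have hh1 : 2 ≤ h := by omega
  have hc1 : 1 ≤ c := by omega
  have hK1 : 10 ^ 4 * 128 * h ^ 2 * 128 ^ 2 ≤ KK h c := by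
    unfold KK
    have e : 10 ^ 4 * 128 * 729 * 576 * h ^ 2 * c * (128 * h) ^ 6 =
        (10 ^ 4 * 128 * h ^ 2 * 128 ^ 2) * (729 * 576 * c * 128 ^ 4 * h ^ 6) := by ring
    rw [e]
    exact Nat.le_mul_of_pos_right _ (by positivity)
  obtain ⟨C, hC⟩ := basicB k (16 * h * (3 * KK h c)) (by
    have : 1 ≤ KK h c := by
      unfold KK
      exact Nat.one_le_iff_ne_zero.mpr (by positivity)
    calc 2 ≤ 16 * 2 * (3 * 1) := by norm_num
      _ ≤ 16 * h * (3 * KK h c) :=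
        Nat.mul_le_mul (Nat.mul_le_mul_left _ hh1) (Nat.mul_le_mul_left _ this))
  refine ⟨C, ?_⟩
  intro r n hR τ hτ
  obtain ⟨hb1, hb2, hb3⟩ := hC r n hR
  obtain ⟨L, hL⟩ : ∃ L, L = pL n := ⟨_, rfl⟩
  obtain ⟨a, ha⟩ : ∃ a, a = pa k r n := ⟨_, rfl⟩
  have hL1 : 1 ≤ L := by
    rw [hL]
    unfold pL
    omega
  have hKK1 : 1 ≤ KK h c := by
    unfold KK
    exact Nat.one_le_iff_ne_zero.mpr (by positivity)
  have hKr : KK h c ≤ r := by
    refine le_trans ?_ hb2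
    calc KK h c = 1 * KK h c := (one_mul _).symm
      _ ≤ (16 * h * 3) * KK h c := Nat.mul_le_mul_right _ (by omega)
      _ = 16 * h * (3 * KK h c) := by ring
  have hr2 : (256 * h) ^ 2 ≤ r := by
    refine le_trans ?_ hKr
    refine le_trans ?_ hK1
    calc (256 * h) ^ 2 = 4 * h ^ 2 * 128 ^ 2 := by ring
      _ ≤ 10 ^ 4 * 128 * h ^ 2 * 128 ^ 2 := by
        refine Nat.mul_le_mul_right _ (Nat.mul_le_mul_right _ (by norm_num))
  have hr1 : 2 ≤ r := by
    have : 1 ≤ (256 * h) ^ 2 := Nat.one_le_pow _ _ (by omega)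
    have h4 : 256 * 2 ≤ (256 * h) ^ 2 := by
      calc 256 * 2 ≤ 256 * h := Nat.mul_le_mul_left _ hh1
        _ ≤ (256 * h) ^ 2 := Nat.le_self_pow (by norm_num) _
    omega
  have hl : 1 ≤ Nat.log 2 r := Nat.log_pos (by norm_num) hr1
  have hLl : L ≤ c * Nat.log 2 r := by
    rw [hL, hc]
    exact pL_le hR.2.2 hl
  have hrn : r ≤ n := by
    refine le_trans ?_ hb3
    exact Nat.le_mul_of_pos_left _ (by positivity)
  -- a
  have ha3 : 3 * KK h c * L ^ 3 ≤ a := by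
    rw [ha]
    unfold pa
    rw [Nat.le_div_iff_mul_le (by rw [← hh]; positivity)]
    rw [← hh]
    calc 3 * KK h c * L ^ 3 * (16 * h * r) = 16 * h * (3 * KK h c) * r * L ^ 3 := by ring
      _ ≤ n := by rw [hL]; exact hb1
  have har : 16 * h * r * a ≤ n := by
    rw [ha]
    unfold pa
    rw [← hh]
    exact Nat.mul_div_le n (16 * h * r)
  have hna : n ≤ 32 * h * r * a := by
    have h1 : n < 16 * h * r * a + 16 * h * r := by
      rw [ha]
      unfold pa
      rw [← hh]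
      have := Nat.lt_mul_div_succ n (show 0 < 16 * h * r by positivity)
      calc n < 16 * h * r * (n / (16 * h * r) + 1) := this
        _ = 16 * h * r * (n / (16 * h * r)) + 16 * h * r := by ring
    have ha1 : 1 ≤ a := by
      refine le_trans ?_ ha3
      exact Nat.one_le_iff_ne_zero.mpr (by positivity)
    have h2 : 16 * h * r ≤ 16 * h * r * a := Nat.le_mul_of_pos_right _ ha1
    have h3 : 32 * h * r * a = 16 * h * r * a + 16 * h * r * a := by ring
    omega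
  rw [← hh, ← ha]
  by_cases hcase : (128 * h * (τ + 2)) ^ (τ + 2) ≤ r
  · -- case (i)
    right
    have h2 : 2 * (τ + 2) ≤ 2 ^ (2 * (τ + 2)) := Nat.lt_two_pow_self.le
    have h3 : 2 ^ (2 * (τ + 2)) ≤ (128 * h * (τ + 2)) ^ (τ + 2) := by
      rw [pow_mul]
      refine Nat.pow_le_pow_left ?_ _
      calc 2 ^ 2 = 4 * 1 * 1 := by norm_num
        _ ≤ 128 * h * (τ + 2) := Nat.mul_le_mul (by omega) (by omega)
    have h2tr : 2 * (τ + 2) ≤ r := by omega
    have h4 : 2 * (τ + 2) ≤ Nat.log 2 r := by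
      refine Nat.le_log_of_pow_le (by norm_num) ?_
      omega
    have h5 : Nat.log 2 r ≤ L := by
      rw [hL]
      unfold pL
      have := Nat.log_mono_right (b := 2) hrn
      omega
    have h6 : L ≤ a := by
      refine le_trans ?_ ha3
      calc L = 1 * L := (one_mul L).symm
        _ ≤ 3 * KK h c * L ^ 3 :=
          Nat.mul_le_mul (by omega) (Nat.le_self_pow (by norm_num) L)
    refine ⟨by omega, ?_⟩
    exact case1 h r n a (τ + 2) hh1 hcase (by omega) (by omega) h2tr hna har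
  · -- case (ii)
    left
    push Not at hcase
    have hΛ : pLam k r n = 10 ^ 4 * h * r ^ 2 * L := by
      unfold pLam
      rw [← hh, ← hL]
    rw [hΛ] at hτ ⊢
    -- Λ ≤ n ^ 3 ≤ 2 ^ (3 L)
    have hnL : n < 2 ^ L := by
      rw [hL]
      exact Nat.lt_pow_succ_log_self (by norm_num) n
    have hLn : L ≤ n := by
      rw [hL]
      unfold pL
      exact Nat.log_lt_self 2 (by omega)
    have hΛ3 : 10 ^ 4 * h * r ^ 2 * L ≤ n ^ 3 := by
      have e0 : 10 ^ 4 * h ≤ (16 * h * (3 * KK h c)) := by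
        have : 10 ^ 4 ≤ KK h c := by
          refine le_trans ?_ hK1
          have : 1 ≤ h ^ 2 := Nat.one_le_pow _ _ (by omega)
          calc 10 ^ 4 = 10 ^ 4 * 1 * 1 * 1 := by norm_num
            _ ≤ 10 ^ 4 * 128 * h ^ 2 * 128 ^ 2 :=
              Nat.mul_le_mul (Nat.mul_le_mul (by norm_num) this) (by norm_num)
        calc 10 ^ 4 * h ≤ KK h c * h := Nat.mul_le_mul_right _ this
          _ = h * KK h c := mul_comm _ _
          _ ≤ h * (48 * KK h c) := Nat.mul_le_mul_left _ (by omega)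
          _ = 16 * h * (3 * KK h c) := by ring
      calc 10 ^ 4 * h * r ^ 2 * L = (10 ^ 4 * h * r) * r * L := by ring
        _ ≤ (16 * h * (3 * KK h c) * r) * r * L :=
          Nat.mul_le_mul_right _ (Nat.mul_le_mul_right _ (Nat.mul_le_mul_right _ e0))
        _ ≤ n * n * n :=
          Nat.mul_le_mul (Nat.mul_le_mul hb3 hrn) hLn
        _ = n ^ 3 := by ring
    have h3L : n ^ 3 ≤ 2 ^ (3 * L) := by
      calc n ^ 3 ≤ (2 ^ L) ^ 3 := Nat.pow_le_pow_left hnL.le 3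
        _ = 2 ^ (3 * L) := by rw [← pow_mul, mul_comm]
    have hτ3 : τ ≤ 3 * L := by
      have : 2 ^ τ < 2 ^ (3 * L) := by omega
      exact (Nat.pow_lt_pow_iff_right (by norm_num)).mp this |>.le
    refine case2 h c τ L _ a hτ3 ?_ ha3
    rcases Nat.lt_or_ge τ L with hlt | hge
    · -- small τ
      have hτ1 : 1 ≤ τ := by
        rcases Nat.eq_zero_or_pos τ with rfl | h0
        · exfalso
          have e : (128 * h * (0 + 2)) ^ (0 + 2) = (256 * h) ^ 2 := by ring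
          rw [e] at hcase
          omega
        · exact h0
      refine case2s h c τ L r (by omega) hc1 hL1 hτ1 hlt hcase.le ?_
      -- L ≤ c log r ≤ c * 128 h t^2
      have e1 : r ≤ 2 ^ (128 * h * (τ + 2) * (τ + 2)) := by
        refine hcase.le.trans ?_
        rw [pow_mul]
        exact Nat.pow_le_pow_left Nat.lt_two_pow_self.le _
      have e2 : Nat.log 2 r ≤ 128 * h * (τ + 2) * (τ + 2) := by
        have := Nat.log_mono_right (b := 2) e1
        rwa [Nat.log_pow (by norm_num)] at this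
      calc L ≤ c * Nat.log 2 r := hLl
        _ ≤ c * (128 * h * (τ + 2) * (τ + 2)) := Nat.mul_le_mul_left _ e2
        _ = c * (128 * h * (τ + 2) ^ 2) := by ring
    · -- large τ
      have e8 : 8 ≤ KK h c * L ^ 2 := by
        have e9 : 8 ≤ KK h c := by
          refine le_trans ?_ hK1
          have : 1 ≤ h ^ 2 := Nat.one_le_pow _ _ (by omega)
          calc 8 ≤ 10 ^ 4 * 128 * 1 * 128 ^ 2 := by norm_num
            _ ≤ 10 ^ 4 * 128 * h ^ 2 * 128 ^ 2 :=
              Nat.mul_le_mul_right _ (Nat.mul_le_mul_left _ this)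
        calc 8 = 8 * 1 := rfl
          _ ≤ KK h c * L ^ 2 := Nat.mul_le_mul e9 (Nat.one_le_pow _ _ hL1)
      calc 10 ^ 4 * h * r ^ 2 * L ≤ n ^ 3 := hΛ3
        _ ≤ 2 ^ (3 * L) := h3L
        _ = 8 ^ L := by rw [pow_mul]; norm_num
        _ ≤ (KK h c * L ^ 2) ^ L := Nat.pow_le_pow_left e8 L
        _ ≤ (KK h c * L ^ 2) ^ τ := Nat.pow_le_pow_right (by omega) hge

end Pool.Agent.Work.MP_f3d170_co_helper44
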