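import Mathlib
import Pool.Agent.Work.MP_f3d170_co_helper44.TNUMB13
import Pool.Agent.Work.MP_f3d170_co_helper44.TNUMF

/-!
# MP_f3d170_co, block NUMS (helper13)
-/

set_option autoImplicit false

open Nat

namespace Pool.Agent.Work.MP_f3d170_co_helper44

open h13

/-- The numerical facts used for NUMS. -/
structure SFact (k r n : ℕ) : Prop where
  hr : 12 ≤ r
  h3r : 3 * r ≤ n
  hh : 2 * pH k ≤ r
  hLn : 30 * pL n + 2 ≤ n
  hLam : pLam k r n ≤ 2 ^ (3 * pL n)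
  hLs : 160 * n * r ^ 2 * pH k ≤ pLs r
  hQ : 200 * pL n * pQ k n * r ≤ n
  h2 : 80 * (pL n + 4) * r ^ 2 * pH k ≤ 2 ^ (r - 1 - r / 2)
  h3 : 3840000 * (r + 1) * pH k * r * pL n ≤ n ^ 3

lemma s_c (k : ℕ) : ∃ N, ∀ r, N ≤ r → 400 * pH k * r ^ 3 ≤ 2 ^ (r - 1 - r / 2) := by
  obtain ⟨N, hN⟩ := log_poly (400 * pH k * 64) 3
  refine ⟨2 * N + 4, fun r hr => ?_⟩
  set c' := r - 1 - r / 2 with hc'
  have h1 : N ≤ c' := by omega
  have h2 : r ≤ 4 * c' := by omega
  calc 400 * pH k * r ^ 3 ≤ 400 * pH k * (4 * c') ^ 3 := by gcongr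
    _ = 400 * pH k * 64 * c' ^ 3 := by ring
    _ ≤ 2 ^ c' := hN _ h1

lemma ev_SFact (k : ℕ) : ∃ C, ∀ r n, Rg k C r n → SFact k r n := by
  obtain ⟨N, hN⟩ := s_c k
  have E : Ev k (fun r n => 12 ≤ r ∧ N ≤ r ∧ 2 * pH k ≤ r ∧ 10 ^ 4 * pH k * pL n ^ 1 ≤ r ∧
      160 * (2 * (k + 1)) ^ 24 * pH k * 30 ! * 2 ^ 30 ≤ r ∧ 1 * pL n ^ 1 ≤ r ∧
      (200 * (16 * (3 + 9 * 10 ^ 5 * pH k) * pH k + 100)) * r * pL n ^ 3 ≤ n ∧
      (3840000 * 2 * pH k) * r * pL n ^ 3 ≤ n ∧ 32 * r * pL n ^ 3 ≤ n ∧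
      n ≤ (2 * r * (k + 1)) ^ 24) :=
    Ev_and (ev_r k _) (Ev_and (ev_r k _) (Ev_and (ev_r k _) (Ev_and (ev_poly k _ _)
      (Ev_and (ev_r k _) (Ev_and (ev_poly k _ _) (Ev_and (ev_lin k _) (Ev_and (ev_lin k _)
        (Ev_and (ev_lin k _) (ev_up k)))))))))
  obtain ⟨C, hC⟩ := E
  refine ⟨C, fun r n hR => ?_⟩
  obtain ⟨hr, hrN, hh, hL1, hrc, hLr, hq, h3, h32, hup⟩ := hC r n hR
  have hL := one_le_L n
  have hnL := lt_L n
  rw [pow_one] at hL1 hLr
  rw [one_mul] at hLr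
  have hL13 : pL n ≤ pL n ^ 3 := by
    calc pL n = pL n ^ 1 := (pow_one _).symm
      _ ≤ pL n ^ 3 := Nat.pow_le_pow_right hL (by norm_num)
  have hL23 : pL n ^ 2 ≤ pL n ^ 3 := Nat.pow_le_pow_right hL (by norm_num)
  have hrL : 32 * r * pL n ≤ n := le_trans (Nat.mul_le_mul_left _ hL13) h32
  have hrn : 32 * r ≤ n := le_trans (Nat.le_mul_of_pos_right _ hL) hrL
  have hLn : 32 * 12 * pL n ≤ n := by
    calc 32 * 12 * pL n ≤ 32 * r * pL n := by gcongr
      _ ≤ n := hrL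
  refine ⟨hr, by omega, hh, by omega, ?_, ?_, ?_, ?_, ?_⟩
  · unfold pLam
    have e1 : r ≤ 2 ^ pL n := by omega
    calc 10 ^ 4 * pH k * r ^ 2 * pL n = (10 ^ 4 * pH k * pL n) * r ^ 2 := by ring
      _ ≤ 2 ^ pL n * (2 ^ pL n) ^ 2 :=
          Nat.mul_le_mul (hL1.trans e1) (Nat.pow_le_pow_left e1 2)
      _ = 2 ^ (3 * pL n) := by rw [← pow_succ', ← pow_mul, mul_comm]
  · unfold pLs
    rw [Nat.le_div_iff_mul_le (Nat.factorial_pos 30)]
    have e1 : r ≤ 2 * (r / 2 + 1) := by omega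
    have e2 : 2 ^ 30 * (160 * n * r ^ 2 * pH k * 30 !) ≤ 2 ^ 30 * (r / 2 + 1) ^ 30 := by
      calc 2 ^ 30 * (160 * n * r ^ 2 * pH k * 30 !)
          ≤ 2 ^ 30 * (160 * (2 * r * (k + 1)) ^ 24 * r ^ 2 * pH k * 30 !) := by gcongr
        _ = (160 * (2 * (k + 1)) ^ 24 * pH k * 30 ! * 2 ^ 30) * r ^ 26 := by
            generalize 30 ! = F
            ring
        _ ≤ r * r ^ 26 := Nat.mul_le_mul_right _ hrc
        _ = r ^ 27 := by ring
        _ ≤ r ^ 30 := Nat.pow_le_pow_right (by omega) (by norm_num)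
        _ ≤ (2 * (r / 2 + 1)) ^ 30 := Nat.pow_le_pow_left e1 30
        _ = 2 ^ 30 * (r / 2 + 1) ^ 30 := by rw [mul_pow]
    exact Nat.le_of_mul_le_mul_left e2 (by positivity)
  · have e1 : pQ k n ≤ (16 * (3 + 9 * 10 ^ 5 * pH k) * pH k + 100) * pL n := by
      unfold pQ pm
      have : 100 ≤ 100 * pL n := by omega
      calc 16 * (3 * pL n + 9 * 10 ^ 5 * pH k * pL n) * pH k + 100
          ≤ 16 * (3 * pL n + 9 * 10 ^ 5 * pH k * pL n) * pH k + 100 * pL n := by omega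
        _ = _ := by ring
    calc 200 * pL n * pQ k n * r
        ≤ 200 * pL n * ((16 * (3 + 9 * 10 ^ 5 * pH k) * pH k + 100) * pL n) * r := by gcongr
      _ = (200 * (16 * (3 + 9 * 10 ^ 5 * pH k) * pH k + 100)) * r * pL n ^ 2 := by ring
      _ ≤ (200 * (16 * (3 + 9 * 10 ^ 5 * pH k) * pH k + 100)) * r * pL n ^ 3 :=
          Nat.mul_le_mul_left _ hL23
      _ ≤ n := hq
  · calc 80 * (pL n + 4) * r ^ 2 * pH k ≤ 80 * (5 * r) * r ^ 2 * pH k := by
          gcongr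
          omega
      _ = 400 * pH k * r ^ 3 := by ring
      _ ≤ _ := hN r hrN
  · have e1 : r + 1 ≤ 2 * r := by omega
    have e2 : 1 ≤ n := by omega
    have e3 : (3840000 * 2 * pH k) * r * pL n ≤ n := le_trans (Nat.mul_le_mul_left _ hL13) h3
    calc 3840000 * (r + 1) * pH k * r * pL n ≤ 3840000 * (2 * r) * pH k * r * pL n := by gcongr
      _ = ((3840000 * 2 * pH k) * r * pL n) * r * 1 := by ring
      _ ≤ n * n * n := Nat.mul_le_mul (Nat.mul_le_mul e3 (by omega)) e2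
      _ = n ^ 3 := by ring

lemma nums_core {h n r L N Y W X Λ Λs Q v A1 A2 A3 m1 m2 c' : ℕ}
    (hr : 12 ≤ r) (hL : 1 ≤ L) (hh : 2 * h ≤ r) (hrn : 3 * r ≤ n) (hLn : L ≤ n)
    (hN0 : 0 < N) (hv0 : N ≤ (r + 1) * h * v)
    (hLam : Λ = 10 ^ 4 * h * r ^ 2 * L) (hh0 : 0 < h)
    (hLs : 160 * n * r ^ 2 * h ≤ Λs)
    (hQ : 200 * L * Q * r ≤ n)
    (h2 : 80 * (L + 4) * r ^ 2 * h ≤ 2 ^ c')
    (h3 : 3840000 * (r + 1) * h * r * L ≤ n ^ 3)
    (hY : Y * n ≤ 2 * r * N) (hW : 2 ^ c' * W ≤ Y) (hX : X ≤ 2 * W)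
    (hA1 : Λ * A1 ≤ 2 * Y) (hA2 : Λs * A2 ≤ 2 * Y) (hA3 : (n * N) * A3 ≤ Q * v * (2 * Y))
    (hm1 : m1 ≤ r) (hm2 : m2 ≤ r) (hN5 : n ^ 5 ≤ 3840 * N) :
    (2 * h + n * L + (n + 1) + (L + 4) * (X + 1 + 2 * n + 2) +
      (35 * L * (A1 + m1) + 2 * n * (A2 + m1)) + 5 * L * (A3 + m2)) * n ≤ v := by
  have hn1 : 1 ≤ n := by omega
  have hr1 : r + 1 ≤ 2 * r := by omega
  have hYv : Y * n ≤ 4 * r ^ 2 * h * v := by
    calc Y * n ≤ 2 * r * N := hY
      _ ≤ 2 * r * ((r + 1) * h * v) := Nat.mul_le_mul_left _ hv0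
      _ ≤ 2 * r * ((2 * r) * h * v) := by gcongr
      _ = _ := by ring
  have hLam0 : 0 < Λ := by rw [hLam]; positivity
  have hLs0 : 0 < Λs := lt_of_lt_of_le (by positivity) hLs
  have t1 : 10 * n * (35 * L * A1) ≤ v := by
    have e : Λ * (10 * n * (35 * L * A1)) ≤ Λ * v := by
      calc Λ * (10 * n * (35 * L * A1)) = 350 * L * n * (Λ * A1) := by ring
        _ ≤ 350 * L * n * (2 * Y) := Nat.mul_le_mul_left _ hA1
        _ = 700 * L * (Y * n) := by ring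
        _ ≤ 700 * L * (4 * r ^ 2 * h * v) := Nat.mul_le_mul_left _ hYv
        _ = (2800 * h * r ^ 2 * L) * v := by ring
        _ ≤ Λ * v := by
            rw [hLam]
            gcongr
            norm_num
    exact Nat.le_of_mul_le_mul_left e hLam0
  have t2 : 10 * n * (2 * n * A2) ≤ v := by
    have e : Λs * (10 * n * (2 * n * A2)) ≤ Λs * v := by
      calc Λs * (10 * n * (2 * n * A2)) = 20 * n ^ 2 * (Λs * A2) := by ring
        _ ≤ 20 * n ^ 2 * (2 * Y) := Nat.mul_le_mul_left _ hA2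
        _ = 40 * n * (Y * n) := by ring
        _ ≤ 40 * n * (4 * r ^ 2 * h * v) := Nat.mul_le_mul_left _ hYv
        _ = (160 * n * r ^ 2 * h) * v := by ring
        _ ≤ Λs * v := Nat.mul_le_mul_right _ hLs
    exact Nat.le_of_mul_le_mul_left e hLs0
  have t3 : 10 * n * (5 * L * A3) ≤ v := by
    have e : (n * N) * (10 * n * (5 * L * A3)) ≤ (n * N) * v := by
      calc (n * N) * (10 * n * (5 * L * A3)) = 50 * n * L * ((n * N) * A3) := by ring
        _ ≤ 50 * n * L * (Q * v * (2 * Y)) := Nat.mul_le_mul_left _ hA3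
        _ = 100 * L * Q * v * (Y * n) := by ring
        _ ≤ 100 * L * Q * v * (2 * r * N) := Nat.mul_le_mul_left _ hY
        _ = (200 * L * Q * r) * (N * v) := by ring
        _ ≤ n * (N * v) := Nat.mul_le_mul_right _ hQ
        _ = (n * N) * v := by ring
    exact Nat.le_of_mul_le_mul_left e (by positivity)
  have t4 : 10 * n * ((L + 4) * X) ≤ v := by
    have e : 2 ^ c' * (10 * n * ((L + 4) * X)) ≤ 2 ^ c' * v := by
      calc 2 ^ c' * (10 * n * ((L + 4) * X)) ≤ 2 ^ c' * (10 * n * ((L + 4) * (2 * W))) := by gcongr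
        _ = 20 * n * (L + 4) * (2 ^ c' * W) := by ring
        _ ≤ 20 * n * (L + 4) * Y := Nat.mul_le_mul_left _ hW
        _ = 20 * (L + 4) * (Y * n) := by ring
        _ ≤ 20 * (L + 4) * (4 * r ^ 2 * h * v) := Nat.mul_le_mul_left _ hYv
        _ = (80 * (L + 4) * r ^ 2 * h) * v := by ring
        _ ≤ 2 ^ c' * v := Nat.mul_le_mul_right _ h2
    exact Nat.le_of_mul_le_mul_left e (by positivity)
  have hvb : 1000 * n ^ 2 * r * L ≤ v := by
    have e : (3840 * (r + 1) * h) * (1000 * n ^ 2 * r * L) ≤ (3840 * (r + 1) * h) * v := by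
      calc (3840 * (r + 1) * h) * (1000 * n ^ 2 * r * L)
          = n ^ 2 * (3840000 * (r + 1) * h * r * L) := by ring
        _ ≤ n ^ 2 * n ^ 3 := Nat.mul_le_mul_left _ h3
        _ = n ^ 5 := by ring
        _ ≤ 3840 * N := hN5
        _ ≤ 3840 * ((r + 1) * h * v) := Nat.mul_le_mul_left _ hv0
        _ = _ := by ring
    exact Nat.le_of_mul_le_mul_left e (by positivity)
  have t5 : 10 * n * (2 * h + n * L + (n + 1) + (L + 4) * (1 + 2 * n + 2) + 35 * L * m1 +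
      2 * n * m1 + 5 * L * m2) ≤ v := by
    refine le_trans ?_ hvb
    have e0 : 2 * h + n * L + (n + 1) + (L + 4) * (1 + 2 * n + 2) + 35 * L * m1 +
      2 * n * m1 + 5 * L * m2 ≤ 100 * (n * r * L) := by
      have f1 : n ≤ n * r * L := by
        calc n = n * 1 * 1 := by ring
          _ ≤ n * r * L := by gcongr; omega
      have f2 : n * L ≤ n * r * L := by
        calc n * L = n * 1 * L := by ring
          _ ≤ n * r * L := by gcongr; omega
      have f3 : (L + 4) * (1 + 2 * n + 2) ≤ 25 * (n * L) := by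
        have g1 : (L + 4) ≤ 5 * L := by omega
        have g2 : 1 + 2 * n + 2 ≤ 5 * n := by omega
        calc (L + 4) * (1 + 2 * n + 2) ≤ 5 * L * (5 * n) := Nat.mul_le_mul g1 g2
          _ = _ := by ring
      have f4 : 35 * L * m1 ≤ 35 * (n * r * L) := by
        calc 35 * L * m1 ≤ 35 * L * r := by gcongr
          _ = 35 * (1 * r * L) := by ring
          _ ≤ 35 * (n * r * L) := by gcongr
      have f5 : 2 * n * m1 ≤ 2 * (n * r * L) := by
        calc 2 * n * m1 ≤ 2 * n * r := by gcongr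
          _ = 2 * (n * r * 1) := by ring
          _ ≤ 2 * (n * r * L) := by gcongr
      have f6 : 5 * L * m2 ≤ 5 * (n * r * L) := by
        calc 5 * L * m2 ≤ 5 * L * r := by gcongr
          _ = 5 * (1 * r * L) := by ring
          _ ≤ 5 * (n * r * L) := by gcongr
      omega
    calc 10 * n * (2 * h + n * L + (n + 1) + (L + 4) * (1 + 2 * n + 2) + 35 * L * m1 +
      2 * n * m1 + 5 * L * m2) ≤ 10 * n * (100 * (n * r * L)) := Nat.mul_le_mul_left _ e0
      _ = 1000 * n ^ 2 * r * L := by ring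
  have e : 10 * ((2 * h + n * L + (n + 1) + (L + 4) * (X + 1 + 2 * n + 2) +
      (35 * L * (A1 + m1) + 2 * n * (A2 + m1)) + 5 * L * (A3 + m2)) * n) =
      10 * n * (35 * L * A1) + 10 * n * (2 * n * A2) + 10 * n * (5 * L * A3) +
      10 * n * ((L + 4) * X) + 10 * n * (2 * h + n * L + (n + 1) + (L + 4) * (1 + 2 * n + 2) +
      35 * L * m1 + 2 * n * m1 + 5 * L * m2) := by ring
  omega

lemma three_le : (3 : ℕ) ≤ 2 ^ 2 := by norm_num

/-- NUMS: second pass. -/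
theorem stmt_NUMS : Stmt_NUMS := by
  intro k hk
  obtain ⟨C, hC⟩ := ev_SFact k
  refine ⟨C, fun r n hR v hv1 hv2 => ?_⟩
  have F := hC r n hR
  have hL := one_le_L n
  have hnL := lt_L n
  have hr := F.hr
  have h3r := F.h3r
  set L := pL n with hLd
  set c := r / 2 with hc
  set Λ := pLam k r n with hΛ
  set Λs := pLs r with hΛs
  set h := pH k with hhd
  set N := n.choose r with hNd
  have hh0 : 0 < h := by rw [hhd]; unfold pH; omega
  have hN0 : 0 < N := Nat.choose_pos (by omega)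
  -- the three sums
  set A1 := ∑ j ∈ Finset.Icc (c + 1) (r - 1), n.choose j / Λ with hA1
  set A2 := ∑ j ∈ Finset.Icc (c + 1) (r - 1), n.choose j / Λs with hA2
  set A3 := ∑ j ∈ Finset.Icc (c + 2) (r - 1), pQ k n * v * n.choose j / (n * N) with hA3
  have hS : ∀ a, ∑ j ∈ Finset.Icc a (r - 1), n.choose j ≤ 2 * n.choose (r - 1) :=
    fun a => choose_sum_Icc (by omega)
  have bA1 : Λ * A1 ≤ 2 * n.choose (r - 1) := by
    rw [hA1, Finset.mul_sum]
    refine le_trans (Finset.sum_le_sum fun j _ => ?_) (hS (c + 1))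
    exact Nat.mul_div_le _ _
  have bA2 : Λs * A2 ≤ 2 * n.choose (r - 1) := by
    rw [hA2, Finset.mul_sum]
    refine le_trans (Finset.sum_le_sum fun j _ => ?_) (hS (c + 1))
    exact Nat.mul_div_le _ _
  have bA3 : (n * N) * A3 ≤ pQ k n * v * (2 * n.choose (r - 1)) := by
    rw [hA3, Finset.mul_sum]
    calc ∑ j ∈ Finset.Icc (c + 2) (r - 1), n * N * (pQ k n * v * n.choose j / (n * N))
        ≤ ∑ j ∈ Finset.Icc (c + 2) (r - 1), pQ k n * v * n.choose j :=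
          Finset.sum_le_sum fun j _ => Nat.mul_div_le _ _
      _ = pQ k n * v * ∑ j ∈ Finset.Icc (c + 2) (r - 1), n.choose j := by rw [Finset.mul_sum]
      _ ≤ _ := Nat.mul_le_mul_left _ (hS (c + 2))
  have hW : 2 ^ (r - 1 - c) * n.choose c ≤ n.choose (r - 1) := choose_pow (by omega) (by omega)
  have hX : 2 * n.choose c / (c + 1) ≤ 2 * n.choose c := Nat.div_le_self _ _
  have hY := choose_pred (n := n) (r := r) (by omega) (by omega)
  have hN5 := choose_five (n := n) (r := r) (by omega) (by omega)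
  have hLn := F.hLn
  rw [← hLd] at hLn
  have key := nums_core (h := h) (n := n) (r := r) (L := L) (N := N) (Y := n.choose (r - 1))
    (W := n.choose c) (X := 2 * n.choose c / (c + 1)) (Λ := Λ) (Λs := Λs) (Q := pQ k n) (v := v)
    (A1 := A1) (A2 := A2) (A3 := A3) (m1 := (Finset.Icc (c + 1) (r - 1)).card)
    (m2 := (Finset.Icc (c + 2) (r - 1)).card) (c' := r - 1 - c)
    hr hL F.hh h3r (by omega) hN0 hv1 rfl hh0 F.hLs F.hQ F.h2 F.h3 hY hW hX bA1 bA2 bA3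
    (by rw [Nat.card_Icc]; omega) (by rw [Nat.card_Icc]; omega) hN5
  have hle := (Nat.le_div_iff_mul_le (by omega : 0 < n)).2 key
  -- the bits
  have hLam2 : 3 * (Λ * n ^ 30) ≤ 2 ^ (35 * L) := by
    calc 3 * (Λ * n ^ 30) ≤ 2 ^ 2 * (2 ^ (3 * L) * (2 ^ L) ^ 30) := by
          have e1 := F.hLam
          gcongr
          norm_num
      _ = 2 ^ (2 + 33 * L) := by rw [← pow_mul, ← pow_add, ← pow_add]; congr 1; ring
      _ ≤ 2 ^ (35 * L) := Nat.pow_le_pow_right (by norm_num) (by omega)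
  have hLs2 : 3 * (Λs * 2 ^ n) ≤ 2 ^ (2 * n) := by
    have e1 : Λs ≤ 2 ^ (30 * L) := by
      calc Λs ≤ (r / 2 + 1) ^ 30 := Nat.div_le_self _ _
        _ ≤ (2 ^ L) ^ 30 := Nat.pow_le_pow_left (by omega) 30
        _ = 2 ^ (30 * L) := by rw [← pow_mul, mul_comm]
    calc 3 * (Λs * 2 ^ n) ≤ 2 ^ 2 * (2 ^ (30 * L) * 2 ^ n) := by
          gcongr
          norm_num
      _ = 2 ^ (2 + 30 * L + n) := by rw [← pow_add, ← pow_add]; congr 1; ring
      _ ≤ 2 ^ (2 * n) := Nat.pow_le_pow_right (by norm_num) (by omega)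
  have h3n : 3 * n ^ 3 ≤ 2 ^ (5 * L) := by
    calc 3 * n ^ 3 ≤ 2 ^ 2 * (2 ^ L) ^ 3 := by
          gcongr
          norm_num
      _ = 2 ^ (2 + 3 * L) := by rw [← pow_mul, ← pow_add]; congr 1; ring
      _ ≤ 2 ^ (5 * L) := Nat.pow_le_pow_right (by norm_num) (by omega)
  have P1 : ∏ j ∈ Finset.Icc (c + 1) (r - 1), LK n Λ Λs j ≤
      2 ^ (35 * L * (A1 + (Finset.Icc (c + 1) (r - 1)).card) +
        2 * n * (A2 + (Finset.Icc (c + 1) (r - 1)).card)) := by
    calc ∏ j ∈ Finset.Icc (c + 1) (r - 1), LK n Λ Λs j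
        ≤ ∏ j ∈ Finset.Icc (c + 1) (r - 1),
          2 ^ (35 * L * (n.choose j / Λ + 1) + 2 * n * (n.choose j / Λs + 1)) := by
          refine Finset.prod_le_prod (fun _ _ => Nat.zero_le _) fun j _ => ?_
          unfold LK
          calc (3 * (Λ * n ^ 30)) ^ (n.choose j / Λ + 1) *
                (3 * (Λs * 2 ^ n)) ^ (n.choose j / Λs + 1)
              ≤ (2 ^ (35 * L)) ^ (n.choose j / Λ + 1) * (2 ^ (2 * n)) ^ (n.choose j / Λs + 1) :=
                Nat.mul_le_mul (Nat.pow_le_pow_left hLam2 _) (Nat.pow_le_pow_left hLs2 _)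
            _ = _ := by rw [← pow_mul, ← pow_mul, ← pow_add]
      _ = 2 ^ (∑ j ∈ Finset.Icc (c + 1) (r - 1),
          (35 * L * (n.choose j / Λ + 1) + 2 * n * (n.choose j / Λs + 1))) :=
          Finset.prod_pow_eq_pow_sum _ _ _
      _ = _ := by
          congr 1
          rw [Finset.sum_add_distrib, ← Finset.mul_sum, ← Finset.mul_sum, Finset.sum_add_distrib,
            Finset.sum_add_distrib, Finset.sum_const, smul_eq_mul, mul_one]
  have P2 : ∏ j ∈ Finset.Icc (c + 2) (r - 1), (3 * n ^ 3) ^ ac k r n v j ≤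
      2 ^ (5 * L * (A3 + (Finset.Icc (c + 2) (r - 1)).card)) := by
    calc ∏ j ∈ Finset.Icc (c + 2) (r - 1), (3 * n ^ 3) ^ ac k r n v j
        ≤ ∏ j ∈ Finset.Icc (c + 2) (r - 1),
          2 ^ (5 * L * (pQ k n * v * n.choose j / (n * N) + 1)) := by
          refine Finset.prod_le_prod (fun _ _ => Nat.zero_le _) fun j _ => ?_
          unfold ac
          calc (3 * n ^ 3) ^ (pQ k n * v * n.choose j / (n * n.choose r) + 1)
              ≤ (2 ^ (5 * L)) ^ (pQ k n * v * n.choose j / (n * n.choose r) + 1) :=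
                Nat.pow_le_pow_left h3n _
            _ = _ := by rw [← pow_mul]
      _ = 2 ^ (∑ j ∈ Finset.Icc (c + 2) (r - 1),
          5 * L * (pQ k n * v * n.choose j / (n * N) + 1)) :=
          Finset.prod_pow_eq_pow_sum _ _ _
      _ = _ := by
          congr 1
          rw [← Finset.mul_sum, Finset.sum_add_distrib, Finset.sum_const, smul_eq_mul, mul_one]
  have Q1 : 2 * h ≤ 2 ^ (2 * h) := Nat.lt_two_pow_self.le
  have Q2 : n ! ≤ 2 ^ (n * L) := fact_le_pow_L n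
  have Q3 : N + 1 ≤ 2 ^ (n + 1) := by
    have e1 : N ≤ 2 ^ n := Nat.choose_le_two_pow n r
    have e2 : 1 ≤ 2 ^ n := Nat.one_le_two_pow
    rw [pow_succ]
    omega
  unfold sideB
  calc 2 * h * n ! * (N + 1) *
      (2 ^ ((L + 4) * (2 * n.choose c / (c + 1) + 1 + 2 * n + 2)) *
        (∏ j ∈ Finset.Icc (c + 1) (r - 1), LK n Λ Λs j) *
        ∏ j ∈ Finset.Icc (c + 2) (r - 1), (3 * n ^ 3) ^ ac k r n v j)
      ≤ 2 ^ (2 * h) * 2 ^ (n * L) * 2 ^ (n + 1) *
      (2 ^ ((L + 4) * (2 * n.choose c / (c + 1) + 1 + 2 * n + 2)) *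
        2 ^ (35 * L * (A1 + (Finset.Icc (c + 1) (r - 1)).card) +
        2 * n * (A2 + (Finset.Icc (c + 1) (r - 1)).card)) *
        2 ^ (5 * L * (A3 + (Finset.Icc (c + 2) (r - 1)).card))) := by
        gcongr
    _ = 2 ^ (2 * h + n * L + (n + 1) + (L + 4) * (2 * n.choose c / (c + 1) + 1 + 2 * n + 2) +
      (35 * L * (A1 + (Finset.Icc (c + 1) (r - 1)).card) +
        2 * n * (A2 + (Finset.Icc (c + 1) (r - 1)).card)) +
      5 * L * (A3 + (Finset.Icc (c + 2) (r - 1)).card)) := by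
        rw [← pow_add, ← pow_add, ← pow_add, ← pow_add, ← pow_add]
        congr 1
        ring
    _ ≤ 2 ^ (v / n) := Nat.pow_le_pow_right (by norm_num) hle

end Pool.Agent.Work.MP_f3d170_co_helper44
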