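import Pool.Agent.Work.MP_f3d170_co_helper44.Interface

set_option autoImplicit false

open Set Matroid Nat
open Pool.Agent.Work.MP_f3d170_co_h45
open Pool.Agent.Work.MP_f3d170_co_helper60
open Pool.Agent.Work.MP_f3d170_co_helper60b

namespace Pool.Agent.Work.MP_f3d170_co_helper44.P38

variable {n : ℕ}

/-- the number of independent subsets of `P \ I`, `I` a basis of the flat `P` -/
lemma two_pow_le {M : Matroid (Fin n)} (hE : M.E = Set.univ) {j : ℕ} {P I : Set (Fin n)}
    (hP : IsHyp M j P) (hI : M.Indep I) (hIc : I.ncard = j) (hIP : I ⊆ P) :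
    2 ^ rk M (P \ I) ≤ bn M j P := by
  classical
  obtain ⟨J, hJ⟩ := M.exists_isBasis (P \ I) (by rw [hE]; exact Set.subset_univ _)
  have hJc : J.ncard = rk M (P \ I) := by
    rw [← indep_iff_rk.1 hJ.indep, rk_eq_iff]
    exact hJ.eRk_eq_eRk
  rw [← hJc, ← Set.ncard_powerset J]
  have hext : ∀ K ∈ 𝒫 J, ∃ B, M.Indep B ∧ B.ncard = j ∧ B ⊆ P ∧ B \ I = K := by
    intro K hK
    have hKJ : K ⊆ J := hK
    have hKi : M.Indep K := hJ.indep.subset hKJ
    have hKPI : K ⊆ P \ I := hKJ.trans hJ.subset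
    obtain ⟨B, hB, hKB⟩ := hKi.subset_isBasis_of_subset (Set.subset_union_left : K ⊆ K ∪ I)
      (by rw [hE]; exact Set.subset_univ _)
    have hBP : B ⊆ P := hB.subset.trans (Set.union_subset (hKPI.trans Set.sdiff_subset) hIP)
    refine ⟨B, hB.indep, ?_, hBP, ?_⟩
    · rw [← indep_iff_rk.1 hB.indep]
      refine le_antisymm ?_ ?_
      · rw [← hP.2]; exact rk_mono M hBP
      · have h1 : rk M B = rk M (K ∪ I) := by rw [rk_eq_iff]; exact hB.eRk_eq_eRk
        rw [h1, ← hIc, ← indep_iff_rk.1 hI]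
        exact rk_mono M Set.subset_union_right
    · ext x
      constructor
      · rintro ⟨hxB, hxI⟩
        rcases hB.subset hxB with h | h
        · exact h
        · exact absurd h hxI
      · intro hx
        exact ⟨hKB hx, (hKPI hx).2⟩
  choose! B hB using hext
  unfold bn
  refine Set.ncard_le_ncard_of_injOn B ?_ ?_ (Set.toFinite _)
  · intro K hK
    exact ⟨(hB K hK).1, (hB K hK).2.1, (hB K hK).2.2.1⟩
  · intro K hK K' hK' h
    rw [← (hB K hK).2.2.2, ← (hB K' hK').2.2.2, h]

lemma card_mem (r : ℕ) (a : Fin n) :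
    n * ((Finset.powersetCard (r + 1) (Finset.univ : Finset (Fin n))).filter (fun X => a ∈ X)).card
      = (r + 1) * n.choose (r + 1) := by
  classical
  have hn : 0 < n := Fin.pos a
  obtain ⟨m, rfl⟩ : ∃ m, n = m + 1 := ⟨n - 1, by omega⟩
  have h1 : ((Finset.powersetCard (r + 1) (Finset.univ : Finset (Fin (m + 1)))).filter
      (fun X => a ∉ X)) = Finset.powersetCard (r + 1) (Finset.univ.erase a) := by
    ext X
    simp only [Finset.mem_filter, Finset.mem_powersetCard, Finset.subset_univ, true_and,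
      Finset.subset_erase]
    tauto
  have h2 := Finset.card_filter_add_card_filter_not (s := Finset.powersetCard (r + 1)
    (Finset.univ : Finset (Fin (m + 1)))) (fun X => a ∈ X)
  rw [h1, Finset.card_powersetCard, Finset.card_powersetCard, Finset.card_erase_of_mem
    (Finset.mem_univ _), Finset.card_univ, Fintype.card_fin, Nat.add_sub_cancel] at h2
  have h3 : (m + 1).choose (r + 1) = m.choose r + m.choose (r + 1) := Nat.choose_succ_succ m r
  have h4 : ((Finset.powersetCard (r + 1) (Finset.univ : Finset (Fin (m + 1)))).filter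
      (fun X => a ∈ X)).card = m.choose r := by omega
  rw [h4]
  have h5 := Nat.add_one_mul_choose_eq m r
  rw [h5, mul_comm]

end Pool.Agent.Work.MP_f3d170_co_helper44.P38

namespace Pool.Agent.Work.MP_f3d170_co_helper44

open P38

theorem stmt_P38 : Stmt_P38 := by
  classical
  intro n s j Λ ρ M P hE hn hρ hΛ hjs hP hbn hRm
  by_contra hcon
  push Not at hcon
  obtain ⟨I, hI⟩ := M.exists_isBasis P (by rw [hE]; exact Set.subset_univ _)
  have hIc : I.ncard = j := by
    rw [← indep_iff_rk.1 hI.indep, ← hP.2, rk_eq_iff]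
    exact hI.eRk_eq_eRk
  have h2 := two_pow_le hE hP hI.indep hIc hI.subset
  have hrk : rk M (P \ I) + 1 ≤ ρ := by
    by_contra hcon'
    push Not at hcon'
    have : 2 ^ ρ ≤ 2 ^ rk M (P \ I) := Nat.pow_le_pow_right (by norm_num) (by omega)
    omega
  set A := P \ I with hA
  have hAc : A.ncard + j = P.ncard := by
    rw [← hIc]; exact Set.ncard_sdiff_add_ncard_of_subset hI.subset (Set.toFinite _)
  have hA4 : n < 4 * A.ncard := by omega
  set Af : Finset (Fin n) := (Set.toFinite A).toFinset with hAf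
  have hAfc : Af.card = A.ncard := by
    rw [hAf, Set.ncard_eq_toFinset_card _ (Set.toFinite _)]
  set 𝒫f := Finset.powersetCard (s + 1) (Finset.univ : Finset (Fin n)) with h𝒫
  -- sum over sets
  have hsum : ∑ X ∈ 𝒫f, (Af.filter (fun a => a ∈ X)).card
      = ∑ a ∈ Af, (𝒫f.filter (fun X => a ∈ X)).card := by
    simp_rw [Finset.card_filter]
    exact Finset.sum_comm
  have hlow : n * ∑ a ∈ Af, (𝒫f.filter (fun X => a ∈ X)).card
      = A.ncard * ((s + 1) * n.choose (s + 1)) := by
    rw [Finset.mul_sum, Finset.sum_congr rfl (fun a _ => card_mem s a), Finset.sum_const,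
      smul_eq_mul, hAfc]
  -- bad sets
  let Bad : Finset (Fin n) → Prop := fun X => (X : Set (Fin n)) ∈ Rm (trunc M s) s ∅
  have hbad : (𝒫f.filter Bad).card ≤ (Rm (trunc M s) s ∅).ncard := by
    rw [← Set.ncard_coe_finset]
    refine Set.ncard_le_ncard_of_injOn (fun X : Finset (Fin n) => (X : Set (Fin n))) ?_ ?_
      (Set.toFinite _)
    · intro X hX
      exact (Finset.mem_filter.1 hX).2
    · intro X _ Y _ h
      exact Finset.coe_injective h
  have hgood : ∀ X ∈ 𝒫f, ¬ Bad X → (Af.filter (fun a => a ∈ X)).card ≤ ρ := by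
    intro X hX hb
    have hXc : X.card = s + 1 := (Finset.mem_powersetCard.1 hX).2
    have hXc' : (X : Set (Fin n)).ncard = s + 1 := by rw [Set.ncard_coe_finset, hXc]
    have h3 : ¬ ∀ S ⊆ (X : Set (Fin n)), S.ncard = s → ¬ (trunc M s).Indep S := by
      intro h
      exact hb ⟨hXc', Or.inr h⟩
    push Not at h3
    obtain ⟨S, hSX, hSc, hSi⟩ := h3
    have hSi' : M.Indep S := (trunc_indep.1 hSi).1
    have h4 : (S ∩ A).ncard ≤ rk M A := by
      rw [← indep_iff_rk.1 (hSi'.subset Set.inter_subset_left)]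
      exact rk_mono M Set.inter_subset_right
    have h5 : ((X : Set (Fin n)) ∩ A).ncard ≤ (S ∩ A).ncard + ((X : Set (Fin n)) \ S).ncard := by
      refine (Set.ncard_le_ncard ?_ (Set.toFinite _)).trans (Set.ncard_union_le _ _)
      rintro x ⟨hx, hxA⟩
      by_cases hxS : x ∈ S
      · exact Or.inl ⟨hxS, hxA⟩
      · exact Or.inr ⟨hx, hxS⟩
    have h6 := Set.ncard_sdiff_add_ncard_of_subset hSX (Set.toFinite _)
    have h7 : (Af.filter (fun a => a ∈ X)).card = ((X : Set (Fin n)) ∩ A).ncard := by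
      rw [← Set.ncard_coe_finset]
      congr 1
      ext x
      simp only [Finset.coe_filter, Set.mem_ofPred_eq, Set.mem_inter_iff, Finset.mem_coe, hAf,
        Set.Finite.mem_toFinset]
      tauto
    omega
  have hup : ∑ X ∈ 𝒫f, (Af.filter (fun a => a ∈ X)).card
      ≤ ρ * n.choose (s + 1) + (s + 1) * (Rm (trunc M s) s ∅).ncard := by
    rw [← Finset.sum_filter_add_sum_filter_not 𝒫f Bad]
    have e1 : ∑ X ∈ 𝒫f.filter Bad, (Af.filter (fun a => a ∈ X)).card
        ≤ (𝒫f.filter Bad).card * (s + 1) := by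
      rw [← smul_eq_mul]
      refine Finset.sum_le_card_nsmul _ _ _ ?_
      intro X hX
      have hXc : X.card = s + 1 :=
        (Finset.mem_powersetCard.1 (Finset.mem_filter.1 hX).1).2
      rw [← hXc]
      refine Finset.card_le_card ?_
      intro a ha
      exact (Finset.mem_filter.1 ha).2
    have e2 : ∑ X ∈ 𝒫f.filter (fun X => ¬ Bad X), (Af.filter (fun a => a ∈ X)).card
        ≤ (𝒫f.filter (fun X => ¬ Bad X)).card * ρ := by
      rw [← smul_eq_mul]
      refine Finset.sum_le_card_nsmul _ _ _ ?_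
      intro X hX
      exact hgood X (Finset.mem_filter.1 hX).1 (Finset.mem_filter.1 hX).2
    have e3 : (𝒫f.filter (fun X => ¬ Bad X)).card ≤ n.choose (s + 1) := by
      refine (Finset.card_filter_le _ _).trans ?_
      rw [h𝒫, Finset.card_powersetCard, Finset.card_univ, Fintype.card_fin]
    calc _ ≤ (𝒫f.filter Bad).card * (s + 1) + (𝒫f.filter (fun X => ¬ Bad X)).card * ρ :=
          Nat.add_le_add e1 e2
      _ ≤ (Rm (trunc M s) s ∅).ncard * (s + 1) + n.choose (s + 1) * ρ :=
          Nat.add_le_add (Nat.mul_le_mul_right _ hbad) (Nat.mul_le_mul_right _ e3)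
      _ = _ := by ring
  rw [hsum] at hup
  have hN : 0 < n.choose (s + 1) := Nat.choose_pos (by omega)
  set N := n.choose (s + 1) with hNdef
  set R := (Rm (trunc M s) s ∅).ncard with hR
  set SS := ∑ a ∈ Af, (𝒫f.filter (fun X => a ∈ X)).card with hS'
  -- `n (s+1) N < 4 n SS`
  have k1 : n * ((s + 1) * N) < n * (4 * SS) := by
    calc n * ((s + 1) * N) < (4 * A.ncard) * ((s + 1) * N) :=
          Nat.mul_lt_mul_of_pos_right hA4 (Nat.mul_pos (by omega) hN)
      _ = n * (4 * SS) := by rw [mul_assoc, ← hlow]; ring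
  have k2 : (s + 1) * N < 4 * SS := lt_of_mul_lt_mul_left k1 (Nat.zero_le _)
  have k3 : 8 * SS ≤ 8 * (ρ * N + (s + 1) * R) := Nat.mul_le_mul_left _ hup
  have k4 : 8 * (ρ * N) ≤ (s + 1) * N := by
    rw [← mul_assoc]; exact Nat.mul_le_mul_right _ hρ
  have k5 : 8 * ((s + 1) * R) ≤ (s + 1) * N := by
    calc 8 * ((s + 1) * R) = (s + 1) * (8 * R) := by ring
      _ ≤ (s + 1) * N := Nat.mul_le_mul_left _ hRm.le
  omega

end Pool.Agent.Work.MP_f3d170_co_helper44
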