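import Pool.Agent.Work.MP_f3d170_co_helper44.Interface

set_option autoImplicit false

open Set Matroid Nat
open Pool.Agent.Work.MP_f3d170_co_h45
open Pool.Agent.Work.MP_f3d170_co_helper60
open Pool.Agent.Work.MP_f3d170_co_helper60b

namespace Pool.Agent.Work.MP_f3d170_co_helper44

variable {n : ℕ}

/-! Common tools for PAIRS and MULT (helper51). -/

lemma p51_clD {M : Matroid (Fin n)} {s : ℕ} {F D : Set (Fin n)} {u : Fin n} (hF : IsHyp M s F)
    (hDF : D ⊆ F) (hDc : D.ncard = s + 1) (hDC : M.IsCircuit D) (hu : u ∈ D) :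
    M.closure (D \ {u}) = F := by
  have h1 : M.Indep (D \ {u}) := hDC.sdiff_singleton_indep hu
  have h2 : (D \ {u}).ncard = s := by
    rw [Set.ncard_sdiff_singleton_of_mem hu, hDc]; rfl
  have h3 : rk M (D \ {u}) = s := by rw [indep_iff_rk.1 h1, h2]
  have h4 := closure_eq_of_rk (M := M) (Set.sdiff_subset.trans hDF : D \ {u} ⊆ F)
    (by rw [h3, hF.2])
  rw [h4, hF.1]

/-- A basis of `G` from `D` and a point outside `F`. -/
lemma p51_indep {M : Matroid (Fin n)} {s : ℕ} {F D : Set (Fin n)} {u b : Fin n}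
    (hE : M.E = Set.univ) (hF : IsHyp M s F)
    (hDF : D ⊆ F) (hDc : D.ncard = s + 1) (hDC : M.IsCircuit D) (hu : u ∈ D) (hb : b ∉ F) :
    M.Indep (insert b (D \ {u})) ∧ (insert b (D \ {u})).ncard = s + 1 := by
  have h1 : M.Indep (D \ {u}) := hDC.sdiff_singleton_indep hu
  have h2 : (D \ {u}).ncard = s := by
    rw [Set.ncard_sdiff_singleton_of_mem hu, hDc]; rfl
  have hbD : b ∉ D \ {u} := fun h => hb (hDF h.1)
  constructor
  · rw [h1.insert_indep_iff_of_notMem hbD]
    refine ⟨by rw [hE]; exact Set.mem_univ _, ?_⟩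
    rw [p51_clD hF hDF hDc hDC hu]
    exact hb
  · rw [Set.ncard_insert_of_notMem hbD (Set.toFinite _), h2]

lemma p51_rk {M : Matroid (Fin n)} {s : ℕ} {G F D X : Set (Fin n)} {u b : Fin n}
    (hE : M.E = Set.univ) (hG : IsHyp M (s + 1) G) (hF : IsHyp M s F)
    (hDF : D ⊆ F) (hDc : D.ncard = s + 1) (hDC : M.IsCircuit D) (hu : u ∈ D) (hb : b ∉ F)
    (hbX : b ∈ X) (hDX : D \ {u} ⊆ X) (hXG : X ⊆ G) : rk M X = s + 1 := by
  obtain ⟨h1, h2⟩ := p51_indep hE hF hDF hDc hDC hu hb
  have h3 : rk M (insert b (D \ {u})) = s + 1 := by rw [indep_iff_rk.1 h1, h2]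
  have h4 : rk M (insert b (D \ {u})) ≤ rk M X := rk_mono M (Set.insert_subset hbX hDX)
  have h5 : rk M X ≤ rk M G := rk_mono M hXG
  rw [hG.2] at h5
  omega

lemma p51_cl_of_rk {M : Matroid (Fin n)} {s : ℕ} {G X : Set (Fin n)}
    (hG : IsHyp M (s + 1) G) (hXG : X ⊆ G) (hX : rk M X = s + 1) : M.closure X = G := by
  rw [closure_eq_of_rk hXG (by rw [hX, hG.2]), hG.1]

/-- Extension of an independent set to a basis of `G` inside a spanning set. -/
lemma p51_ext {M : Matroid (Fin n)} {s : ℕ} {I X : Set (Fin n)} (hE : M.E = Set.univ)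
    (hI : M.Indep I) (hIX : I ⊆ X) (hX : rk M X = s + 1) :
    ∃ J, M.Indep J ∧ J.ncard = s + 1 ∧ I ⊆ J ∧ J ⊆ X := by
  obtain ⟨J, hJ, hIJ⟩ := hI.subset_isBasis_of_subset hIX (by rw [hE]; exact Set.subset_univ _)
  refine ⟨J, hJ.indep, ?_, hIJ, hJ.subset⟩
  rw [← indep_iff_rk.1 hJ.indep, ← rk_closure, hJ.closure_eq_closure, rk_closure, hX]

/-- The counting of pairs. -/
lemma p51_count {α : Type*} [Finite α] (A1 : Set α) (W : α → Set α) (𝒯 : Set (Set α)) (q : ℕ)
    (hW : ∀ u ∈ A1, u ∉ W u) (hq : ∀ u ∈ A1, q ≤ 2 * (W u ∩ A1).ncard)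
    (hT : ∀ u ∈ A1, ∀ v ∈ A1, v ∈ W u → ∃ T ∈ 𝒯, A1 \ T = {u, v}) :
    A1.ncard * q ≤ 4 * 𝒯.ncard := by
  classical
  haveI : Fintype α := Fintype.ofFinite α
  set A := A1.toFinset with hA
  set P : Finset (α × α) := (A ×ˢ A).filter (fun p => p.2 ∈ W p.1) with hP
  have hPcard : A1.ncard * q ≤ 2 * P.card := by
    have h1 : P.card = ∑ u ∈ A, ((A.filter (fun v => v ∈ W u)).card) := by
      rw [hP, Finset.card_filter, Finset.sum_product]
      refine Finset.sum_congr rfl fun u _ => ?_
      rw [Finset.card_filter]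
    rw [h1, Finset.mul_sum, Set.ncard_eq_toFinset_card', ← hA, ← smul_eq_mul,
      ← Finset.sum_const]
    refine Finset.sum_le_sum fun u hu => ?_
    have hu' : u ∈ A1 := by simpa [hA] using hu
    have h2 := hq u hu'
    have h3 : (W u ∩ A1).ncard = (A.filter (fun v => v ∈ W u)).card := by
      rw [Set.ncard_eq_toFinset_card']
      congr 1
      ext v
      simp [hA, and_comm]
    rw [h3] at h2
    exact h2
  have hch : ∀ p : α × α, ∃ T : Set α, p ∈ P → T ∈ 𝒯 ∧ A1 \ T = {p.1, p.2} := by
    intro p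
    by_cases hp : p ∈ P
    · rw [hP, Finset.mem_filter, Finset.mem_product] at hp
      obtain ⟨T, hT1, hT2⟩ := hT p.1 (by simpa [hA] using hp.1.1) p.2
        (by simpa [hA] using hp.1.2) hp.2
      exact ⟨T, fun _ => ⟨hT1, hT2⟩⟩
    · exact ⟨∅, fun h => absurd h hp⟩
  choose f hf using hch
  have h𝒯 : 𝒯.ncard = 𝒯.toFinset.card := Set.ncard_eq_toFinset_card' _
  have h4 : P.card ≤ 2 * 𝒯.toFinset.card := by
    refine Finset.card_le_mul_card_image_of_maps_to (f := f) (fun p hp => ?_) 2 ?_
    · rw [Set.mem_toFinset]; exact (hf p hp).1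
    · intro T _
      by_cases hne : (P.filter (fun p => f p = T)).Nonempty
      · obtain ⟨p0, hp0⟩ := hne
        rw [Finset.mem_filter] at hp0
        have h0 := (hf p0 hp0.1).2
        rw [hp0.2] at h0
        have hsub : P.filter (fun p => f p = T) ⊆ {p0, (p0.2, p0.1)} := by
          intro p hp
          rw [Finset.mem_filter] at hp
          have h5 := (hf p hp.1).2
          rw [hp.2, h0] at h5
          have hP1 := hp.1
          rw [hP, Finset.mem_filter, Finset.mem_product] at hP1
          have hne : p.1 ≠ p.2 := by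
            intro he
            have := hW p.1 (by simpa [hA] using hP1.1.1)
            rw [← he] at hP1
            exact this hP1.2
          have h6 : p.1 ∈ ({p0.1, p0.2} : Set α) := by rw [h5]; simp
          have h7 : p.2 ∈ ({p0.1, p0.2} : Set α) := by rw [h5]; simp
          rw [Finset.mem_insert, Finset.mem_singleton]
          rcases h6 with h6 | h6 <;> rcases h7 with h7 | h7
          · exact absurd (h6.trans h7.symm) hne
          · left; exact Prod.ext h6 h7
          · right; exact Prod.ext h6 h7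
          · have h6' : p.1 = p0.2 := h6
            have h7' : p.2 = p0.2 := h7
            exact absurd (h6'.trans h7'.symm) hne
        exact (Finset.card_le_card hsub).trans Finset.card_le_two
      · rw [Finset.not_nonempty_iff_eq_empty] at hne
        rw [hne]; simp
  rw [h𝒯]
  omega

theorem stmt_PAIRS : Stmt_PAIRS := by
  intro n s M G F D B y hE hG hF hFG hDF hDc hDC hyG hyF hB hBGF hBne hZ hρ hW
  obtain ⟨b0, hb0⟩ := hBne
  have hb0G : b0 ∈ G := (hBGF hb0).1
  have hb0F : b0 ∉ F := (hBGF hb0).2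
  have hDG : D ⊆ G := hDF.trans hFG
  have hBG : B ⊆ G := hBGF.trans Set.sdiff_subset
  have hDne : D.Nonempty := hDC.nonempty
  obtain ⟨d0, hd0⟩ := hDne
  have hDBG : D ∪ B ⊆ G := Set.union_subset hDG hBG
  have hDB : Disjoint D B := by
    rw [Set.disjoint_left]
    intro z hz hzB
    exact (hBGF hzB).2 (hDF hz)
  -- the basis `B ∪ A1`
  have hr0 : rk M (D ∪ B) = s + 1 :=
    p51_rk hE hG hF hDF hDc hDC hd0 hb0F (Or.inr hb0) (Set.sdiff_subset.trans Set.subset_union_left)
      hDBG
  obtain ⟨J, hJ, hJc, hBJ, hJX⟩ := p51_ext hE hB Set.subset_union_right hr0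
  set A1 : Set (Fin n) := J \ B with hA1
  have hA1D : A1 ⊆ D := by
    intro z hz
    rcases hJX hz.1 with h | h
    · exact h
    · exact absurd h hz.2
  have hA1c : A1.ncard + B.ncard = s + 1 := by
    rw [hA1, Set.ncard_sdiff_add_ncard_of_subset hBJ (Set.toFinite _), hJc]
  -- the sets `W u`
  let W : Fin n → Set (Fin n) := fun u => {v | v ∈ D ∧ v ≠ u ∧ rk M ((D ∪ B) \ {u, v}) = s + 1}
  have hWc : ∀ u ∈ D, s + 2 ≤ 2 * (W u).ncard := by
    intro u hu
    by_contra hcon
    push Not at hcon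
    refine hW (W u) (fun v hv => hv.1) (by omega) ?_
    obtain ⟨hI, hIc⟩ := p51_indep hE hF hDF hDc hDC hu hb0F
    set I : Set (Fin n) := insert b0 (D \ {u}) with hIdef
    have hIG : I ⊆ G := Set.insert_subset hb0G (Set.sdiff_subset.trans hDG)
    have hIcl : M.closure I = G := p51_cl_of_rk hG hIG (by rw [indep_iff_rk.1 hI, hIc])
    have hB1 : B ⊆ M.closure (insert b0 (W u)) := by
      intro b hb
      by_cases hbb : b = b0
      · subst hbb
        exact M.mem_closure_of_mem (Set.mem_insert _ _) (by rw [hE]; exact Set.subset_univ _)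
      have hbI : b ∉ I := by
        rintro (h | h)
        · exact hbb h
        · exact (hBGF hb).2 (hDF h.1)
      have hbcl : b ∈ M.closure I := by rw [hIcl]; exact hBG hb
      have hC := hI.fundCircuit_isCircuit hbcl hbI
      have hmem := hC.mem_closure_sdiff_singleton_of_mem (M.mem_fundCircuit b I)
      refine M.closure_subset_closure ?_ hmem
      intro v hv
      have hv1 : v ∈ insert b I := M.fundCircuit_subset_insert b I hv.1
      have hvb : v ≠ b := hv.2
      have hvI : v ∈ I := hv1.resolve_left hvb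
      by_cases hvb0 : v = b0
      · left; exact hvb0
      right
      have hvD : v ∈ D \ {u} := hvI.resolve_left hvb0
      refine ⟨hvD.1, hvD.2, ?_⟩
      have h1 := (hI.mem_fundCircuit_iff hbcl hbI).1 hv.1
      have h2 : (insert b I \ {v}).ncard = s + 1 := by
        rw [Set.ncard_sdiff_singleton_of_mem hv1, Set.ncard_insert_of_notMem hbI (Set.toFinite _), hIc]
        rfl
      have h3 : rk M (insert b I \ {v}) = s + 1 := by rw [indep_iff_rk.1 h1, h2]
      have h4 : insert b I \ {v} ⊆ (D ∪ B) \ {u, v} := by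
        rintro z ⟨hz, hzv⟩
        rcases hz with rfl | rfl | hz
        · refine ⟨Or.inr hb, ?_⟩
          rintro (rfl | hzv')
          · exact (hBGF hb).2 (hDF hu)
          · exact hzv hzv'
        · refine ⟨Or.inr hb0, ?_⟩
          rintro (rfl | hzv')
          · exact hb0F (hDF hu)
          · exact hzv hzv'
        · refine ⟨Or.inl hz.1, ?_⟩
          rintro (hzu | hzv')
          · exact hz.2 hzu
          · exact hzv hzv'
      have h5 : rk M ((D ∪ B) \ {u, v}) ≤ rk M G := rk_mono M (Set.sdiff_subset.trans hDBG)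
      have h6 := rk_mono M h4
      rw [hG.2] at h5
      omega
    have hy1 : y ∈ M.closure (insert b0 (W u)) := by
      have h1 : G \ F ⊆ M.closure (insert b0 (W u)) :=
        hZ.trans (M.closure_subset_closure_of_subset_closure hB1)
      exact h1 ⟨hyG, hyF⟩
    have hWF : M.closure (W u) ⊆ F := by
      rw [← hF.1]
      exact M.closure_subset_closure (fun v hv => hDF hv.1)
    have hy2 : y ∉ M.closure (W u) := fun h => hyF (hWF h)
    have hex := (M.closure_exchange (X := W u) (e := y) (f := b0) ⟨hy1, hy2⟩).1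
    have h7 : insert b0 (W u) ⊆ M.closure (insert y (W u)) :=
      Set.insert_subset hex ((Set.subset_insert _ _).trans
        (M.subset_closure _ (by rw [hE]; exact Set.subset_univ _)))
    exact hZ.trans (M.closure_subset_closure_of_subset_closure
      (hB1.trans (M.closure_subset_closure_of_subset_closure h7)))
  -- counting
  have hmain := p51_count A1 W {T : Set (Fin n) | M.Indep T ∧ T.ncard = s + 1 ∧ T ⊆ G ∧ T \ F = B}
    (s + 2 - 2 * B.ncard) (fun u _ hu => hu.2.1 rfl) ?_ ?_
  · have h1 : A1.ncard = s + 1 - B.ncard := by omega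
    rw [h1] at hmain
    have h2 : 4 * (s + 1) ^ 2 ≤ 5 * ((s + 1 - B.ncard) * (s + 2 - 2 * B.ncard)) := by
      obtain ⟨t, ht⟩ : ∃ t, s = 20 * B.ncard + t := ⟨s - 20 * B.ncard, by omega⟩
      have h3 : s + 1 - B.ncard = 19 * B.ncard + t + 1 := by omega
      have h4 : s + 2 - 2 * B.ncard = 18 * B.ncard + t + 2 := by omega
      rw [h3, h4, ht]
      nlinarith [Nat.zero_le (B.ncard * t), Nat.zero_le (B.ncard), Nat.zero_le t,
        Nat.zero_le (t * t), Nat.zero_le (B.ncard * B.ncard)]
    omega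
  · intro u hu
    have h1 := hWc u (hA1D hu)
    have h2 : (W u).ncard ≤ (W u ∩ A1).ncard + B.ncard := by
      have h3 : W u ⊆ (W u ∩ A1) ∪ (D \ A1) := by
        intro v hv
        by_cases hvA : v ∈ A1
        · left; exact ⟨hv, hvA⟩
        · right; exact ⟨hv.1, hvA⟩
      have h4 := (Set.ncard_le_ncard h3 (Set.toFinite _)).trans (Set.ncard_union_le _ _)
      have h5 : (D \ A1).ncard + A1.ncard = s + 1 := by
        rw [Set.ncard_sdiff_add_ncard_of_subset hA1D (Set.toFinite _), hDc]
      omega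
    omega
  · intro u hu v hv hvW
    have hJ' : M.Indep (J \ {u, v}) := hJ.subset Set.sdiff_subset
    obtain ⟨T, hT, hTc, hJT, hTX⟩ := p51_ext hE hJ' (Set.sdiff_subset_sdiff_left hJX) hvW.2.2
    refine ⟨T, ⟨hT, hTc, (hTX.trans Set.sdiff_subset).trans hDBG, ?_⟩, ?_⟩
    · ext z
      constructor
      · rintro ⟨hz, hzF⟩
        rcases (hTX hz).1 with h | h
        · exact absurd (hDF h) hzF
        · exact h
      · intro hz
        refine ⟨hJT ⟨hBJ hz, ?_⟩, (hBGF hz).2⟩
        rintro (h | h)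
        · rw [h] at hz; exact hu.2 hz
        · have h' : z = v := h
          rw [h'] at hz; exact hv.2 hz
    · ext z
      constructor
      · rintro ⟨hz, hzT⟩
        by_contra hcon
        exact hzT (hJT ⟨hz.1, hcon⟩)
      · rintro (h | h)
        · rw [h]; exact ⟨hu, fun hh => (hTX hh).2 (Or.inl rfl)⟩
        · have h' : z = v := h
          rw [h']; exact ⟨hv, fun hh => (hTX hh).2 (Or.inr rfl)⟩

end Pool.Agent.Work.MP_f3d170_co_helper44
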