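import Pool.Agent.Work.MP_f3d170_co_helper44.Interface

set_option autoImplicit false

open Set Matroid Nat
open Pool.Agent.Work.MP_f3d170_co_h45
open Pool.Agent.Work.MP_f3d170_co_helper60
open Pool.Agent.Work.MP_f3d170_co_helper60b

namespace Pool.Agent.Work.MP_f3d170_co_helper44

/-- A map which is determined by another one has at most as many values. -/
lemma ncard_image_le_of_determined {α β γ : Type*} {𝒞 : Set α} (h𝒞 : 𝒞.Finite) (G : α → β)
    (t : α → γ) (h : ∀ M ∈ 𝒞, ∀ M' ∈ 𝒞, G M = G M' → t M = t M') :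
    (t '' 𝒞).ncard ≤ (G '' 𝒞).ncard := by
  classical
  rcases 𝒞.eq_empty_or_nonempty with rfl | ⟨M₀, hM₀⟩
  · simp
  · let k : β → γ := fun b => if hb : ∃ M ∈ 𝒞, G M = b then t hb.choose else t M₀
    have hsub : t '' 𝒞 ⊆ k '' (G '' 𝒞) := by
      rintro _ ⟨M, hM, rfl⟩
      refine ⟨G M, ⟨M, hM, rfl⟩, ?_⟩
      have hb : ∃ M' ∈ 𝒞, G M' = G M := ⟨M, hM, rfl⟩
      simp only [k, dif_pos hb]
      exact h _ hb.choose_spec.1 _ hM hb.choose_spec.2
    calc (t '' 𝒞).ncard ≤ (k '' (G '' 𝒞)).ncard :=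
          Set.ncard_le_ncard hsub ((h𝒞.image G).image k)
      _ ≤ (G '' 𝒞).ncard := Set.ncard_image_le (h𝒞.image G)

lemma ncard_powersetCard_univ (n k : ℕ) : {Y : Set (Fin n) | Y.ncard = k}.ncard = n.choose k := by
  classical
  have h1 : {Y : Set (Fin n) | Y.ncard = k} =
      (fun I : Finset (Fin n) => (I : Set (Fin n))) ''
        ((Finset.univ.powersetCard k : Finset (Finset (Fin n))) : Set (Finset (Fin n))) := by
    ext Y
    constructor
    · intro hY
      refine ⟨(Set.toFinite Y).toFinset, ?_, (Set.toFinite Y).coe_toFinset⟩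
      rw [Finset.mem_coe, Finset.mem_powersetCard]
      exact ⟨Finset.subset_univ _, by rw [← Set.ncard_eq_toFinset_card Y (Set.toFinite Y)]; exact hY⟩
    · rintro ⟨I, hI, rfl⟩
      rw [Finset.mem_coe, Finset.mem_powersetCard] at hI
      simp only [Set.mem_ofPred_eq, Set.ncard_coe_finset]
      exact hI.2
  rw [h1, Set.ncard_image_of_injective _ Finset.coe_injective, Set.ncard_coe_finset,
    Finset.card_powersetCard, Finset.card_univ, Fintype.card_fin]

lemma trunc_trunc {n : ℕ} (M : Matroid (Fin n)) {s c : ℕ} (hcs : c ≤ s) :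
    trunc (trunc M s) c = trunc M c := by
  refine Matroid.ext_indep ?_ ?_
  · simp [trunc]
  · intro I hI
    rw [trunc_indep, trunc_indep, trunc_indep]
    constructor
    · rintro ⟨⟨h1, h2⟩, h3⟩
      exact ⟨h1, h3⟩
    · rintro ⟨h1, h3⟩
      exact ⟨⟨h1, h3.trans hcs⟩, h3⟩

theorem stmt_STEP_of (hLC : Stmt_LC) (hE1 : Stmt_E1) (hE2 : Stmt_E2) (hCODE : Stmt_CODE)
    (hCNT : Stmt_CNT) : Stmt_STEP := by
  classical
  intro n s c Λ Λs a B 𝒞 hn hs hcs hΛ hΛs hfact hB hchoose hE hstar hNC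
  obtain ⟨code, hcode, hinj⟩ := hCODE n s hs
  have h𝒞fin : 𝒞.Finite := Set.toFinite _
  -- the first code
  set f : Matroid (Fin n) → Matroid (Fin n) × Set (Set (Fin n)) :=
    fun M => (trunc M s, Lg Λ M s) with hf
  have h1 := hLC n (s + 1) c Λ Λs _ f 𝒞 hn (by omega) hΛ hΛs hfact hE (by
    intro M _ M' _ hfM
    have h2 : trunc M s = trunc M' s := congrArg Prod.fst hfM
    rw [← trunc_trunc M hcs, ← trunc_trunc M' hcs, h2])
  set g : Matroid (Fin n) → (Matroid (Fin n) × Set (Set (Fin n))) × Set (Set (Fin n)) :=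
    fun M => (f M, Lg Λ M (s + 1)) with hg
  set cd : Matroid (Fin n) → Set (Set (Fin n)) := fun M => code (Bk M s (Coh Λ M s)) with hcd
  -- the determined map
  have h3 := ncard_image_le_of_determined h𝒞fin (fun M => (g M, cd M))
    (fun M => (trunc M (s + 1), Lg Λ M (s + 1))) (by
      intro M hM M' hM' hG
      have hgM : g M = g M' := congrArg Prod.fst hG
      have hcdM : cd M = cd M' := congrArg Prod.snd hG
      have hfM : f M = f M' := congrArg Prod.fst hgM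
      have hLg' : Lg Λ M (s + 1) = Lg Λ M' (s + 1) := congrArg Prod.snd hgM
      have htr : trunc M s = trunc M' s := congrArg Prod.fst hfM
      have hLg : Lg Λ M s = Lg Λ M' s := congrArg Prod.snd hfM
      have hBk : Bk M s (Coh Λ M s) = Bk M' s (Coh Λ M' s) :=
        hinj _ _ (hE1 n s M _ (hE M hM)) (hE1 n s M' _ (hE M' hM')) hcdM
      have := hE2 n s Λ M M' (hE M hM) (hE M' hM') htr hLg hLg' hBk
      simp only [this, hLg'])
  set U : Set (Set (Fin n)) := {Y | Y.ncard = s + 1} with hU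
  have hUc : U.ncard ≤ a * B := by
    rw [hU, ncard_powersetCard_univ]; exact hchoose
  have h4 := hCNT (Set (Fin n)) U a B (Set.toFinite _) hB hUc
  set 𝒲 : Set (Set (Set (Fin n))) := {𝒮 | 𝒮 ⊆ U ∧ 𝒮.ncard ≤ a} with h𝒲
  have hBkc : ∀ M ∈ 𝒞, (Bk M s (Coh Λ M s)).ncard ≤ (NC Λ M s).ncard := by
    intro M hM
    have hsub : Bk M s (Coh Λ M s) ⊆ star M s '' (NC Λ M s) := by
      rintro A ⟨P, hP, hPC, hgen, rfl⟩
      exact ⟨P, ⟨hP, hgen, hPC⟩, rfl⟩
    exact (Set.ncard_le_ncard hsub (Set.toFinite _)).trans (Set.ncard_image_le (Set.toFinite _))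
  have h5 : (fun M => (g M, cd M)) '' 𝒞 ⊆ (g '' 𝒞) ×ˢ 𝒲 := by
    rintro _ ⟨M, hM, rfl⟩
    refine ⟨⟨M, hM, rfl⟩, ?_, ?_⟩
    · intro Y hY
      exact (hcode _ (hE1 n s M (Coh Λ M s) (hE M hM))).1 Y hY
    · have h6 := (hcode _ (hE1 n s M (Coh Λ M s) (hE M hM))).2.2 (by
        rintro A ⟨P, hP, hPC, hgen, rfl⟩
        exact hstar M hM P ⟨hP, hgen, hPC⟩)
      have h7 := hBkc M hM
      have h8 := hNC M hM
      calc (cd M).ncard ≤ 2 * (Bk M s (Coh Λ M s)).ncard := h6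
        _ ≤ 2 * (NC Λ M s).ncard := by omega
        _ ≤ a := h8
  have h6 := Set.ncard_le_ncard h5 (Set.toFinite _)
  rw [Set.ncard_prod] at h6
  calc ((fun M => (trunc M (s + 1), Lg Λ M (s + 1))) '' 𝒞).ncard
      ≤ ((fun M => (g M, cd M)) '' 𝒞).ncard := h3
    _ ≤ (g '' 𝒞).ncard * 𝒲.ncard := h6
    _ ≤ ((f '' 𝒞).ncard * LK n Λ Λs (s + 1)) * (3 * B) ^ a := Nat.mul_le_mul h1 h4
    _ = (f '' 𝒞).ncard * (LK n Λ Λs (s + 1) * (3 * B) ^ a) := by ring

end Pool.Agent.Work.MP_f3d170_co_helper44
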