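import Mathlib
import Pool.Agent.Work.MP_f3d170_co_helper44.Main0
import Pool.Agent.Work.MP_f3d170_co_helper44.TCLA
import Pool.Agent.Work.MP_f3d170_co_helper44.TCNT
import Pool.Agent.Work.MP_f3d170_co_helper44.TCODE
import Pool.Agent.Work.MP_f3d170_co_helper44.TCRUDE
import Pool.Agent.Work.MP_f3d170_co_helper44.TE1
import Pool.Agent.Work.MP_f3d170_co_helper44.TE2
import Pool.Agent.Work.MP_f3d170_co_helper44.TE3
import Pool.Agent.Work.MP_f3d170_co_helper44.TE4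
import Pool.Agent.Work.MP_f3d170_co_helper44.TFIN
import Pool.Agent.Work.MP_f3d170_co_helper44.TFLAT
import Pool.Agent.Work.MP_f3d170_co_helper44.TGX
import Pool.Agent.Work.MP_f3d170_co_helper44.TLC
import Pool.Agent.Work.MP_f3d170_co_helper44.TLIST
import Pool.Agent.Work.MP_f3d170_co_helper44.TLOW
import Pool.Agent.Work.MP_f3d170_co_helper44.TMULT
import Pool.Agent.Work.MP_f3d170_co_helper44.TN1
import Pool.Agent.Work.MP_f3d170_co_helper44.TNCG
import Pool.Agent.Work.MP_f3d170_co_helper44.TNCN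
import Pool.Agent.Work.MP_f3d170_co_helper44.TP38
import Pool.Agent.Work.MP_f3d170_co_helper44.TPAIRS
import Pool.Agent.Work.MP_f3d170_co_helper44.TSTEP
import Pool.Agent.Work.MP_f3d170_co_helper44.TNUMA
import Pool.Agent.Work.MP_f3d170_co_helper44.TNUMF
import Pool.Agent.Work.MP_f3d170_co_helper44.TNUMS
import Pool.Agent.Work.MP_f3d170_co_helper44.TNUML
import Pool.Agent.Work.MP_f3d170_co_helper44.TNUMC

set_option autoImplicit false

open Set Matroid Nat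
open Pool.Agent.Work.MP_f3d170_co_h45

namespace Pool.Agent.Work.MP_f3d170_co_helper44

theorem stmt_LC : Stmt_LC := stmt_LC_of (stmt_LIST stmt_CLA) stmt_CNT

theorem stmt_STEP : Stmt_STEP := stmt_STEP_of stmt_LC stmt_E1 stmt_E2 stmt_CODE stmt_CNT

theorem stmt_CRUDE : Stmt_CRUDE := stmt_CRUDE_of stmt_LOW stmt_CODE stmt_CNT

/-- More circuits than bases for `n` at least a constant times `r (log r)^3`. -/
theorem main (k : ℕ) (hk : 1 ≤ k) :
    ∃ C, ∀ r n, 3 ≤ r → (C * r * Nat.log 2 r ^ 3 ≤ n ∨ (2 * r * (k + 1)) ^ 24 ≤ n) →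
      ∀ 𝒩 : Finset (RankMatroid n r), IsTransversal 𝒩 →
        ∑ M ∈ 𝒩, numBases M.1 < ∑ M ∈ 𝒩, numCircuits M.1 ∧
        k ^ 2 * (n * ∑ M ∈ 𝒩, numBases M.1) ≤
          (k + 1) ^ 2 * ((r + 1) * ∑ M ∈ 𝒩, numCircuits M.1) :=
  main_of (ratio_all stmt_E4 stmt_CRUDE stmt_LC stmt_STEP stmt_N1 stmt_P38 stmt_MULT stmt_NCN
    stmt_NCG stmt_GX stmt_FLAT stmt_FIN stmt_NUMA stmt_NUMF stmt_NUMS stmt_NUML stmt_NUMC) k hk

end Pool.Agent.Work.MP_f3d170_co_helper44
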