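import Mathlib
import Pool.Agent.Work.MP_f3d170_co_helper44.TE1
import Pool.Agent.Work.MP_f3d170_co_helper44.TE3

/-! Block E4. -/

set_option autoImplicit false

open Set Matroid Nat
open Pool.Agent.Work.MP_f3d170_co_h45
open Pool.Agent.Work.MP_f3d170_co_helper60
open Pool.Agent.Work.MP_f3d170_co_helper60b

namespace Pool.Agent.Work.MP_f3d170_co_helper44

variable {n s : ℕ}

lemma Bk_disjoint_Rm {M : Matroid (Fin n)} (hE : M.E = Set.univ) {𝓖 : Set (Set (Fin n))}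
    (h𝓖 : ∀ P ∈ 𝓖, IsHyp M s P) {A X : Set (Fin n)} (hA : A ∈ Bk M s 𝓖)
    (hX : X ∈ Rm (trunc M s) s 𝓖) : (A ∩ X).ncard < s := by
  by_contra hcon
  push Not at hcon
  obtain ⟨S, hS, hSc⟩ := Set.exists_subset_card_eq hcon
  obtain ⟨P, hP, hPH, hgen, rfl⟩ := hA
  have hst := star_spec hgen
  have hSind : M.Indep S := hst.2.2.1 S (hS.trans Set.inter_subset_left) hSc
  have hrk : rk M S = s := by rw [indep_iff_rk.1 hSind, hSc]
  rcases hX.2 with ⟨G, hG, hXG⟩ | hXT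
  · have hSG : S ⊆ G := (hS.trans Set.inter_subset_right).trans hXG
    have hPG : P = G := by
      rw [hP.eq_closure hE ((hS.trans Set.inter_subset_left).trans hst.1) hrk.ge,
        (h𝓖 G hG).eq_closure hE hSG hrk.ge]
    exact hPH (hPG ▸ hG)
  · exact hXT S (hS.trans Set.inter_subset_right) hSc (trunc_indep.2 ⟨hSind, hSc.le⟩)

lemma isPart_Bk_union {M : Matroid (Fin n)} (hE : M.E = Set.univ) {𝓖 : Set (Set (Fin n))}
    (h𝓖 : ∀ P ∈ 𝓖, IsHyp M s P) {𝒟 : Set (Set (Fin n))} (h𝒟 : 𝒟 ⊆ Rm (trunc M s) s 𝓖)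
    (hst : ∀ X ∈ 𝒟, ∀ Y ∈ 𝒟, s ≤ (X ∩ Y).ncard → X = Y) : IsPart s (Bk M s 𝓖 ∪ 𝒟) := by
  have hb := isPart_Bk (s := s) hE 𝓖
  constructor
  · rintro P (hP | hP)
    · exact hb.1 P hP
    · exact (h𝒟 hP).1.ge
  · rintro P (hP | hP) Q (hQ | hQ) hc
    · exact hb.2 P hP Q hQ hc
    · exact absurd (Bk_disjoint_Rm hE h𝓖 hP (h𝒟 hQ)) (not_lt.2 hc)
    · rw [Set.inter_comm] at hc
      exact absurd (Bk_disjoint_Rm hE h𝓖 hQ (h𝒟 hP)) (not_lt.2 hc)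
    · exact hst P hP Q hQ hc

theorem stmt_E4 : Stmt_E4 := by
  classical
  intro n s g 𝓖 𝒞 hn h𝒞 h𝓖 hroom
  have hfin : Finite (RankMatroid n (s + 1)) := Subtype.finite
  -- the chosen stable families
  have hex : ∀ (T : Matroid (Fin n)) (H : Set (Set (Fin n))), ∃ ι : Fin g → Set (Fin n),
      n * g ≤ (Rm T s H).ncard → Function.Injective ι ∧ (∀ k, ι k ∈ Rm T s H) ∧
        ∀ k l, s ≤ (ι k ∩ ι l).ncard → ι k = ι l := by
    intro T H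
    by_cases hD : n * g ≤ (Rm T s H).ncard
    · obtain ⟨ι, hι⟩ := exists_stable (s := s) (g := g) (by omega : 0 < n)
        (𝒳 := Rm T s H) (fun X hX => hX.1) hD
      exact ⟨ι, fun _ => hι⟩
    · exact ⟨fun _ => ∅, fun h => absurd h hD⟩
  choose ι hι using hex
  have hpart : ∀ M ∈ 𝒞, ∀ A : Set (Fin g),
      IsPart s (Bk M s (𝓖 M) ∪ ι (trunc M s) (𝓖 M) '' A) := by
    intro M hM A
    obtain ⟨h1, h2, h3⟩ := hι _ _ (hroom M hM)
    refine isPart_Bk_union (h𝒞 M hM).1 (h𝓖 M hM) ?_ ?_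
    · rintro _ ⟨k, -, rfl⟩
      exact h2 k
    · rintro _ ⟨k, -, rfl⟩ _ ⟨l, -, rfl⟩ hc
      exact h3 k l hc
  have hcard : ({𝒲 : Set (Set (Fin n)) | IsPart s 𝒲}).ncard ≤
      Nat.card (RankMatroid n (s + 1)) + 1 := card_part_le hn
  have hset : (Set.univ : Set (Set (Fin g))).ncard = 2 ^ g := by
    rw [Set.ncard_univ, card_set_fin]
  rw [← hset, ← Set.ncard_prod]
  refine le_trans ?_ (Nat.mul_le_mul_left _ hcard)
  rw [← Set.ncard_prod]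
  refine Set.ncard_le_ncard_of_injOn (fun p : Matroid (Fin n) × Set (Fin g) =>
    ((trunc p.1 s, 𝓖 p.1), Bk p.1 s (𝓖 p.1) ∪ ι (trunc p.1 s) (𝓖 p.1) '' p.2)) ?_ ?_
    (Set.toFinite _)
  · rintro ⟨M, A⟩ ⟨hM, -⟩
    exact ⟨⟨M, hM, rfl⟩, hpart M hM A⟩
  · rintro ⟨M, A⟩ ⟨hM, -⟩ ⟨M', A'⟩ ⟨hM', -⟩ h
    simp only [Prod.mk.injEq] at h
    obtain ⟨⟨e1, e2⟩, e3⟩ := h
    replace hM : M ∈ 𝒞 := hM
    replace hM' : M' ∈ 𝒞 := hM'
    obtain ⟨h1, h2, h3⟩ := hι _ _ (hroom M hM)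
    have hdisj : ∀ N ∈ 𝒞, ∀ B ∈ Bk N s (𝓖 N), B ∉ Rm (trunc N s) s (𝓖 N) := by
      intro N hN B hB hB'
      have h4 := Bk_disjoint_Rm (h𝒞 N hN).1 (h𝓖 N hN) hB hB'
      rw [Set.inter_self, hB'.1] at h4
      omega
    have hdisj0 := hdisj M hM
    have hdisj' := hdisj M' hM'
    rw [← e1, ← e2] at e3 hdisj'
    have hA : ι (trunc M s) (𝓖 M) '' A = ι (trunc M s) (𝓖 M) '' A' := by
      ext B
      constructor
      · rintro ⟨k, hk, rfl⟩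
        have h5 : ι (trunc M s) (𝓖 M) k ∈ Bk M' s (𝓖 M) ∪ ι (trunc M s) (𝓖 M) '' A' := by
          rw [← e3]; exact Or.inr ⟨k, hk, rfl⟩
        rcases h5 with h5 | h5
        · exact absurd (h2 k) (hdisj' _ h5)
        · exact h5
      · rintro ⟨k, hk, rfl⟩
        have h5 : ι (trunc M s) (𝓖 M) k ∈ Bk M s (𝓖 M) ∪ ι (trunc M s) (𝓖 M) '' A := by
          rw [e3]; exact Or.inr ⟨k, hk, rfl⟩
        rcases h5 with h5 | h5
        · exact absurd (h2 k) (hdisj0 _ h5)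
        · exact h5
    have hAA : A = A' := (Set.image_injective.2 h1) hA
    have hBB : Bk M s (𝓖 M) = Bk M' s (𝓖 M) := by
      ext B
      constructor
      · intro hB
        have h5 : B ∈ Bk M' s (𝓖 M) ∪ ι (trunc M s) (𝓖 M) '' A' := by
          rw [← e3]; exact Or.inl hB
        rcases h5 with h5 | ⟨k, -, rfl⟩
        · exact h5
        · exact absurd (h2 k) (hdisj0 _ hB)
      · intro hB
        have h5 : B ∈ Bk M s (𝓖 M) ∪ ι (trunc M s) (𝓖 M) '' A := by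
          rw [e3]; exact Or.inl hB
        rcases h5 with h5 | ⟨k, -, rfl⟩
        · exact h5
        · exact absurd (h2 k) (hdisj' _ hB)
    have hMM : M = M' := stmt_E3 n s (𝓖 M) M M' (h𝒞 M hM).1 (h𝒞 M' hM').1 (h𝒞 M hM).2
      (h𝒞 M' hM').2 (h𝓖 M hM) (e2 ▸ h𝓖 M' hM') e1 hBB
    rw [hMM, hAA]

end Pool.Agent.Work.MP_f3d170_co_helper44
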